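import Pool.Agent.helper506_rot.Inst
import Pool.Agent.NPC.Hard

/-!
# The reduction is computable in polynomial time
-/

set_option autoImplicit false

namespace Pool.Agent.helper506_rot

open Pool.Agent.NPC

section

variable {α : Type} [TEnc α] {φ : α → List Cl} {p r k : α → ℕ}

theorem poly_litAt (hφ : Poly φ) (hp : Poly p) (hk : Poly k) :
    Poly (fun a => litAt (φ a) (p a) (k a)) := by
  have h1 : Poly (fun a => (φ a).getD (p a) ((true, 0), (true, 0), (true, 0))) :=
    NPC.Poly.getD (d := fun _ => (((true, 0), (true, 0), (true, 0)) : Cl)) hφ hp (NPC.Poly.const _)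
  exact NPC.Poly.ite (p := fun a => k a = 0) (NPC.Poly.decide_eq hk (NPC.Poly.const 0)) (NPC.Poly.fst h1)
    (NPC.Poly.ite (p := fun a => k a = 1) (NPC.Poly.decide_eq hk (NPC.Poly.const 1)) (NPC.Poly.fst (NPC.Poly.snd h1))
      (NPC.Poly.snd (NPC.Poly.snd h1)))

theorem poly_up (hφ : Poly φ) (hp : Poly p) (hr : Poly r) :
    Poly (fun a => upR (φ a) (p a) (r a)) := by
  have hm : Poly (fun a => 6 * (φ a).length + 2) :=
    NPC.Poly.add (NPC.Poly.mul (NPC.Poly.const 6) (NPC.Poly.length hφ)) (NPC.Poly.const 2)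
  have c : ∀ n : ℕ, Poly (fun _ : α => n) := fun n => NPC.Poly.const n
  have p2 : Poly (fun a => p a - 2) := NPC.Poly.sub hp (c 2)
  have r2 : Poly (fun a => r a - 2) := NPC.Poly.sub hr (c 2)
  have pb : Poly (fun a => (p a - 2) / 6) := NPC.Poly.div p2 (c 6)
  have rb : Poly (fun a => (r a - 2) / 6) := NPC.Poly.div r2 (c 6)
  have po : Poly (fun a => (p a - 2) % 6) := NPC.Poly.mod p2 (c 6)
  have ro : Poly (fun a => (r a - 2) % 6) := NPC.Poly.mod r2 (c 6)
  have h := NPC.Poly.decide_and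
    (NPC.Poly.decide_and (NPC.Poly.decide_le (c 1) hp) (NPC.Poly.decide_and (NPC.Poly.decide_lt hp hr)
      (NPC.Poly.decide_lt hr hm)))
    (NPC.Poly.decide_or
      (NPC.Poly.decide_and (NPC.Poly.decide_eq hp (c 1)) (NPC.Poly.decide_eq ro (c 1)))
      (NPC.Poly.decide_and
        (NPC.Poly.decide_and (NPC.Poly.decide_le (c 2) hp) (NPC.Poly.decide_eq pb rb))
        (NPC.Poly.decide_or
          (NPC.Poly.decide_and (NPC.Poly.decide_eq po (c 0))
            (NPC.Poly.decide_or (NPC.Poly.decide_eq ro (c 1)) (NPC.Poly.decide_eq ro (c 3))))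
          (NPC.Poly.decide_and (NPC.Poly.decide_eq po (c 2))
            (NPC.Poly.decide_or (NPC.Poly.decide_eq ro (c 3)) (NPC.Poly.decide_eq ro (c 4)))))))
  exact h.congr fun a => decide_eq_decide.2 Iff.rfl

theorem poly_low (hφ : Poly φ) (hp : Poly p) (hr : Poly r) :
    Poly (fun a => lowR (φ a) (p a) (r a)) := by
  have hm : Poly (fun a => 6 * (φ a).length + 2) :=
    NPC.Poly.add (NPC.Poly.mul (NPC.Poly.const 6) (NPC.Poly.length hφ)) (NPC.Poly.const 2)
  have c : ∀ n : ℕ, Poly (fun _ : α => n) := fun n => NPC.Poly.const n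
  have p2 : Poly (fun a => p a - 2) := NPC.Poly.sub hp (c 2)
  have r2 : Poly (fun a => r a - 2) := NPC.Poly.sub hr (c 2)
  have pb : Poly (fun a => (p a - 2) / 6) := NPC.Poly.div p2 (c 6)
  have rb : Poly (fun a => (r a - 2) / 6) := NPC.Poly.div r2 (c 6)
  have po : Poly (fun a => (p a - 2) % 6 / 2) := NPC.Poly.div (NPC.Poly.mod p2 (c 6)) (c 2)
  have ro : Poly (fun a => (r a - 2) % 6) := NPC.Poly.mod r2 (c 6)
  have ro2 : Poly (fun a => (r a - 2) % 6 / 2) := NPC.Poly.div ro (c 2)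
  have l1 := poly_litAt hφ pb po
  have l2 := poly_litAt hφ rb ro2
  have h := NPC.Poly.decide_and
    (NPC.Poly.decide_and (NPC.Poly.decide_le (c 1) hp) (NPC.Poly.decide_and (NPC.Poly.decide_lt hp hr)
      (NPC.Poly.decide_lt hr hm)))
    (NPC.Poly.decide_or
      (NPC.Poly.decide_and (NPC.Poly.decide_eq hp (c 1)) (NPC.Poly.decide_eq ro (c 5)))
      (NPC.Poly.decide_and
        (NPC.Poly.decide_and (NPC.Poly.decide_le (c 2) hp) (NPC.Poly.decide_eq (NPC.Poly.mod hp (c 2)) (c 0)))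
        (NPC.Poly.decide_or
          (NPC.Poly.decide_and (NPC.Poly.decide_eq pb rb) (NPC.Poly.decide_eq ro (c 5)))
          (NPC.Poly.decide_and
            (NPC.Poly.decide_and (NPC.Poly.decide_lt pb rb) (NPC.Poly.decide_eq (NPC.Poly.mod hr (c 2)) (c 0)))
            (NPC.Poly.decide_and (NPC.Poly.decide_eq (NPC.Poly.snd l1) (NPC.Poly.snd l2))
              (NPC.Poly.decide_not (NPC.Poly.decide_eq (NPC.Poly.fst l1) (NPC.Poly.fst l2))))))))
  exact h.congr fun a => decide_eq_decide.2 Iff.rfl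

theorem upoly_colN (hφ : Poly φ) : UPoly (fun a => colN (φ a)) :=
  UPoly.add (UPoly.mul (UPoly.const 6) (UPoly.length hφ)) (UPoly.const 2)

theorem poly_asc (hφ : Poly φ) : Poly (fun a => asc (colN (φ a))) :=
  NPC.Poly.map (F := fun _ i => i + 1) (upoly_colN hφ).range (NPC.Poly.succ (NPC.Poly.snd NPC.Poly.id))

theorem poly_desc (hφ : Poly φ) : Poly (fun a => desc (colN (φ a))) :=
  NPC.Poly.reverse (poly_asc hφ)

theorem poly_row (hφ : Poly φ) (hp : Poly p) :
    Poly (fun a => row (colN (φ a)) (upR (φ a)) (lowR (φ a)) (p a)) := by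
  have hN : Poly (fun a => colN (φ a)) := (upoly_colN hφ).toPoly
  have hN1 : Poly (fun a => colN (φ a) + 1) := NPC.Poly.succ hN
  have hasc := poly_asc hφ
  have hdesc := poly_desc hφ
  have f1 : Poly (fun a => (desc (colN (φ a))).filter (fun r => upR (φ a) (p a) r)) :=
    NPC.Poly.filter (p := fun a r => upR (φ a) (p a) r) hdesc
      (poly_up (hφ.comp (NPC.Poly.fst NPC.Poly.id)) (hp.comp (NPC.Poly.fst NPC.Poly.id)) (NPC.Poly.snd NPC.Poly.id))
  have f2 : Poly (fun a => if p a = 1 then [colN (φ a)] else []) :=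
    NPC.Poly.ite (p := fun a => p a = 1) (NPC.Poly.decide_eq hp (NPC.Poly.const 1))
      (NPC.Poly.cons hN (NPC.Poly.const [])) (NPC.Poly.const [])
  have f3 : Poly (fun a => (asc (colN (φ a))).filter (fun r => lowR (φ a) (p a) r)) :=
    NPC.Poly.filter (p := fun a r => lowR (φ a) (p a) r) hasc
      (poly_low (hφ.comp (NPC.Poly.fst NPC.Poly.id)) (hp.comp (NPC.Poly.fst NPC.Poly.id)) (NPC.Poly.snd NPC.Poly.id))
  have f4 : Poly (fun a => (asc (colN (φ a))).filter (fun r => lowR (φ a) r (p a))) :=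
    NPC.Poly.filter (p := fun a r => lowR (φ a) r (p a)) hasc
      (poly_low (hφ.comp (NPC.Poly.fst NPC.Poly.id)) (NPC.Poly.snd NPC.Poly.id) (hp.comp (NPC.Poly.fst NPC.Poly.id)))
  have f5 : Poly (fun a => if p a = colN (φ a) then [1] else []) :=
    NPC.Poly.ite (p := fun a => p a = colN (φ a)) (NPC.Poly.decide_eq hp hN)
      (NPC.Poly.const [1]) (NPC.Poly.const [])
  have f6 : Poly (fun a => (desc (colN (φ a))).filter (fun r => upR (φ a) r (p a))) :=
    NPC.Poly.filter (p := fun a r => upR (φ a) r (p a)) hdesc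
      (poly_up (hφ.comp (NPC.Poly.fst NPC.Poly.id)) (NPC.Poly.snd NPC.Poly.id) (hp.comp (NPC.Poly.fst NPC.Poly.id)))
  unfold row
  refine NPC.Poly.ite (p := fun a => p a = 0) (NPC.Poly.decide_eq hp (NPC.Poly.const 0))
    (NPC.Poly.append hdesc (NPC.Poly.cons hN1 (NPC.Poly.const []))) ?_
  refine NPC.Poly.ite (p := fun a => p a = colN (φ a) + 1) (NPC.Poly.decide_eq hp hN1)
    (NPC.Poly.cons (NPC.Poly.const 0) hasc) ?_
  exact NPC.Poly.cons (NPC.Poly.const 0) (NPC.Poly.append f1 (NPC.Poly.append f2 (NPC.Poly.append f3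
    (NPC.Poly.cons hN1 (NPC.Poly.append f4 (NPC.Poly.append f5 f6))))))

end

theorem poly_red : Poly red := by
  have hr : Poly (fun φ : List Cl => List.range (colN φ + 2)) :=
    (UPoly.add (upoly_colN NPC.Poly.id) (UPoly.const 2)).range
  exact NPC.Poly.map (F := fun φ v => row (colN φ) (upR φ) (lowR φ) v) hr
    (poly_row (NPC.Poly.fst NPC.Poly.id) (NPC.Poly.snd NPC.Poly.id))

end Pool.Agent.helper506_rot
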