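import Pool.Agent.helper506_rot.Sys
import Pool.Agent.NPC.Sat

/-!
# The reduction from 3-satisfiability

The columns are `1` (the left end of the reference edge), then six columns `2 + 6 j + o` (`o < 6`)
for every clause `j`, and `6 m + 2` (the right end of the reference edge).  In the block of a clause
the columns with `o = 0, 2, 4` are the literals, `o = 1` is forced to be above and `o = 5` is forced
to be below the reference edge, and `o = 3` is auxiliary.
-/

set_option autoImplicit false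

namespace Pool.Agent.helper506_rot

open Pool.Agent.NPC

/-- clauses -/
abbrev Cl : Type := Lit ℕ × Lit ℕ × Lit ℕ

/-- the literals of a clause -/
def lit3 (c : Cl) (k : ℕ) : Lit ℕ := if k = 0 then c.1 else if k = 1 then c.2.1 else c.2.2

/-- the literal `k` of the clause `j` -/
def litAt (φ : List Cl) (j k : ℕ) : Lit ℕ :=
  lit3 (φ.getD j ((true, 0), (true, 0), (true, 0))) k

/-- opposite literals -/
def Opp (l l' : Lit ℕ) : Prop := l.2 = l'.2 ∧ l.1 ≠ l'.1

instance (l l' : Lit ℕ) : Decidable (Opp l l') := by unfold Opp; infer_instance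

/-- the upper edges -/
def UpP (m p r : ℕ) : Prop :=
  (1 ≤ p ∧ p < r ∧ r < 6 * m + 2) ∧
    ((p = 1 ∧ (r - 2) % 6 = 1) ∨
      ((2 ≤ p ∧ (p - 2) / 6 = (r - 2) / 6) ∧
        (((p - 2) % 6 = 0 ∧ ((r - 2) % 6 = 1 ∨ (r - 2) % 6 = 3)) ∨
          ((p - 2) % 6 = 2 ∧ ((r - 2) % 6 = 3 ∨ (r - 2) % 6 = 4)))))

/-- the lower edges -/
def LowP (φ : List Cl) (p r : ℕ) : Prop :=
  (1 ≤ p ∧ p < r ∧ r < 6 * φ.length + 2) ∧
    ((p = 1 ∧ (r - 2) % 6 = 5) ∨
      ((2 ≤ p ∧ p % 2 = 0) ∧
        (((p - 2) / 6 = (r - 2) / 6 ∧ (r - 2) % 6 = 5) ∨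
          (((p - 2) / 6 < (r - 2) / 6 ∧ r % 2 = 0) ∧
            Opp (litAt φ ((p - 2) / 6) ((p - 2) % 6 / 2))
              (litAt φ ((r - 2) / 6) ((r - 2) % 6 / 2))))))

instance (m p r : ℕ) : Decidable (UpP m p r) := by unfold UpP; infer_instance

instance (φ : List Cl) (p r : ℕ) : Decidable (LowP φ p r) := by unfold LowP; infer_instance

/-- the upper edges -/
def upR (φ : List Cl) (p r : ℕ) : Bool := decide (UpP φ.length p r)

/-- the lower edges -/
def lowR (φ : List Cl) (p r : ℕ) : Bool := decide (LowP φ p r)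

/-- the number of columns -/
def colN (φ : List Cl) : ℕ := 6 * φ.length + 2

/-- the rotation system of a formula -/
def red (φ : List Cl) : List (List ℕ) := table (colN φ) (upR φ) (lowR φ)

theorem upR_iff {φ : List Cl} {p r : ℕ} : upR φ p r = true ↔ UpP φ.length p r := by
  unfold upR; exact decide_eq_true_iff

theorem lowR_iff {φ : List Cl} {p r : ℕ} : lowR φ p r = true ↔ LowP φ p r := by
  unfold lowR; exact decide_eq_true_iff

theorem sysR (φ : List Cl) : Sys (colN φ) (upR φ) (lowR φ) where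
  two_le := by unfold colN; omega
  up_lt p r h := by
    rw [upR_iff] at h
    exact h.1
  low_lt p r h := by
    rw [lowR_iff] at h
    exact h.1
  disj p r h := by
    rw [upR_iff] at h
    rw [← Bool.not_eq_true, lowR_iff]
    rintro ⟨-, h'⟩
    obtain ⟨h1, h2⟩ := h
    rcases h' with h' | ⟨h', h'' | ⟨h'', -⟩⟩ <;> omega

end Pool.Agent.helper506_rot
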