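import Pool.Agent.helper506_rot.Sound
import Pool.Agent.helper506_rot.Inst

/-!
# A realizable rotation system gives a satisfying assignment
-/

set_option autoImplicit false

namespace Pool.Agent.helper506_rot

open Pool.Agent.NPC GoodDrawing

variable {φ : List Cl} (D : GoodDrawing (graph (red φ)))
  (hD : ∀ v, D.LeaveClockwise v (rot (red φ) v))

/-- the literal `k` of the clause `j` is above the reference edge -/
def LA (D : GoodDrawing (graph (red φ))) (j k : ℕ) : Prop :=
  AboveD (N := colN φ) (up := upR φ) (low := lowR φ) D (2 + 6 * j + 2 * k)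

include hD in
/-- every clause has a literal above the reference edge -/
theorem clause_above {j : ℕ} (hj : j < φ.length) : LA D j 0 ∨ LA D j 1 ∨ LA D j 2 := by
  have hN : colN φ = 6 * φ.length + 2 := rfl
  have u1 : upR φ 1 (2 + 6 * j + 1) = true := by
    rw [upR_iff]; unfold UpP; omega
  have u2 : upR φ (2 + 6 * j) (2 + 6 * j + 3) = true := by
    rw [upR_iff]; unfold UpP; omega
  have u3 : upR φ (2 + 6 * j) (2 + 6 * j + 1) = true := by
    rw [upR_iff]; unfold UpP; omega
  have u4 : upR φ (2 + 6 * j + 2) (2 + 6 * j + 4) = true := by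
    rw [upR_iff]; unfold UpP; omega
  have u5 : upR φ (2 + 6 * j + 2) (2 + 6 * j + 3) = true := by
    rw [upR_iff]; unfold UpP; omega
  have S := sysR φ
  have a1 := forced_above S D hD u1
  rcases upper_rule S D hD (by omega) u2 u3 (by omega) a1 with h | h
  · exact Or.inl h
  · rcases upper_rule S D hD (by omega) u4 u5 (by omega) h with h' | h'
    · exact Or.inr (Or.inl h')
    · exact Or.inr (Or.inr h')

include hD in
/-- opposite literals of different clauses are not both above the reference edge -/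
theorem not_both {j k j' k' : ℕ} (hj' : j' < φ.length) (hjj : j < j') (hk : k < 3)
    (hk' : k' < 3) (ho : Opp (litAt φ j k) (litAt φ j' k')) : ¬ (LA D j k ∧ LA D j' k') := by
  rintro ⟨h, h'⟩
  have S := sysR φ
  have hN : colN φ = 6 * φ.length + 2 := rfl
  have e1 : (2 + 6 * j + 2 * k - 2) / 6 = j := by omega
  have e2 : (2 + 6 * j + 2 * k - 2) % 6 / 2 = k := by omega
  have e3 : (2 + 6 * j' + 2 * k' - 2) / 6 = j' := by omega
  have e4 : (2 + 6 * j' + 2 * k' - 2) % 6 / 2 = k' := by omega
  have l1 : lowR φ 1 (2 + 6 * j + 5) = true := by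
    rw [lowR_iff]
    exact ⟨by omega, Or.inl (by omega)⟩
  have l2 : lowR φ (2 + 6 * j + 2 * k) (2 + 6 * j + 5) = true := by
    rw [lowR_iff]
    exact ⟨by omega, Or.inr ⟨by omega, Or.inl (by omega)⟩⟩
  have l3 : lowR φ (2 + 6 * j + 2 * k) (2 + 6 * j' + 2 * k') = true := by
    rw [lowR_iff]
    refine ⟨by omega, Or.inr ⟨by omega, Or.inr ⟨by omega, ?_⟩⟩⟩
    rw [e1, e2, e3, e4]
    exact ho
  have b1 := forced_below S D hD l1
  have hb : ∀ i, 1 < i → i < colN φ → AboveD (N := colN φ) (up := upR φ) (low := lowR φ) D i →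
      ¬ BelowD (N := colN φ) (up := upR φ) (low := lowR φ) D i := by
    intro i h1 h2 h3 h4
    rcases above_or_below S D hD h1 h2 with h5 | h5
    · exact h5.2 h3
    · exact h5.1 h4
  rcases lower_rule S D hD (by omega) l3 l2 (by omega) b1 with h1 | h1
  · exact hb _ (by omega) (by omega) h h1
  · exact hb _ (by omega) (by omega) h' h1

/-- soundness of the reduction -/
theorem sat_of_realizable {φ : List Cl} (h : GoodRotationRealizable (red φ)) : SAT3 φ := by
  classical
  obtain ⟨-, D, hD⟩ := h
  let σ : ℕ → Bool := fun v => decide (∃ j k, j < φ.length ∧ k < 3 ∧ litAt φ j k = (true, v) ∧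
    LA D j k)
  refine ⟨σ, ?_⟩
  intro c hc
  obtain ⟨j, hj, rfl⟩ := List.getElem_of_mem hc
  have key : ∀ k, k < 3 → LA D j k → ∃ k', k' < 3 ∧ σ (litAt φ j k').2 = (litAt φ j k').1 := by
    intro k hk hA
    rcases hb : litAt φ j k with ⟨b, v⟩
    cases b
    · by_cases hσ : σ v = true
      · have hσ' := of_decide_eq_true hσ
        obtain ⟨j', k', hj', hk', hl, hA'⟩ := hσ'
        by_cases hjj : j' = j
        · subst hjj
          exact ⟨k', hk', by rw [hl]; exact hσ⟩
        · exfalso
          rcases Nat.lt_or_gt_of_ne hjj with h1 | h1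
          · exact not_both D hD hj h1 hk' hk (by rw [hl, hb]; simp [Opp]) ⟨hA', hA⟩
          · exact not_both D hD hj' h1 hk hk' (by rw [hl, hb]; simp [Opp]) ⟨hA, hA'⟩
      · exact ⟨k, hk, by rw [hb]; simpa using hσ⟩
    · refine ⟨k, hk, ?_⟩
      rw [hb]
      exact decide_eq_true ⟨j, k, hj, hk, hb, hA⟩
  have hex : ∃ k', k' < 3 ∧ σ (litAt φ j k').2 = (litAt φ j k').1 := by
    rcases clause_above D hD hj with h1 | h1 | h1
    · exact key 0 (by omega) h1
    · exact key 1 (by omega) h1
    · exact key 2 (by omega) h1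
  obtain ⟨k', hk', hs⟩ := hex
  have e : φ.getD j ((true, 0), (true, 0), (true, 0)) = φ[j] := List.getD_eq_getElem _ _ hj
  unfold litAt lit3 at hs
  rw [e] at hs
  interval_cases k'
  · exact Or.inl (by simpa using hs)
  · exact Or.inr (Or.inl (by simpa using hs))
  · exact Or.inr (Or.inr (by simpa using hs))

end Pool.Agent.helper506_rot
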