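import Pool.Agent.helper506_rot.Rea

/-!
# Realizable rotation systems with two poles: the rotations
-/

set_option autoImplicit false

namespace Pool.Agent.helper506_rot

open Arc

variable {N : ℕ} {up low : ℕ → ℕ → Bool} {ε : ℕ → ℤ}

theorem right_lt (G : Good N up low ε) {i w w' : ℕ} (h : Ed N up low i w)
    (h' : Ed N up low i w') (hρ : rhoF N up low i w' < rhoF N up low i w) :
    angN (mono G) i w' < angN (mono G) i w := by
  have hlt := G.sys.ed_lt h
  have hlt' := G.sys.ed_lt h'
  have hne : (i, w) ≠ (i, w') := by
    intro e
    rw [Prod.mk.injEq] at e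
    rw [e.2] at hρ
    exact lt_irrefl _ hρ
  have hN : (mono G).N = N := rfl
  unfold angN
  rw [hN, if_neg (by omega), if_neg (by omega), if_neg (by omega), if_neg (by omega),
    if_pos hlt'.2.1, if_neg (by omega), if_neg (by omega), if_neg (by omega), if_neg (by omega),
    if_pos hlt.2.1]
  apply Real.arctan_strictMono
  have hI : Init (mono G).τ (mono G).ρ i w i w' := Or.inr (Or.inr ⟨rfl, hρ⟩)
  have key := Mono.D_adj (M := mono G) (x := 2 * i + 1) h h' hne hlt'.2.1 hlt.2.1 hI
    (Or.inl rfl) (by omega) (by omega) (by omega) (by omega)
  rw [Mono.h_mid (by omega) (by omega), Mono.h_mid (by omega) (by omega)]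
  unfold Mono.D at key
  linarith

theorem left_lt (G : Good N up low ε) {i w w' : ℕ} (h : Ed N up low w i)
    (h' : Ed N up low w' i) (hne : w ≠ w')
    (hI : Init (tauF up low ε) (rhoF N up low) w' i w i) :
    angN (mono G) i w' < angN (mono G) i w := by
  have hlt := G.sys.ed_lt h
  have hlt' := G.sys.ed_lt h'
  have hne' : (w', i) ≠ (w, i) := by
    intro e
    rw [Prod.mk.injEq] at e
    exact hne e.1.symm
  have hN : (mono G).N = N := rfl
  unfold angN
  rw [hN, if_neg (by omega), if_neg (by omega), if_neg (by omega), if_neg (by omega),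
    if_neg (by omega), if_neg (by omega), if_neg (by omega), if_neg (by omega), if_neg (by omega),
    if_neg (by omega)]
  have key := Mono.D_adj (M := mono G) (x := 2 * i - 1) h' h hne' hlt'.2.1 hlt.2.1 hI
    (Or.inr rfl) (by omega) (by omega) (by omega) (by omega)
  have h3 : (mono G).h w i (2 * i - 1) < (mono G).h w' i (2 * i - 1) := by
    rw [Mono.h_mid (by omega) (by omega), Mono.h_mid (by omega) (by omega)]
    unfold Mono.D at key
    linarith
  have := Real.arctan_strictMono h3
  linarith

theorem ang_right (G : Good N up low ε) {i w : ℕ} (h : Ed N up low i w) :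
    -(Real.pi / 2) < angN (mono G) i w ∧ angN (mono G) i w < Real.pi / 2 := by
  have hlt := G.sys.ed_lt h
  have hN : (mono G).N = N := rfl
  unfold angN
  rw [hN, if_neg (by omega), if_neg (by omega), if_neg (by omega), if_neg (by omega),
    if_pos hlt.2.1]
  exact ⟨Real.neg_pi_div_two_lt_arctan _, Real.arctan_lt_pi_div_two _⟩

theorem ang_left (G : Good N up low ε) {i w : ℕ} (h : Ed N up low w i) :
    angN (mono G) i w < -(Real.pi / 2) := by
  have hlt := G.sys.ed_lt h
  have hN : (mono G).N = N := rfl
  unfold angN
  rw [hN, if_neg (by omega), if_neg (by omega), if_neg (by omega), if_neg (by omega),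
    if_neg (by omega)]
  have := Real.neg_pi_div_two_lt_arctan ((mono G).h w i (2 * i - 1))
  linarith

theorem ang_O (G : Good N up low ε) {i : ℕ} (h : 1 ≤ i) :
    angN (mono G) i 0 = Real.pi / 2 := by
  unfold angN
  rw [if_neg (by omega)]
  by_cases h1 : i = (mono G).N + 1
  · rw [if_pos h1, if_pos rfl]
  · rw [if_neg h1, if_pos rfl]

theorem ang_P (G : Good N up low ε) {i : ℕ} (h : i ≤ N) :
    angN (mono G) i (N + 1) = -(Real.pi / 2) := by
  have hN : (mono G).N = N := rfl
  unfold angN
  rw [hN]
  by_cases h0 : i = 0
  · rw [if_pos h0, if_pos rfl]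
  · rw [if_neg h0, if_neg (by omega), if_neg (by omega), if_pos rfl]

theorem ang_from_O (G : Good N up low ε) {w : ℕ} (h : w ≤ N) :
    angN (mono G) 0 w = -Real.arctan (1 / (2 * w)) := by
  have hN : (mono G).N = N := rfl
  unfold angN
  rw [hN, if_pos rfl, if_neg (by omega)]

theorem ang_from_P (G : Good N up low ε) {w : ℕ} (h : 1 ≤ w) :
    angN (mono G) (N + 1) w = Real.arctan (1 / (2 * w)) := by
  have hN : (mono G).N = N := rfl
  unfold angN
  rw [hN, if_neg (by omega), if_pos rfl, if_neg (by omega)]

theorem inv_lt {w w' : ℕ} (h : 1 ≤ w) (hw : w < w') :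
    Real.arctan (1 / (2 * (w' : ℝ))) < Real.arctan (1 / (2 * (w : ℝ))) := by
  apply Real.arctan_strictMono
  have h1 : (1 : ℝ) ≤ w := by exact_mod_cast h
  have h2 : (w : ℝ) < w' := by exact_mod_cast hw
  apply one_div_lt_one_div_of_lt <;> linarith

/-- the angles decrease along the rotation -/
theorem row_pairwise (G : Good N up low ε) {i : ℕ} (hi : i ≤ N + 1) :
    (row N up low i).Pairwise fun w w' => angN (mono G) i w' < angN (mono G) i w := by
  have h2 := G.sys.two_le
  have hpi := Real.pi_pos
  unfold row
  by_cases c1 : i = 0
  · rw [if_pos c1]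
    subst c1
    rw [List.pairwise_append]
    refine ⟨?_, List.pairwise_singleton _ _, ?_⟩
    · refine (desc_pairwise N).imp_of_mem ?_
      intro a b ha hb hab
      rw [mem_desc] at ha hb
      rw [ang_from_O G ha.2, ang_from_O G hb.2]
      have := inv_lt hb.1 hab
      linarith
    · intro a ha b hb
      rw [mem_desc] at ha
      rw [List.mem_singleton] at hb
      subst hb
      rw [ang_from_O G ha.2, ang_P G (by omega)]
      have := Real.arctan_lt_pi_div_two (1 / (2 * (a : ℝ)))
      linarith
  by_cases c2 : i = N + 1
  · rw [if_neg c1, if_pos c2]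
    subst c2
    rw [List.pairwise_cons]
    refine ⟨?_, ?_⟩
    · intro a ha
      rw [mem_asc] at ha
      rw [ang_from_P G ha.1, ang_O G (by omega)]
      exact Real.arctan_lt_pi_div_two _
    · refine (asc_pairwise N).imp_of_mem ?_
      intro a b ha hb hab
      rw [mem_asc] at ha hb
      rw [ang_from_P G ha.1, ang_from_P G hb.1]
      exact inv_lt ha.1 hab
  rw [if_neg c1, if_neg c2]
  have hO := ang_O G (i := i) (by omega)
  have hP := ang_P G (i := i) (by omega)
  -- the parts of the rotation
  have mA : ∀ a ∈ (desc N).filter (fun r => up i r), up i a = true := by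
    intro a ha
    rw [List.mem_filter] at ha
    exact ha.2
  have mB : ∀ a ∈ (if i = 1 then [N] else []), i = 1 ∧ a = N := by
    intro a ha
    split_ifs at ha with h
    · exact ⟨h, by simpa using ha⟩
    · simp at ha
  have mC : ∀ a ∈ (asc N).filter (fun r => low i r), low i a = true := by
    intro a ha
    rw [List.mem_filter] at ha
    exact ha.2
  have mD : ∀ a ∈ (asc N).filter (fun p => low p i), low a i = true := by
    intro a ha
    rw [List.mem_filter] at ha
    exact ha.2
  have mE : ∀ a ∈ (if i = N then [1] else []), i = N ∧ a = 1 := by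
    intro a ha
    split_ifs at ha with h
    · exact ⟨h, by simpa using ha⟩
    · simp at ha
  have mF : ∀ a ∈ (desc N).filter (fun p => up p i), up a i = true := by
    intro a ha
    rw [List.mem_filter] at ha
    exact ha.2
  have eA : ∀ a, up i a = true → Ed N up low i a := fun a h => Or.inl h
  have eB : ∀ a, i = 1 ∧ a = N → Ed N up low i a := fun a h => Or.inr (Or.inr h)
  have eC : ∀ a, low i a = true → Ed N up low i a := fun a h => Or.inr (Or.inl h)
  have eD : ∀ a, low a i = true → Ed N up low a i := fun a h => Or.inr (Or.inl h)
  have eE : ∀ a, i = N ∧ a = 1 → Ed N up low a i := fun a h => Or.inr (Or.inr ⟨h.2, h.1⟩)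
  have eF : ∀ a, up a i = true → Ed N up low a i := fun a h => Or.inl h
  rw [List.pairwise_cons, List.pairwise_append, List.pairwise_append, List.pairwise_append,
    List.pairwise_cons, List.pairwise_append, List.pairwise_append]
  refine ⟨?_, ?_, ⟨?_, ⟨?_, ⟨?_, ?_, ⟨?_, ?_, ?_⟩, ?_⟩, ?_⟩, ?_⟩, ?_⟩
  · -- the pole `O` first
    intro a ha
    rw [hO]
    have lt1 : ∀ a, Ed N up low i a → angN (mono G) i a < Real.pi / 2 :=
      fun a h => (ang_right G h).2
    have lt2 : ∀ a, Ed N up low a i → angN (mono G) i a < Real.pi / 2 := fun a h => by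
      have := ang_left G h; linarith
    simp only [List.mem_append, List.mem_cons] at ha
    rcases ha with ha | ha | ha | ha | ha | ha | ha
    · exact lt1 a (eA a (mA a ha))
    · exact lt1 a (eB a (mB a ha))
    · exact lt1 a (eC a (mC a ha))
    · rw [ha, hP]; linarith
    · exact lt2 a (eD a (mD a ha))
    · exact lt2 a (eE a (mE a ha))
    · exact lt2 a (eF a (mF a ha))
  · -- upper edges to the right
    refine ((desc_pairwise N).filter _).imp_of_mem ?_
    intro a b ha hb hab
    have ha' := mA a ha
    have hb' := mA b hb
    refine right_lt G (eA a ha') (eA b hb') ?_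
    rw [rho_up G ha', rho_up G hb', quot_lt G]
    exact hab
  · split_ifs <;> simp
  · -- lower edges to the right
    refine ((asc_pairwise N).filter _).imp_of_mem ?_
    intro a b ha hb hab
    have ha' := mC a ha
    have hb' := mC b hb
    refine right_lt G (eC a ha') (eC b hb') ?_
    rw [rho_low ha', rho_low hb', neg_lt_neg_iff, quot_lt G]
    exact hab
  · -- the pole `P` before the left edges
    intro a ha
    rw [hP]
    simp only [List.mem_append] at ha
    rcases ha with ha | ha | ha
    · exact ang_left G (eD a (mD a ha))
    · exact ang_left G (eE a (mE a ha))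
    · exact ang_left G (eF a (mF a ha))
  · -- lower edges to the left
    refine ((asc_pairwise N).filter _).imp_of_mem ?_
    intro a b ha hb hab
    have ha' := mD a ha
    have hb' := mD b hb
    have hlt := G.sys.low_lt a i ha'
    have hlt' := G.sys.low_lt b i hb'
    refine left_lt G (eD a ha') (eD b hb') (by omega) (Or.inr (Or.inl ⟨hab, ?_⟩))
    exact tau_low ha' (by omega)
  · split_ifs <;> simp
  · -- upper edges to the left
    refine ((desc_pairwise N).filter _).imp_of_mem ?_
    intro a b ha hb hab
    have ha' := mF a ha
    have hb' := mF b hb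
    have hlt := G.sys.up_lt a i ha'
    have hlt' := G.sys.up_lt b i hb'
    refine left_lt G (eF a ha') (eF b hb') (by omega) (Or.inl ⟨hab, ?_⟩)
    rcases kinds G (eF b hb') with ⟨-, d2, d3⟩ | ⟨d1, -⟩ | ⟨-, d2, d3⟩
    · exact d3 a (by omega)
    · have := G.sys.disj b i hb'
      rw [this] at d1
      exact absurd d1 (by simp)
    · rw [d3 a (by omega)]
      exact G.huu' b a i hb' ha' hab d2.1 d2.2
  · -- the reference edge and upper edges to the left
    intro a ha b hb
    have ha' := mE a ha
    have hb' := mF b hb
    have := G.sys.up_lt b i hb'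
    omega
  · -- lower edges and other edges to the left
    intro a ha b hb
    have ha' := mD a ha
    have hlt := G.sys.low_lt a i ha'
    rw [List.mem_append] at hb
    rcases hb with hb | hb
    · have := mE b hb
      omega
    · have hb' := mF b hb
      have hlt' := G.sys.up_lt b i hb'
      have hne : a ≠ b := by
        rintro rfl
        rw [G.sys.disj a i hb'] at ha'
        exact absurd ha' (by simp)
      refine left_lt G (eD a ha') (eF b hb') hne ?_
      rcases Nat.lt_or_gt_of_ne hne with hc | hc
      · exact Or.inr (Or.inl ⟨hc, tau_low ha' (by omega)⟩)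
      · refine Or.inl ⟨hc, ?_⟩
        show tauF up low ε b i a = 1
        rcases kinds G (eF b hb') with ⟨-, d2, d3⟩ | ⟨d1, -⟩ | ⟨-, d2, d3⟩
        · exact d3 a (by omega)
        · have := G.sys.disj b i hb'
          rw [this] at d1
          exact absurd d1 (by simp)
        · rw [d3 a (by omega)]
          exact G.hul b a i hb' ha' hc d2.1 d2.2
  · -- lower edges to the right, and everything after them
    intro a ha b hb
    have ha' := eC a (mC a ha)
    have h3 := ang_right G ha'
    rw [List.mem_cons] at hb
    rcases hb with hb | hb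
    · rw [hb, hP]; linarith [h3.1]
    · simp only [List.mem_append] at hb
      rcases hb with hb | hb | hb
      · have := ang_left G (eD b (mD b hb)); linarith [h3.1]
      · have := ang_left G (eE b (mE b hb)); linarith [h3.1]
      · have := ang_left G (eF b (mF b hb)); linarith [h3.1]
  · -- the reference edge to the right, and everything after it
    intro a ha b hb
    have ha1 := mB a ha
    have ha' := eB a ha1
    have h3 := ang_right G ha'
    rw [List.mem_append, List.mem_cons] at hb
    rcases hb with hb | hb | hb
    · have hb' := mC b hb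
      refine right_lt G ha' (eC b hb') ?_
      have := G.sys.low_lt i b hb'
      rw [rho_low hb', ha1.1, ha1.2, rho_ref G]
      have := quot_pos G (r := b) (by omega)
      linarith
    · rw [hb, hP]; linarith [h3.1]
    · simp only [List.mem_append] at hb
      rcases hb with hb | hb | hb
      · have := ang_left G (eD b (mD b hb)); linarith [h3.1]
      · have := ang_left G (eE b (mE b hb)); linarith [h3.1]
      · have := ang_left G (eF b (mF b hb)); linarith [h3.1]
  · -- upper edges to the right, and everything after them
    intro a ha b hb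
    have ha1 := mA a ha
    have ha' := eA a ha1
    have h3 := ang_right G ha'
    have hlt := G.sys.up_lt i a ha1
    have q := quot_pos G (r := a) (by omega)
    rw [List.mem_append, List.mem_append, List.mem_cons] at hb
    rcases hb with hb | hb | hb | hb
    · have hb' := mB b hb
      refine right_lt G ha' (eB b hb') ?_
      rw [rho_up G ha1, hb'.1, hb'.2, rho_ref G]
      exact q
    · have hb' := mC b hb
      refine right_lt G ha' (eC b hb') ?_
      have := G.sys.low_lt i b hb'
      rw [rho_low hb', rho_up G ha1]
      have := quot_pos G (r := b) (by omega)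
      linarith
    · rw [hb, hP]; linarith [h3.1]
    · simp only [List.mem_append] at hb
      rcases hb with hb | hb | hb
      · have := ang_left G (eD b (mD b hb)); linarith [h3.1]
      · have := ang_left G (eE b (mE b hb)); linarith [h3.1]
      · have := ang_left G (eF b (mF b hb)); linarith [h3.1]

/-- the numbering of the vertices -/
def cols (N : ℕ) (up low : ℕ → ℕ → Bool) : Cols N (Fin (table N up low).length) where
  num v := v
  col := vert N up low
  num_le := fin_le
  col_num := vert_num
  num_col _ h := vert_val h

/-- the table is realizable -/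
theorem realizable_of (G : Good N up low ε) : GoodRotationRealizable (table N up low) := by
  have hG : ∀ u v, (graph (table N up low)).Adj u v ↔
      AdjN (mono G) ((cols N up low).num u) ((cols N up low).num v) := fun u v =>
    graph_adj G.sys u v
  refine ⟨?_, (family (mono G) (cols N up low) hG).drawing, ?_⟩
  · intro v hv
    have hv' : v ≤ N + 1 := by rw [table_length] at hv; omega
    rw [table_get]
    refine ⟨?_, ?_, ?_⟩
    · refine (row_pairwise G hv').imp ?_
      intro a b h e
      rw [e] at h
      exact lt_irrefl _ h
    · intro h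
      rw [mem_row G.sys hv'] at h
      exact h.1 rfl
    · intro w hw
      have h3 := (mem_row G.sys hv').1 hw
      refine ⟨by rw [table_length]; omega, ?_⟩
      rw [table_get]
      exact mem_row_symm G.sys hv' hw
  · intro v
    have hv := fin_le v
    rw [rot_eq G.sys]
    refine leave (mono G) (cols N up low) hG v _ ?_ ?_
    · intro w hw
      rw [List.mem_map] at hw
      obtain ⟨a, ha, rfl⟩ := hw
      rw [mem_row G.sys hv] at ha
      rw [graph_adj G.sys, vert_val ha.2.1]
      exact ⟨ha.1, ha.2.2⟩
    · rw [List.pairwise_map]
      refine (row_pairwise G hv).imp_of_mem ?_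
      intro a b ha hb h
      rw [mem_row G.sys hv] at ha hb
      show angN (mono G) v (vert N up low b : ℕ) < angN (mono G) v (vert N up low a : ℕ)
      rw [vert_val ha.2.1, vert_val hb.2.1]
      exact h

end Pool.Agent.helper506_rot
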