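import Pool.Agent.helper506_rot.Inst
import Pool.Agent.helper506_rot.Rea2

/-!
# A satisfiable formula gives a realizable rotation system
-/

set_option autoImplicit false

namespace Pool.Agent.helper506_rot

open Pool.Agent.NPC

/-- the literal holds -/
def Holds (σ : ℕ → Bool) (l : Lit ℕ) : Prop := σ l.2 = l.1

/-- the columns above the reference edge -/
def Above (φ : List Cl) (σ : ℕ → Bool) (k : ℕ) : Prop :=
  (2 ≤ k ∧ k < 6 * φ.length + 2) ∧ ((k - 2) % 6 = 1 ∨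
    (k % 2 = 0 ∧ Holds σ (litAt φ ((k - 2) / 6) ((k - 2) % 6 / 2))) ∨
    ((k - 2) % 6 = 3 ∧ (Holds σ (litAt φ ((k - 2) / 6) 1) ∨ Holds σ (litAt φ ((k - 2) / 6) 2))))

open Classical in
/-- the sides of the columns -/
noncomputable def eps (φ : List Cl) (σ : ℕ → Bool) (k : ℕ) : ℤ := if Above φ σ k then -1 else 1

theorem eps_one {φ : List Cl} {σ : ℕ → Bool} {k : ℕ} : eps φ σ k = 1 ↔ ¬ Above φ σ k := by
  unfold eps; split_ifs with h <;> simp [h]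

theorem eps_neg {φ : List Cl} {σ : ℕ → Bool} {k : ℕ} : eps φ σ k = -1 ↔ Above φ σ k := by
  unfold eps; split_ifs with h <;> simp [h]

/-- every clause has a true literal -/
theorem clause_true {φ : List Cl} {σ : ℕ → Bool}
    (h : ∀ c ∈ φ, σ c.1.2 = c.1.1 ∨ σ c.2.1.2 = c.2.1.1 ∨ σ c.2.2.2 = c.2.2.1) {j : ℕ}
    (hj : j < φ.length) : Holds σ (litAt φ j 0) ∨ Holds σ (litAt φ j 1) ∨
      Holds σ (litAt φ j 2) := by
  unfold litAt Holds lit3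
  rw [List.getD_eq_getElem _ _ hj]
  exact h _ (List.getElem_mem hj)

theorem good_of_sat {φ : List Cl} {σ : ℕ → Bool}
    (h : ∀ c ∈ φ, σ c.1.2 = c.1.1 ∨ σ c.2.1.2 = c.2.1.1 ∨ σ c.2.2.2 = c.2.2.1) :
    Good (colN φ) (upR φ) (lowR φ) (eps φ σ) where
  sys := sysR φ
  unit k := by unfold eps; split_ifs <;> simp
  one := by
    rw [eps_one]
    rintro ⟨⟨h1, -⟩, -⟩
    omega
  last := by
    rw [eps_one]
    unfold colN
    rintro ⟨⟨-, h1⟩, -⟩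
    omega
  hlow p r hl := by
    rw [lowR_iff] at hl
    rw [eps_one, eps_one]
    obtain ⟨⟨h1, h2, h3⟩, hl⟩ := hl
    rcases hl with ⟨hp, -⟩ | ⟨⟨hp, hp'⟩, ⟨hb, ho⟩ | ⟨⟨hb, he⟩, ho⟩⟩
    · left
      rintro ⟨⟨h4, -⟩, -⟩
      omega
    · right
      rintro ⟨-, h4 | ⟨h4, -⟩ | ⟨h4, -⟩⟩ <;> omega
    · by_contra hcon
      push Not at hcon
      obtain ⟨⟨-, hA⟩, ⟨-, hB⟩⟩ := hcon
      rcases hA with hA | ⟨-, hA⟩ | ⟨hA, -⟩
      · omega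
      · rcases hB with hB | ⟨-, hB⟩ | ⟨hB, -⟩
        · omega
        · unfold Holds at hA hB
          apply ho.2
          rw [← hA, ← hB, ho.1]
        · omega
      · omega
  huu p r r' hu hu' hlt hp hr' := by
    rw [upR_iff] at hu hu'
    rw [eps_one] at hp hr' ⊢
    obtain ⟨⟨h1, h2, h3⟩, hu⟩ := hu
    obtain ⟨⟨h1', h2', h3'⟩, hu'⟩ := hu'
    have hcl := clause_true h (j := (p - 2) / 6)
    have ab : ∀ k, 2 ≤ k → k < 6 * φ.length + 2 → (k - 2) % 6 = 1 → Above φ σ k :=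
      fun k a b c => ⟨⟨a, b⟩, Or.inl c⟩
    rcases hu' with ⟨hp1, ho⟩ | ⟨⟨hp2, hb⟩, ⟨hpo, ho⟩ | ⟨hpo, ho⟩⟩
    · exact absurd (ab r' (by omega) h3' ho) hr'
    · rcases ho with ho | ho
      · exact absurd (ab r' (by omega) h3' ho) hr'
      · exfalso
        rcases hcl (by omega) with hc | hc | hc
        · refine hp ⟨⟨hp2, by omega⟩, Or.inr (Or.inl ⟨by omega, ?_⟩)⟩
          rw [hpo]; exact hc
        · refine hr' ⟨⟨by omega, h3'⟩, Or.inr (Or.inr ⟨ho, Or.inl ?_⟩)⟩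
          rw [← hb]; exact hc
        · refine hr' ⟨⟨by omega, h3'⟩, Or.inr (Or.inr ⟨ho, Or.inr ?_⟩)⟩
          rw [← hb]; exact hc
    · have hr : (r - 2) % 6 = 3 ∧ (r' - 2) % 6 = 4 := by omega
      rintro ⟨-, hA | ⟨hA, -⟩ | ⟨-, hA | hA⟩⟩
      · omega
      · omega
      · refine hp ⟨⟨hp2, by omega⟩, Or.inr (Or.inl ⟨by omega, ?_⟩)⟩
        rw [hpo, show (p - 2) / 6 = (r - 2) / 6 by omega]
        exact hA
      · refine hr' ⟨⟨by omega, h3'⟩, Or.inr (Or.inl ⟨by omega, ?_⟩)⟩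
        rw [hr.2, show (r' - 2) / 6 = (r - 2) / 6 by omega]
        exact hA
  huu' p p' r hu hu' hlt hp hr := by
    rw [upR_iff] at hu hu'
    rw [eps_one] at hp hr ⊢
    obtain ⟨⟨h1, h2, h3⟩, hu⟩ := hu
    obtain ⟨⟨h1', h2', h3'⟩, hu'⟩ := hu'
    have hcl := clause_true h (j := (p - 2) / 6)
    exfalso
    by_cases ho : (r - 2) % 6 = 1
    · exact hr ⟨⟨by omega, h3⟩, Or.inl ho⟩
    · have hb : 2 ≤ p ∧ (p - 2) / 6 = (r - 2) / 6 ∧ (p - 2) % 6 = 0 ∧ (r - 2) % 6 = 3 := by omega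
      rcases hcl (by omega) with hc | hc | hc
      · refine hp ⟨⟨by omega, by omega⟩, Or.inr (Or.inl ⟨by omega, ?_⟩)⟩
        rw [hb.2.2.1]; exact hc
      · refine hr ⟨⟨by omega, h3⟩, Or.inr (Or.inr ⟨hb.2.2.2, Or.inl ?_⟩)⟩
        rw [← hb.2.1]; exact hc
      · refine hr ⟨⟨by omega, h3⟩, Or.inr (Or.inr ⟨hb.2.2.2, Or.inr ?_⟩)⟩
        rw [← hb.2.1]; exact hc
  hlu p r r' hl hu hlt hp hr' := by
    rw [lowR_iff] at hl
    rw [upR_iff] at hu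
    rw [eps_one] at hr' ⊢
    obtain ⟨⟨h1, h2, h3⟩, hl⟩ := hl
    obtain ⟨⟨h1', h2', h3'⟩, hu⟩ := hu
    exfalso
    by_cases ho : (r' - 2) % 6 = 1
    · exact hr' ⟨⟨by omega, h3'⟩, Or.inl ho⟩
    · have hl' : (p = 1 ∧ (r - 2) % 6 = 5) ∨ ((2 ≤ p ∧ p % 2 = 0) ∧
          (((p - 2) / 6 = (r - 2) / 6 ∧ (r - 2) % 6 = 5) ∨ (p - 2) / 6 < (r - 2) / 6)) := by
        rcases hl with hl | ⟨hl, hl' | ⟨hl', -⟩⟩
        · exact Or.inl hl
        · exact Or.inr ⟨hl, Or.inl hl'⟩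
        · exact Or.inr ⟨hl, Or.inr hl'.1⟩
      omega
  hul p p' r hu hl hlt hp hr := by
    rw [lowR_iff] at hl
    rw [upR_iff] at hu
    obtain ⟨⟨h1, h2, h3⟩, hu⟩ := hu
    obtain ⟨⟨h1', h2', h3'⟩, hl⟩ := hl
    exfalso
    have hl' : (p' = 1 ∧ (r - 2) % 6 = 5) ∨ ((2 ≤ p' ∧ p' % 2 = 0) ∧
        (((p' - 2) / 6 = (r - 2) / 6 ∧ (r - 2) % 6 = 5) ∨
          ((p' - 2) / 6 < (r - 2) / 6 ∧ r % 2 = 0))) := by
      rcases hl with hl | ⟨hl, hl' | ⟨hl', -⟩⟩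
      · exact Or.inl hl
      · exact Or.inr ⟨hl, Or.inl hl'⟩
      · exact Or.inr ⟨hl, Or.inr hl'⟩
    omega
  ha r hu := by
    rw [upR_iff] at hu
    rw [eps_neg]
    obtain ⟨⟨h1, h2, h3⟩, hu⟩ := hu
    exact ⟨⟨by omega, h3⟩, Or.inl (by omega)⟩
  ha' r hl := by
    rw [lowR_iff] at hl
    rw [eps_one]
    obtain ⟨⟨h1, h2, h3⟩, hl⟩ := hl
    have ho : (r - 2) % 6 = 5 := by
      rcases hl with hl | ⟨hl, -⟩
      · exact hl.2
      · omega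
    rintro ⟨-, hA | ⟨hA, -⟩ | ⟨hA, -⟩⟩ <;> omega

/-- completeness of the reduction -/
theorem realizable_of_sat {φ : List Cl} (h : SAT3 φ) : GoodRotationRealizable (red φ) := by
  obtain ⟨σ, hσ⟩ := h
  exact realizable_of (good_of_sat hσ)

end Pool.Agent.helper506_rot
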