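import Pool.Agent.NPC.Defs

/-!
# Good drawings of graphs, rotation systems, and the decision problem

The plane is the complex plane `ℂ`.  The definitions follow the statement of the problem word for
word.
-/

set_option autoImplicit false

namespace Pool.Agent.helper506_rot

open Complex Set Filter Topology

/-- The arcs `a` and `b` cross properly at `z`: in suitable local coordinates around `z` (a
homeomorphism `φ` between a neighbourhood of `z` and an open subset of `ℝ × ℝ`, with `φ z = 0`),
the arc `a` is the first coordinate axis and the arc `b` is the second coordinate axis. -/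
def IsProperCrossing (a b : Set ℂ) (z : ℂ) : Prop :=
  ∃ φ : OpenPartialHomeomorph ℂ (ℝ × ℝ), z ∈ φ.source ∧ φ z = (0, 0) ∧
    ∀ w ∈ φ.source, (w ∈ a ↔ (φ w).2 = 0) ∧ (w ∈ b ↔ (φ w).1 = 0)

/-- A good drawing of the graph `G` in the plane. -/
structure GoodDrawing {V : Type} (G : SimpleGraph V) where
  /-- the point of a vertex -/
  pt : V → ℂ
  /-- the arc of the edge `uv`, parametrised from `u` to `v` (of no importance if `u` and `v` are
  not adjacent) -/
  arc : ∀ u v : V, Path (pt u) (pt v)
  /-- vertices are mapped to distinct points -/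
  pt_inj : Function.Injective pt
  /-- the arcs of edges are Jordan arcs -/
  arc_inj : ∀ u v, G.Adj u v → Function.Injective (arc u v)
  /-- the arc of `vu` is the arc of `uv`, run through backwards -/
  arc_symm : ∀ u v, G.Adj u v → arc v u = (arc u v).symm
  /-- no arc passes through a vertex other than its own endpoints -/
  avoid : ∀ u v, G.Adj u v → ∀ w, pt w ∈ range (arc u v) → w = u ∨ w = v
  /-- two arcs share at most one point -/
  common : ∀ u v u' v', G.Adj u v → G.Adj u' v' → s(u, v) ≠ s(u', v') →
    (range (arc u v) ∩ range (arc u' v')).Subsingleton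
  /-- a common point of two arcs which is not a vertex is a proper crossing -/
  proper : ∀ u v u' v', G.Adj u v → G.Adj u' v' → s(u, v) ≠ s(u', v') →
    ∀ z ∈ range (arc u v) ∩ range (arc u' v'), z ∉ range pt →
      IsProperCrossing (range (arc u v)) (range (arc u' v')) z
  /-- no three arcs pass through a common crossing -/
  no_triple : ∀ u v u' v' u'' v'', G.Adj u v → G.Adj u' v' → G.Adj u'' v'' →
    s(u, v) ≠ s(u', v') → s(u, v) ≠ s(u'', v'') → s(u', v') ≠ s(u'', v'') →
    ∀ z ∈ range (arc u v) ∩ range (arc u' v') ∩ range (arc u'' v''), z ∈ range pt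

/-- The first point at which the arc `γ` reaches the circle of radius `r` around its starting
point `x`. -/
noncomputable def exitPoint {x y : ℂ} (γ : Path x y) (r : ℝ) : ℂ :=
  γ.extend (sInf {t : ℝ | 0 ≤ t ∧ t ≤ 1 ∧ r ≤ ‖γ.extend t - x‖})

/-- The arcs from `v` to the vertices in the list `l` leave `v` in this clockwise cyclic order:
the points where they leave a small disc around `v` lie in this clockwise order on the
circle, that is, at angles `θ 0 > θ 1 > θ 2 > …` (all greater than `θ 0 - 2 π`). -/
def GoodDrawing.LeaveClockwise {V : Type} {G : SimpleGraph V} (D : GoodDrawing G) (v : V)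
    (l : List V) : Prop :=
  ∀ᶠ r : ℝ in 𝓝[>] 0, ∃ θ : ℕ → ℝ,
    (∀ i j : ℕ, i < j → j < l.length → θ j < θ i ∧ θ i < θ j + 2 * Real.pi) ∧
    ∀ (i : ℕ) (hi : i < l.length), exitPoint (D.arc v l[i]) r = D.pt v + r * exp (θ i * I)

/-- An input: the vertices are `0, …, n - 1` and the `v`-th list is `π(v)`, the list of
the neighbours of `v` in (clockwise) cyclic order.  It is a rotation system of a finite simple
graph if no list contains its own vertex or has a repetition, and `w` is in the list of `v`
if and only if `v` is in the list of `w`. -/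
def IsRotationSystem (R : List (List ℕ)) : Prop :=
  ∀ (v : ℕ) (hv : v < R.length), R[v].Nodup ∧ v ∉ R[v] ∧
    ∀ w ∈ R[v], ∃ hw : w < R.length, v ∈ R[w]

/-- The graph of a rotation system. -/
def graph (R : List (List ℕ)) : SimpleGraph (Fin R.length) where
  Adj u v := u ≠ v ∧ (v : ℕ) ∈ R[(u : ℕ)] ∧ (u : ℕ) ∈ R[(v : ℕ)]
  symm := ⟨fun _ _ h => ⟨h.1.symm, h.2.2, h.2.1⟩⟩
  loopless := ⟨fun _ h => h.1 rfl⟩

/-- `π(v)`, as a list of vertices. -/
def rot (R : List (List ℕ)) (v : Fin R.length) : List (Fin R.length) :=
  R[(v : ℕ)].filterMap fun w => if h : w < R.length then some ⟨w, h⟩ else none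

/-- **Good rotation realizability.**  The input `R` is a rotation system of a finite simple graph,
and this graph has a good drawing in which the edges leave every vertex `v` in the clockwise
cyclic order `π(v)`. -/
def GoodRotationRealizable (R : List (List ℕ)) : Prop :=
  IsRotationSystem R ∧ ∃ D : GoodDrawing (graph R), ∀ v, D.LeaveClockwise v (rot R v)

end Pool.Agent.helper506_rot
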