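import Pool.Agent.helper506_rot.Defs

/-!
# Good drawings from families of arcs
-/

set_option autoImplicit false

namespace Pool.Agent.helper506_rot

open Complex Set Filter Topology

/-- the path with a given parametrisation -/
noncomputable def mkPath (f : ℝ → ℂ) (hf : Continuous f) {x y : ℂ} (h0 : f 0 = x) (h1 : f 1 = y) :
    Path x y where
  toFun t := f t
  continuous_toFun := hf.comp continuous_subtype_val
  source' := by simpa using h0
  target' := by simpa using h1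

theorem mkPath_range (f : ℝ → ℂ) (hf : Continuous f) {x y : ℂ} (h0 : f 0 = x) (h1 : f 1 = y) :
    range (mkPath f hf h0 h1) = f '' Icc (0 : ℝ) 1 := by
  ext z
  constructor
  · rintro ⟨t, rfl⟩
    exact ⟨t, t.2, rfl⟩
  · rintro ⟨t, ht, rfl⟩
    exact ⟨⟨t, ht⟩, rfl⟩

theorem mkPath_extend (f : ℝ → ℂ) (hf : Continuous f) {x y : ℂ} (h0 : f 0 = x) (h1 : f 1 = y)
    {t : ℝ} (ht : t ∈ Icc (0 : ℝ) 1) : (mkPath f hf h0 h1).extend t = f t := by
  rw [Path.extend_apply _ ht]; rfl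

/-- a family of arcs which form a good drawing -/
structure ArcFamily {V : Type} (G : SimpleGraph V) (κ : Type) where
  pt : V → ℂ
  src : κ → V
  tgt : κ → V
  f : κ → ℝ → ℂ
  cont : ∀ k, Continuous (f k)
  f0 : ∀ k, f k 0 = pt (src k)
  f1 : ∀ k, f k 1 = pt (tgt k)
  finj : ∀ k s t, s ∈ Icc (0 : ℝ) 1 → t ∈ Icc (0 : ℝ) 1 → f k s = f k t → s = t
  adj : ∀ u v, G.Adj u v ↔ ∃ k, (src k = u ∧ tgt k = v) ∨ (src k = v ∧ tgt k = u)
  edge_inj : ∀ k k', s(src k, tgt k) = s(src k', tgt k') → k = k'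
  pt_inj : Function.Injective pt
  avoid : ∀ k w, pt w ∈ f k '' Icc (0 : ℝ) 1 → w = src k ∨ w = tgt k
  common : ∀ k k', k ≠ k' → (f k '' Icc (0 : ℝ) 1 ∩ f k' '' Icc (0 : ℝ) 1).Subsingleton
  proper : ∀ k k', k ≠ k' → ∀ z ∈ f k '' Icc (0 : ℝ) 1 ∩ f k' '' Icc (0 : ℝ) 1, z ∉ range pt →
    IsProperCrossing (f k '' Icc (0 : ℝ) 1) (f k' '' Icc (0 : ℝ) 1) z
  triple : ∀ k k' k'', k ≠ k' → k ≠ k'' → k' ≠ k'' →
    ∀ z ∈ f k '' Icc (0 : ℝ) 1 ∩ f k' '' Icc (0 : ℝ) 1 ∩ f k'' '' Icc (0 : ℝ) 1, z ∈ range pt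

namespace ArcFamily

variable {V : Type} {G : SimpleGraph V} {κ : Type} (A : ArcFamily G κ)

theorem ne_src_tgt (k : κ) : A.src k ≠ A.tgt k :=
  ((A.adj _ _).2 ⟨k, Or.inl ⟨rfl, rfl⟩⟩).ne

open Classical in
/-- the arc of a pair of vertices -/
noncomputable def arc (u v : V) : Path (A.pt u) (A.pt v) :=
  if h : ∃ k, A.src k = u ∧ A.tgt k = v then
    mkPath (A.f h.choose) (A.cont _) (by rw [A.f0, h.choose_spec.1])
      (by rw [A.f1, h.choose_spec.2])
  else if h : ∃ k, A.src k = v ∧ A.tgt k = u then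
    (mkPath (A.f h.choose) (A.cont _) (x := A.pt v) (y := A.pt u) (by rw [A.f0, h.choose_spec.1])
      (by rw [A.f1, h.choose_spec.2])).symm
  else mkPath (fun t => A.pt u + t * (A.pt v - A.pt u)) (by fun_prop) (by simp) (by simp)

theorem arc_src {k : κ} : A.arc (A.src k) (A.tgt k) =
    mkPath (A.f k) (A.cont k) (A.f0 k) (A.f1 k) := by
  have h : ∃ k', A.src k' = A.src k ∧ A.tgt k' = A.tgt k := ⟨k, rfl, rfl⟩
  unfold arc
  rw [dif_pos h]
  have hk : h.choose = k := A.edge_inj _ _ (by rw [h.choose_spec.1, h.choose_spec.2])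
  ext t
  show A.f h.choose t = A.f k t
  rw [hk]

theorem arc_tgt {k : κ} : A.arc (A.tgt k) (A.src k) =
    (mkPath (A.f k) (A.cont k) (A.f0 k) (A.f1 k)).symm := by
  have h : ∃ k', A.src k' = A.src k ∧ A.tgt k' = A.tgt k := ⟨k, rfl, rfl⟩
  have h' : ¬ ∃ k', A.src k' = A.tgt k ∧ A.tgt k' = A.src k := by
    rintro ⟨k', h1, h2⟩
    have : k' = k := A.edge_inj _ _ (by rw [h1, h2, Sym2.eq_swap])
    subst this
    exact A.ne_src_tgt k' h1
  unfold arc
  rw [dif_neg h', dif_pos h]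
  have hk : h.choose = k := A.edge_inj _ _ (by rw [h.choose_spec.1, h.choose_spec.2])
  ext t
  simp only [Path.symm_apply]
  show A.f h.choose _ = A.f k _
  rw [hk]

theorem arc_cases {u v : V} (h : G.Adj u v) : ∃ k, s(A.src k, A.tgt k) = s(u, v) ∧
    range (A.arc u v) = A.f k '' Icc (0 : ℝ) 1 ∧ Function.Injective (A.arc u v) ∧
    A.arc v u = (A.arc u v).symm := by
  have inj : ∀ k, Function.Injective (mkPath (A.f k) (A.cont k) (A.f0 k) (A.f1 k)) := by
    intro k s t hst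
    exact Subtype.ext (A.finj k s t s.2 t.2 hst)
  obtain ⟨k, hk⟩ := (A.adj u v).1 h
  rcases hk with ⟨rfl, rfl⟩ | ⟨rfl, rfl⟩
  · refine ⟨k, rfl, ?_, ?_, ?_⟩
    · rw [arc_src, mkPath_range]
    · rw [arc_src]; exact inj k
    · rw [arc_src, arc_tgt]
  · refine ⟨k, Sym2.eq_swap, ?_, ?_, ?_⟩
    · rw [arc_tgt, Path.symm_range, mkPath_range]
    · rw [arc_tgt]
      intro s t hst
      exact unitInterval.symm_bijective.1 (inj k hst)
    · rw [arc_src, arc_tgt, Path.symm_symm]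

/-- the good drawing -/
noncomputable def drawing : GoodDrawing G where
  pt := A.pt
  arc := A.arc
  pt_inj := A.pt_inj
  arc_inj u v h := by
    obtain ⟨k, -, -, h3, -⟩ := A.arc_cases h
    exact h3
  arc_symm u v h := by
    obtain ⟨k, -, -, -, h4⟩ := A.arc_cases h
    exact h4
  avoid u v h w hw := by
    obtain ⟨k, h1, h2, -, -⟩ := A.arc_cases h
    rw [h2] at hw
    rw [Sym2.eq_iff] at h1
    rcases A.avoid k w hw with h3 | h3 <;> rcases h1 with ⟨h4, h5⟩ | ⟨h4, h5⟩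
    · exact Or.inl (h3.trans h4)
    · exact Or.inr (h3.trans h4)
    · exact Or.inr (h3.trans h5)
    · exact Or.inl (h3.trans h5)
  common u v u' v' h h' hne := by
    obtain ⟨k, h1, h2, -, -⟩ := A.arc_cases h
    obtain ⟨k', h1', h2', -, -⟩ := A.arc_cases h'
    rw [h2, h2']
    refine A.common k k' ?_
    rintro rfl
    exact hne (h1.symm.trans h1')
  proper u v u' v' h h' hne z hz hzn := by
    obtain ⟨k, h1, h2, -, -⟩ := A.arc_cases h
    obtain ⟨k', h1', h2', -, -⟩ := A.arc_cases h'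
    rw [h2, h2'] at hz ⊢
    refine A.proper k k' ?_ z hz hzn
    rintro rfl
    exact hne (h1.symm.trans h1')
  no_triple u v u' v' u'' v'' h h' h'' n1 n2 n3 z hz := by
    obtain ⟨k, h1, h2, -, -⟩ := A.arc_cases h
    obtain ⟨k', h1', h2', -, -⟩ := A.arc_cases h'
    obtain ⟨k'', h1'', h2'', -, -⟩ := A.arc_cases h''
    rw [h2, h2', h2''] at hz
    refine A.triple k k' k'' ?_ ?_ ?_ z hz
    · rintro rfl; exact n1 (h1.symm.trans h1')
    · rintro rfl; exact n2 (h1.symm.trans h1'')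
    · rintro rfl; exact n3 (h1'.symm.trans h1'')

end ArcFamily

/-- where an arc that starts along a straight line leaves a small disc -/
theorem exitPoint_linear {x y : ℂ} (γ : Path x y) {w : ℂ} (hw : w ≠ 0) {t₀ : ℝ} (h0 : 0 < t₀)
    (h1 : t₀ ≤ 1) (h : ∀ t ∈ Icc 0 t₀, γ.extend t = x + t * w) :
    ∀ᶠ r : ℝ in 𝓝[>] 0, exitPoint γ r = x + r * (w / ‖w‖) := by
  have hn : 0 < ‖w‖ := norm_pos_iff.2 hw
  have hpos : 0 < t₀ * ‖w‖ := by positivity
  filter_upwards [Ioo_mem_nhdsGT hpos] with r hr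
  have hrt : r / ‖w‖ < t₀ := by rw [div_lt_iff₀ hn]; exact hr.2
  have hr0 : 0 < r / ‖w‖ := div_pos hr.1 hn
  have hs : sInf {t : ℝ | 0 ≤ t ∧ t ≤ 1 ∧ r ≤ ‖γ.extend t - x‖} = r / ‖w‖ := by
    apply IsLeast.csInf_eq
    constructor
    · refine ⟨hr0.le, by linarith, ?_⟩
      rw [h _ ⟨hr0.le, hrt.le⟩, add_sub_cancel_left, norm_mul, norm_real, Real.norm_eq_abs,
        abs_of_pos hr0, div_mul_cancel₀ _ hn.ne']
    · rintro t ⟨ht0, ht1, ht⟩
      by_contra hcon
      push Not at hcon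
      rw [h t ⟨ht0, by linarith⟩, add_sub_cancel_left, norm_mul, norm_real, Real.norm_eq_abs,
        abs_of_nonneg ht0] at ht
      rw [lt_div_iff₀ hn] at hcon
      linarith
  unfold exitPoint
  rw [hs, h _ ⟨hr0.le, hrt.le⟩]
  push_cast
  ring

/-- a criterion for the clockwise order at a vertex -/
theorem GoodDrawing.leaveClockwise_of {V : Type} {G : SimpleGraph V} (D : GoodDrawing G) (v : V)
    (l : List V) (ang : V → ℝ)
    (hlin : ∀ w ∈ l, ∃ (c : ℝ) (t₀ : ℝ), 0 < c ∧ 0 < t₀ ∧ t₀ ≤ 1 ∧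
      ∀ t ∈ Icc 0 t₀, (D.arc v w).extend t = D.pt v + t * (c * exp (ang w * I)))
    (hpair : l.Pairwise fun w w' => ang w' < ang w ∧ ang w < ang w' + 2 * Real.pi) :
    D.LeaveClockwise v l := by
  unfold GoodDrawing.LeaveClockwise
  have key : ∀ᶠ r : ℝ in 𝓝[>] 0, ∀ w ∈ l, exitPoint (D.arc v w) r =
      D.pt v + r * exp (ang w * I) := by
    clear hpair
    induction l with
    | nil => exact Eventually.of_forall fun r w hw => by simp at hw
    | cons a l ih =>
      obtain ⟨c, t₀, hc, h0, h1, h⟩ := hlin a (by simp)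
      have hcw : (c : ℂ) * exp (ang a * I) ≠ 0 :=
        mul_ne_zero (by exact_mod_cast hc.ne') (exp_ne_zero _)
      have e1 := exitPoint_linear (D.arc v a) hcw h0 h1 h
      filter_upwards [ih fun w hw => hlin w (by simp [hw]), e1] with r hr hr'
      intro w hw
      rw [List.mem_cons] at hw
      rcases hw with rfl | hw
      · rw [hr']
        congr 2
        rw [norm_mul, Complex.norm_exp_ofReal_mul_I, norm_real, Real.norm_eq_abs, abs_of_pos hc,
          mul_one]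
        have : (c : ℂ) ≠ 0 := by exact_mod_cast hc.ne'
        field_simp
      · exact hr w hw
  filter_upwards [key] with r hr
  refine ⟨fun i => if h : i < l.length then ang l[i] else 0, ?_, ?_⟩
  · intro i j hij hj
    simp only [hj, dif_pos, hij.trans hj]
    exact List.pairwise_iff_getElem.1 hpair i j (hij.trans hj) hj hij
  · intro i hi
    simp only [hi, dif_pos]
    exact hr _ (List.getElem_mem hi)

end Pool.Agent.helper506_rot
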