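import Pool.Agent.helper506_rot.Topo4

/-!
# Drawings with two poles

All columns `c 1, …, c N` are adjacent to both poles `O` and `P`.
-/

set_option autoImplicit false

namespace Pool.Agent.helper506_rot

open Complex Set Filter Topology
open Pool.Agent.H858R3.Lift Pool.Agent.H858R3.Cross

variable {V : Type} {G : SimpleGraph V}

/-- the value of a clockwise triple -/
noncomputable def cw : ℂ := - (Real.pi * I)

theorem cw_exp : exp cw = -1 := by
  unfold cw
  rw [exp_neg, exp_pi_mul_I]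
  norm_num

theorem exp_neg_eq {t : ℂ} (h : exp t = -1) : exp (-t) = -1 := by
  rw [exp_neg, h]; norm_num

theorem two_ne {t : ℂ} (h : exp t = -1) : t + t ≠ 0 := by
  intro h'
  apply GoodDrawing.ne_zero_of_exp h
  have : (2 : ℂ) * t = 0 := by linear_combination h'
  simpa using this

theorem neg_two_ne {t : ℂ} (h : exp t = -1) : -t + -t ≠ 0 := two_ne (exp_neg_eq h)

theorem ne_neg {t : ℂ} (h : exp t = -1) : t ≠ -t := by
  intro h'
  apply two_ne h
  linear_combination h'

namespace GoodDrawing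

variable {D : GoodDrawing G} {v x y z : V} {t : ℂ}

theorem T_yzx (h : D.T v x y z = t) : D.T v y z x = t := by rw [D.T_rot, h]

theorem T_zxy (h : D.T v x y z = t) : D.T v z x y = t := T_yzx (T_yzx h)

theorem T_xzy (h : D.T v x y z = t) : D.T v x z y = -t := by rw [D.T_swap, h]

theorem T_zyx (h : D.T v x y z = t) : D.T v z y x = -t := T_yzx (T_xzy h)

theorem T_yxz (h : D.T v x y z = t) : D.T v y x z = -t := T_zxy (T_xzy h)

end GoodDrawing

open GoodDrawing

/-- the frame: both poles are joined to each other and to all columns, with the rotations of the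
plane drawing -/
structure Frame (D : GoodDrawing G) (N : ℕ) (O P : V) (c : ℕ → V) (t : ℂ) : Prop where
  exp_t : exp t = -1
  inj : ∀ i j, 1 ≤ i → i ≤ N → 1 ≤ j → j ≤ N → c i = c j → i = j
  OP : G.Adj O P
  Oc : ∀ i, 1 ≤ i → i ≤ N → G.Adj O (c i)
  Pc : ∀ i, 1 ≤ i → i ≤ N → G.Adj P (c i)
  TO : ∀ i j, 1 ≤ i → i < j → j ≤ N → D.T O (c j) (c i) P = t
  TOO : ∀ i j k, 1 ≤ i → i < j → j < k → k ≤ N → D.T O (c k) (c j) (c i) = t
  TP : ∀ i j, 1 ≤ i → i < j → j ≤ N → D.T P O (c i) (c j) = t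
  TPP : ∀ i j k, 1 ≤ i → i < j → j < k → k ≤ N → D.T P (c i) (c j) (c k) = t

/-- an edge between two columns, which leaves to the right and arrives from the left -/
structure HEdge (D : GoodDrawing G) (N : ℕ) (O P : V) (c : ℕ → V) (t : ℂ) (p r : ℕ) : Prop where
  one_le : 1 ≤ p
  lt : p < r
  le : r ≤ N
  adj : G.Adj (c p) (c r)
  Tl : D.T (c p) O (c r) P = t
  Tr : D.T (c r) O P (c p) = t

theorem HEdge.mirror {D : GoodDrawing G} {N : ℕ} {O P : V} {c : ℕ → V} {t : ℂ} {p r : ℕ}
    (e : HEdge D N O P c t p r) : HEdge D N P O c (-t) p r :=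
  ⟨e.one_le, e.lt, e.le, e.adj, T_zyx e.Tl, T_yxz e.Tr⟩

namespace Frame

variable {D : GoodDrawing G} {N : ℕ} {O P : V} {c : ℕ → V} {t : ℂ} (F : Frame D N O P c t)

include F

theorem mirror : Frame D N P O c (-t) where
  exp_t := exp_neg_eq F.exp_t
  inj := F.inj
  OP := F.OP.symm
  Oc := F.Pc
  Pc := F.Oc
  TO i j h1 h2 h3 := T_zyx (F.TP i j h1 h2 h3)
  TOO i j k h1 h2 h3 h4 := T_zyx (F.TPP i j k h1 h2 h3 h4)
  TP i j h1 h2 h3 := T_zyx (F.TO i j h1 h2 h3)
  TPP i j k h1 h2 h3 h4 := T_zyx (F.TOO i j k h1 h2 h3 h4)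

theorem ne {i j : ℕ} (hi : 1 ≤ i) (hi' : i ≤ N) (hj : 1 ≤ j) (hj' : j ≤ N) (h : i ≠ j) :
    c i ≠ c j := fun h' => h (F.inj i j hi hi' hj hj' h')

theorem frame_aux {i j : ℕ} (hi : 1 ≤ i) (hij : i < j) (hj : j ≤ N) :
    ¬ D.Meet P (c i) O (c j) ∧ ¬ D.Meet P (c j) O (c i) := by
  refine GoodDrawing.compat F.OP (F.Oc i hi (by omega)) (F.Oc j (by omega) hj)
    (F.Pc i hi (by omega)) (F.Pc j (by omega) hj) (F.ne hi (by omega) (by omega) hj hij.ne) ?_
  rw [T_xzy (T_zxy (F.TO i j hi hij hj)), F.TP i j hi hij hj]; ring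

theorem frame {i j : ℕ} (hi : 1 ≤ i) (hi' : i ≤ N) (hj : 1 ≤ j) (hj' : j ≤ N) (h : i ≠ j) :
    ¬ D.Meet P (c i) O (c j) := by
  rcases lt_or_gt_of_ne h with h | h
  · exact (F.frame_aux hi h hj').1
  · exact (F.frame_aux hj h hi').2

theorem not_OP {p r : ℕ} (e : HEdge D N O P c t p r) : ¬ D.Meet (c p) (c r) O P := by
  have h := e.lt
  have hp := e.one_le
  have hr := e.le
  refine (GoodDrawing.compat (P := O) (i := c p) (j := P) (k := c r) (F.Oc p hp (by omega)) F.OP
    (F.Oc r (by omega) hr) (F.Pc p hp (by omega)).symm e.adj (F.Pc r (by omega) hr).ne ?_).2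
  rw [T_yzx (F.TO p r hp h hr), T_xzy e.Tl]; ring

/-- an edge between columns `p < r` does not cross `P a` for `a` outside of `[p, r]` -/
theorem outP {p r a : ℕ} (e : HEdge D N O P c t p r) (ha : 1 ≤ a) (ha' : a ≤ N)
    (h : a < p ∨ r < a) : ¬ D.Meet (c p) (c r) P (c a) := by
  have hlt := e.lt
  have hp := e.one_le
  have hr := e.le
  rcases h with h | h
  · refine GoodDrawing.confined (P := P) (Q := O) (F.Pc a ha ha') (F.Pc p hp (by omega))
      (F.Pc r (by omega) hr) (F.Oc p hp (by omega)) (F.Oc r (by omega) hr) e.adj F.OP.ne.symm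
      (F.ne ha ha' hp (by omega) h.ne) (F.ne ha ha' (by omega) hr (by omega))
      (F.frame hp (by omega) (by omega) hr hlt.ne) (F.frame ha ha' hp (by omega) h.ne)
      (F.frame ha ha' (by omega) hr (by omega)) ?_
    rw [T_zxy e.Tl, T_yzx (F.TPP a p r ha h hlt hr)]
    exact two_ne F.exp_t
  · have key : ¬ D.Meet (c r) (c p) P (c a) := by
      refine GoodDrawing.confined (P := P) (Q := O) (F.Pc a ha ha') (F.Pc r (by omega) hr)
        (F.Pc p hp (by omega)) (F.Oc r (by omega) hr) (F.Oc p hp (by omega)) e.adj.symm F.OP.ne.symm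
        (F.ne ha ha' (by omega) hr h.ne') (F.ne ha ha' hp (by omega) (by omega))
        (F.frame (by omega) hr hp (by omega) hlt.ne') (F.frame ha ha' (by omega) hr h.ne')
        (F.frame ha ha' hp (by omega) (by omega)) ?_
      rw [T_yxz e.Tr, T_yxz (F.TPP p r a hp hlt h ha')]
      exact neg_two_ne F.exp_t
    rwa [GoodDrawing.meet_swap_left e.adj] at key

/-- the edge `a b` crosses exactly one of the edges `O m`, `P m` for `m` between `a` and `b` -/
theorem one_side {a b m : ℕ} (e : HEdge D N O P c t a b) (h1 : a < m) (h2 : m < b) :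
    (D.Meet (c a) (c b) O (c m) ∧ ¬ D.Meet (c a) (c b) P (c m)) ∨
      (¬ D.Meet (c a) (c b) O (c m) ∧ D.Meet (c a) (c b) P (c m)) := by
  have ha := e.one_le
  have hb := e.le
  have key := GoodDrawing.one_side (D := D) (O := O) (P := P) (a := c a) (b := c b) (m := c m)
    (F.Oc a ha (by omega)) (F.Oc b (by omega) hb) (F.Oc m (by omega) (by omega)) F.OP e.adj
    (F.Pc m (by omega) (by omega)).symm (F.ne (by omega) (by omega) ha (by omega) (by omega))
    (F.ne (by omega) (by omega) (by omega) hb (by omega)) (F.Pc a ha (by omega)).ne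
    (F.Pc b (by omega) hb).ne
    (by
      rw [meet_swap_left (F.Pc m (by omega) (by omega))]
      exact F.frame (by omega) (by omega) ha (by omega) (by omega))
    (by
      rw [meet_swap_left (F.Pc m (by omega) (by omega))]
      exact F.frame (by omega) (by omega) (by omega) hb (by omega))
    (F.not_OP e) (by
      rw [T_zxy (F.TOO a m b ha h1 h2 hb), T_yxz (F.TO a b ha e.lt hb)]
      rw [show (t - -t) / 2 = t by ring]
      exact F.exp_t)
  rwa [meet_swap_right (F.Pc m (by omega) (by omega))] at key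

/-- the edge `p q` is next to `p r` on the side of `P` at `p` -/
theorem helper_left {p q r : ℕ} (e : HEdge D N O P c t p r) (e' : HEdge D N O P c t p q)
    (h : q < r) (hT : D.T (c p) (c r) (c q) P = t) : ¬ D.Meet (c p) (c r) P (c q) := by
  have hp := e.one_le
  have hr := e.le
  have h' := e'.lt
  refine (GoodDrawing.compat (P := P) (i := c p) (j := c q) (k := c r) (F.Pc p hp (by omega))
    (F.Pc q (by omega) (by omega)) (F.Pc r (by omega) hr) e'.adj e.adj
    (F.ne (by omega) (by omega) (by omega) hr h.ne) ?_).2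
  rw [F.TPP p q r hp h' h hr, T_zyx hT]; ring

/-- the edge `q r` is next to `p r` on the side of `P` at `r` -/
theorem helper_right {p q r : ℕ} (e : HEdge D N O P c t p r) (e' : HEdge D N O P c t q r)
    (h : p < q) (hT : D.T (c r) P (c q) (c p) = t) : ¬ D.Meet (c p) (c r) P (c q) := by
  have hp := e.one_le
  have hr := e.le
  have h' := e'.lt
  rw [← meet_swap_left e.adj]
  refine (GoodDrawing.compat (P := P) (i := c r) (j := c q) (k := c p) (F.Pc r (by omega) hr)
    (F.Pc q (by omega) (by omega)) (F.Pc p hp (by omega)) e'.adj.symm e.adj.symm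
    (F.ne (by omega) (by omega) hp (by omega) h.ne') ?_).2
  rw [T_zyx (F.TPP p q r hp h h' hr), hT]; ring

/-- the edge `a w` is next to `a b` on the side of `P` at `a`: the vertex `w` is forced to the
side of `P` -/
theorem forced {a b w : ℕ} (e : HEdge D N O P c t a b) (e' : HEdge D N O P c t a w) (h : w < b)
    (hT : D.T (c a) (c b) (c w) P = t) : ¬ D.Meet (c a) (c b) P (c w) :=
  F.helper_left e e' h hT

/-- no alternation -/
theorem key {a b p q r : ℕ} (e : HEdge D N O P c t a b) (f : HEdge D N O P c t p r)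
    (hap : a < p) (hpq : p < q) (hqr : q < r) (hrb : r < b)
    (nq : ¬ D.Meet (c p) (c r) P (c q)) (m : D.Meet (c a) (c b) P (c q)) :
    D.Meet (c a) (c b) P (c p) ∨ D.Meet (c a) (c b) P (c r) := by
  by_contra hcon
  push Not at hcon
  have ha := e.one_le
  have hb := e.le
  refine GoodDrawing.blocked (P := P) (a := c a) (b := c b) (p := c p) (q := c q) (r := c r)
    (F.Pc a ha (by omega)) (F.Pc b (by omega) hb) (F.Pc p (by omega) (by omega))
    (F.Pc q (by omega) (by omega)) (F.Pc r (by omega) (by omega)) e.adj f.adj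
    (F.ne ?_ ?_ ?_ ?_ ?_) (F.ne ?_ ?_ ?_ ?_ ?_) (F.ne ?_ ?_ ?_ ?_ ?_) (F.ne ?_ ?_ ?_ ?_ ?_)
    (F.ne ?_ ?_ ?_ ?_ ?_) (F.ne ?_ ?_ ?_ ?_ ?_) (F.ne ?_ ?_ ?_ ?_ ?_) (F.ne ?_ ?_ ?_ ?_ ?_)
    m hcon.1 hcon.2 nq (F.outP f ha (by omega) (Or.inl hap)) (F.outP f (by omega) hb (Or.inr hrb))
    ?_ ?_
  any_goals omega
  · rw [T_xzy (F.TPP p q r (by omega) hpq hqr (by omega)),
      T_yzx (F.TPP a p r ha hap (by omega) (by omega))]
    exact (ne_neg F.exp_t).symm
  · rw [T_xzy (F.TPP p q r (by omega) hpq hqr (by omega)),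
      F.TPP p r b (by omega) (by omega) hrb hb]
    exact (ne_neg F.exp_t).symm

end Frame

end Pool.Agent.helper506_rot
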