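import Pool.Agent.helper506_rot.Fam

/-!
# Piecewise linear graphs and charts of crossings
-/

set_option autoImplicit false

namespace Pool.Agent.helper506_rot

open Complex Set Filter Topology

/-- the piecewise linear function with value `h j` at `j` -/
noncomputable def pl (M : ℕ) (h : ℕ → ℝ) (u : ℝ) : ℝ :=
  ∑ j ∈ Finset.range M, h j * max 0 (1 - |u - j|)

theorem pl_continuous (M : ℕ) (h : ℕ → ℝ) : Continuous (pl M h) := by
  unfold pl
  fun_prop

theorem pl_eq {M : ℕ} {h : ℕ → ℝ} {u : ℝ} {j : ℕ} (hj : j + 1 < M) (h1 : (j : ℝ) ≤ u)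
    (h2 : u ≤ j + 1) : pl M h u = h j * (j + 1 - u) + h (j + 1) * (u - j) := by
  unfold pl
  rw [Finset.sum_eq_add (a := j) (b := j + 1) (by omega)]
  · have e1 : |u - j| = u - j := abs_of_nonneg (by linarith)
    have e2 : |u - ((j + 1 : ℕ) : ℝ)| = j + 1 - u := by
      push_cast
      rw [abs_of_nonpos (by linarith)]; ring
    rw [e1, e2, max_eq_right (by linarith), max_eq_right (by linarith)]
    ring
  · rintro c hc ⟨hc1, hc2⟩
    have : 1 - |u - c| ≤ 0 := by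
      rcases Nat.lt_or_gt_of_ne hc1 with h3 | h3
      · have : (c : ℝ) + 1 ≤ j := by exact_mod_cast h3
        have := le_abs_self (u - c)
        linarith
      · have h4 : j + 1 + 1 ≤ c := by omega
        have : (j : ℝ) + 1 + 1 ≤ c := by exact_mod_cast h4
        have := neg_abs_le (u - c)
        linarith
    rw [max_eq_left this, mul_zero]
  · intro h3
    exact absurd (Finset.mem_range.2 (by omega)) h3
  · intro h3
    exact absurd (Finset.mem_range.2 hj) h3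

theorem pl_nat {M : ℕ} {h : ℕ → ℝ} {j : ℕ} (hj : j + 1 < M) : pl M h j = h j := by
  rw [pl_eq hj le_rfl (by linarith)]; ring

/-- a crossing from a global homeomorphism, restricted to an open set -/
theorem crossing_of_homeo {a b : Set ℂ} {z : ℂ} (Φ : ℂ ≃ₜ ℝ × ℝ) {U : Set ℂ} (hU : IsOpen U)
    (hz : z ∈ U) (h0 : Φ z = (0, 0)) (ha : ∀ w ∈ U, w ∈ a ↔ (Φ w).2 = 0)
    (hb : ∀ w ∈ U, w ∈ b ↔ (Φ w).1 = 0) : IsProperCrossing a b z := by
  refine ⟨Φ.toOpenPartialHomeomorph.restrOpen U hU, ?_, ?_, ?_⟩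
  · simpa using hz
  · simpa using h0
  · intro w hw
    have hw' : w ∈ U := by simpa using hw
    exact ⟨by simpa using ha w hw', by simpa using hb w hw'⟩

theorem IsProperCrossing.symm {a b : Set ℂ} {z : ℂ} (h : IsProperCrossing a b z) :
    IsProperCrossing b a z := by
  obtain ⟨φ, h1, h2, h3⟩ := h
  refine ⟨φ.transHomeomorph (Homeomorph.prodComm ℝ ℝ), by simpa using h1, by simp [h2], ?_⟩
  intro w hw
  have := h3 w (by simpa using hw)
  exact ⟨by simpa using this.2, by simpa using this.1⟩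

/-- the shear -/
noncomputable def shear (c : ℝ) (φ : ℝ → ℝ) (hφ : Continuous φ) : ℂ ≃ₜ ℝ × ℝ where
  toFun z := (z.re - c, z.im - φ z.re)
  invFun p := ⟨p.1 + c, p.2 + φ (p.1 + c)⟩
  left_inv z := by apply Complex.ext <;> simp
  right_inv p := by ext <;> simp
  continuous_toFun := by fun_prop
  continuous_invFun := by
    have : (fun p : ℝ × ℝ => (⟨p.1 + c, p.2 + φ (p.1 + c)⟩ : ℂ)) =
        fun p : ℝ × ℝ => ((p.1 + c : ℝ) : ℂ) + ((p.2 + φ (p.1 + c) : ℝ) : ℂ) * I := by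
      funext p
      apply Complex.ext <;> simp
    rw [this]
    fun_prop

/-- the affine map straightening the graphs of `a₀ + a₁ x` and `b₀ + b₁ x` -/
noncomputable def affineChart (a₀ a₁ b₀ b₁ : ℝ) (h : a₁ - b₁ ≠ 0) : ℂ ≃ₜ ℝ × ℝ where
  toFun z := (z.im - (b₀ + b₁ * z.re), z.im - (a₀ + a₁ * z.re))
  invFun p := ⟨(p.1 - p.2 - (a₀ - b₀)) / (a₁ - b₁),
    p.1 + (b₀ + b₁ * ((p.1 - p.2 - (a₀ - b₀)) / (a₁ - b₁)))⟩
  left_inv z := by
    have e : (z.im - (b₀ + b₁ * z.re) - (z.im - (a₀ + a₁ * z.re)) - (a₀ - b₀)) / (a₁ - b₁) =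
        z.re := by
      field_simp
      ring
    apply Complex.ext
    · exact e
    · show z.im - (b₀ + b₁ * z.re) + (b₀ + b₁ * ((z.im - (b₀ + b₁ * z.re) -
        (z.im - (a₀ + a₁ * z.re)) - (a₀ - b₀)) / (a₁ - b₁))) = z.im
      rw [e]; ring
  right_inv p := by
    have e : (a₁ - b₁) * ((p.1 - p.2 - (a₀ - b₀)) / (a₁ - b₁)) = p.1 - p.2 - (a₀ - b₀) := by
      field_simp
    ext
    · simp
    · simp only
      linear_combination (-1 : ℝ) * e
  continuous_toFun := by fun_prop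
  continuous_invFun := by
    have : (fun p : ℝ × ℝ => (⟨(p.1 - p.2 - (a₀ - b₀)) / (a₁ - b₁),
        p.1 + (b₀ + b₁ * ((p.1 - p.2 - (a₀ - b₀)) / (a₁ - b₁)))⟩ : ℂ)) =
        fun p : ℝ × ℝ => (((p.1 - p.2 - (a₀ - b₀)) / (a₁ - b₁) : ℝ) : ℂ) +
          ((p.1 + (b₀ + b₁ * ((p.1 - p.2 - (a₀ - b₀)) / (a₁ - b₁))) : ℝ) : ℂ) * I := by
      funext p
      exact Complex.mk_eq_add_mul_I _ _
    rw [this]
    fun_prop

end Pool.Agent.helper506_rot
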