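import Mathlib

/-!
# Heights from digits
-/

set_option autoImplicit false

namespace Pool.Agent.helper506_rot

/-- the edge `(p, r)` is above the edge `(p', r')` where the second one of them starts -/
def Init (τ : ℕ → ℕ → ℕ → ℤ) (ρ : ℕ → ℕ → ℝ) (p r p' r' : ℕ) : Prop :=
  (p < p' ∧ τ p r p' = 1) ∨ (p' < p ∧ τ p' r' p = -1) ∨ (p = p' ∧ ρ p' r' < ρ p r)

/-- a family of monotone curves, described by their digits -/
structure Mono where
  N : ℕ
  E : ℕ → ℕ → Prop
  τ : ℕ → ℕ → ℕ → ℤ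
  ρ : ℕ → ℕ → ℝ
  lt : ∀ p r, E p r → 1 ≤ p ∧ p < r ∧ r ≤ N
  unit : ∀ p r k, E p r → p < k → k < r → τ p r k = 1 ∨ τ p r k = -1
  tend : ∀ p r, τ p r r = 0
  ρ_le : ∀ p r, E p r → |ρ p r| ≤ 1 / 4
  ρ_ne : ∀ p r r', E p r → E p r' → r ≠ r' → ρ p r ≠ ρ p r'
  pc : ∀ p r p' r', E p r → E p' r' → (p, r) ≠ (p', r') → p < r' → p' < r →
    Init τ ρ p r p' r' →
    (∃ k0, ∀ k, p < k → p' < k → k ≤ r → k ≤ r' →
      (k < k0 → τ p' r' k ≤ τ p r k) ∧ (k0 ≤ k → τ p r k ≤ τ p' r' k)) ∧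
    (p = p' ∨ r = r' → ∀ k, p < k → p' < k → k ≤ r → k ≤ r' → τ p' r' k ≤ τ p r k)

namespace Mono

variable (M : Mono)

/-- the digits of an edge on the doubled columns -/
def δ (p r x : ℕ) : ℤ := if x + 1 = 2 * r then 1 else M.τ p r ((x + 1) / 2)

/-- the virtual heights -/
noncomputable def H (p r : ℕ) : ℕ → ℝ
  | 0 => M.ρ p r
  | x + 1 => if x + 1 ≤ 2 * p then M.ρ p r else M.δ p r (x + 1) + H p r x / 3

variable {M} {p r p' r' x : ℕ}

theorem H_low (h : x ≤ 2 * p) : M.H p r x = M.ρ p r := by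
  cases x with
  | zero => rfl
  | succ x => simp only [H, if_pos h]

theorem H_succ (h : 2 * p ≤ x) : M.H p r (x + 1) = M.δ p r (x + 1) + M.H p r x / 3 := by
  simp only [H]
  rw [if_neg (by omega)]

theorem δ_unit (hE : M.E p r) (h1 : 2 * p < x) (h2 : x < 2 * r) :
    M.δ p r x = 1 ∨ M.δ p r x = -1 := by
  unfold δ
  split_ifs with h
  · exact Or.inl rfl
  · exact M.unit p r _ hE (by omega) (by omega)

theorem δ_end : M.δ p r (2 * r) = 0 := by
  unfold δ
  rw [if_neg (by omega), show (2 * r + 1) / 2 = r by omega, M.tend]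

theorem δ_odd {k : ℕ} (h : k < r) (hk : 1 ≤ k) : M.δ p r (2 * k - 1) = M.τ p r k := by
  unfold δ
  rw [if_neg (by omega), show (2 * k - 1 + 1) / 2 = k by omega]

theorem δ_even {k : ℕ} : M.δ p r (2 * k) = M.τ p r k := by
  unfold δ
  rw [if_neg (by omega), show (2 * k + 1) / 2 = k by omega]

theorem δ_last (h : 1 ≤ r) : M.δ p r (2 * r - 1) = 1 := by
  unfold δ
  rw [if_pos (by omega)]

theorem δ_range (hE : M.E p r) (h1 : 2 * p < x) (h2 : x ≤ 2 * r) :
    -1 ≤ M.δ p r x ∧ M.δ p r x ≤ 1 := by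
  rcases Nat.lt_or_ge x (2 * r) with h | h
  · rcases δ_unit hE h1 h with h3 | h3 <;> rw [h3] <;> constructor <;> norm_num
  · have : x = 2 * r := by omega
    rw [this, δ_end]; constructor <;> norm_num

theorem H_abs (hE : M.E p r) : ∀ x, x ≤ 2 * r → |M.H p r x| < 3 / 2 := by
  intro x
  induction x with
  | zero =>
    intro _
    have := M.ρ_le p r hE
    rw [H_low (by omega)]
    linarith
  | succ x ih =>
    intro h
    rcases Nat.lt_or_ge x (2 * p) with h1 | h1
    · rw [H_low (by omega)]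
      have := M.ρ_le p r hE
      linarith
    · rw [H_succ h1]
      have h2 := ih (by omega)
      obtain ⟨h3, h4⟩ := δ_range hE (x := x + 1) (by omega) h
      have h3' : (-1 : ℝ) ≤ M.δ p r (x + 1) := by exact_mod_cast h3
      have h4' : (M.δ p r (x + 1) : ℝ) ≤ 1 := by exact_mod_cast h4
      rw [abs_lt] at h2 ⊢
      constructor <;> linarith [h2.1, h2.2]

theorem H_pos (hE : M.E p r) (h1 : 2 * p < x) (h2 : x ≤ 2 * r) (h : M.δ p r x = 1) :
    1 / 2 < M.H p r x := by
  obtain ⟨y, rfl⟩ : ∃ y, x = y + 1 := ⟨x - 1, by omega⟩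
  rw [H_succ (by omega), h]
  have := H_abs hE y (by omega)
  rw [abs_lt] at this
  push_cast
  linarith [this.1]

theorem H_neg (hE : M.E p r) (h1 : 2 * p < x) (h2 : x ≤ 2 * r) (h : M.δ p r x = -1) :
    M.H p r x < - 1 / 2 := by
  obtain ⟨y, rfl⟩ : ∃ y, x = y + 1 := ⟨x - 1, by omega⟩
  rw [H_succ (by omega), h]
  have := H_abs hE y (by omega)
  rw [abs_lt] at this
  push_cast
  linarith [this.2]

theorem H_end (hE : M.E p r) : 0 < M.H p r (2 * r) ∧ M.H p r (2 * r) < 1 / 2 := by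
  have hlt := M.lt p r hE
  have e : 2 * r = (2 * r - 1) + 1 := by omega
  have h1 := H_pos hE (x := 2 * r - 1) (by omega) (by omega) (δ_last (by omega))
  have h2 := H_abs hE (2 * r - 1) (by omega)
  rw [abs_lt] at h2
  rw [e, H_succ (by omega), ← e, δ_end]
  push_cast
  constructor <;> linarith [h2.2]

/-- the difference of the virtual heights -/
noncomputable def D (M : Mono) (p r p' r' x : ℕ) : ℝ := M.H p r x - M.H p' r' x

theorem D_swap : M.D p' r' p r x = - M.D p r p' r' x := by unfold D; ring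

theorem D_abs (hE : M.E p r) (hE' : M.E p' r') (h : x ≤ 2 * r) (h' : x ≤ 2 * r') :
    |M.D p r p' r' x| < 3 := by
  have h1 := H_abs hE x h
  have h2 := H_abs hE' x h'
  unfold D
  rw [abs_lt] at *
  constructor <;> linarith [h1.1, h1.2, h2.1, h2.2]

theorem D_succ (h : 2 * p ≤ x) (h' : 2 * p' ≤ x) : M.D p r p' r' (x + 1) =
    (M.δ p r (x + 1) - M.δ p' r' (x + 1) : ℤ) + M.D p r p' r' x / 3 := by
  unfold D
  rw [H_succ h, H_succ h']
  push_cast
  ring

theorem D_gt (hE : M.E p r) (hE' : M.E p' r') (h : 2 * p ≤ x) (h' : 2 * p' ≤ x)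
    (h1 : x + 1 ≤ 2 * r) (h1' : x + 1 ≤ 2 * r') (hδ : M.δ p' r' (x + 1) < M.δ p r (x + 1)) :
    0 < M.D p r p' r' (x + 1) := by
  rw [D_succ h h']
  have h2 := D_abs hE hE' (x := x) (by omega) (by omega)
  have h3 : (1 : ℝ) ≤ (M.δ p r (x + 1) - M.δ p' r' (x + 1) : ℤ) := by
    exact_mod_cast (by omega : (1 : ℤ) ≤ M.δ p r (x + 1) - M.δ p' r' (x + 1))
  rw [abs_lt] at h2
  linarith [h2.1]

theorem D_ge (hE : M.E p r) (hE' : M.E p' r') (h : 2 * p ≤ x) (h' : 2 * p' ≤ x)
    (h1 : x + 1 ≤ 2 * r) (h1' : x + 1 ≤ 2 * r') (hδ : M.δ p' r' (x + 1) ≤ M.δ p r (x + 1))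
    (hD : 0 < M.D p r p' r' x) : 0 < M.D p r p' r' (x + 1) := by
  rcases hδ.lt_or_eq with h2 | h2
  · exact D_gt hE hE' h h' h1 h1' h2
  · rw [D_succ h h', h2]
    simp only [sub_self, Int.cast_zero]
    linarith

theorem D_eq_pos (h : 2 * p ≤ x) (h' : 2 * p' ≤ x)
    (hδ : M.δ p' r' (x + 1) = M.δ p r (x + 1)) :
    0 < M.D p r p' r' (x + 1) ↔ 0 < M.D p r p' r' x := by
  rw [D_succ h h', hδ]
  simp

theorem D_ne (hE : M.E p r) (hE' : M.E p' r') (h : 2 * p ≤ x) (h' : 2 * p' ≤ x)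
    (h1 : x + 1 ≤ 2 * r) (h1' : x + 1 ≤ 2 * r') (hD : M.D p r p' r' x ≠ 0) :
    M.D p r p' r' (x + 1) ≠ 0 := by
  rcases lt_trichotomy (M.δ p' r' (x + 1)) (M.δ p r (x + 1)) with h2 | h2 | h2
  · exact (D_gt hE hE' h h' h1 h1' h2).ne'
  · rw [D_succ h h', h2]
    simpa using hD
  · have := D_gt hE' hE h' h h1' h1 h2
    rw [D_swap] at this
    intro h3
    rw [h3] at this
    simp at this

theorem D_le (hE : M.E p r) (hE' : M.E p' r') (h : 2 * p ≤ x) (h' : 2 * p' ≤ x)
    (h1 : x + 1 ≤ 2 * r) (h1' : x + 1 ≤ 2 * r') (hδ : M.δ p r (x + 1) ≤ M.δ p' r' (x + 1))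
    (hD : M.D p r p' r' x < 0) : M.D p r p' r' (x + 1) < 0 := by
  have := D_ge hE' hE h' h h1' h1 hδ (by rw [D_swap]; linarith)
  rw [D_swap] at this
  linarith

/-- where the second one of two edges starts -/
theorem D_init (hE : M.E p r) (hE' : M.E p' r') (h1 : p < r') (h2 : p' < r)
    (h : Init M.τ M.ρ p r p' r') : 0 < M.D p r p' r' (2 * max p p') := by
  unfold D
  rcases h with ⟨h3, h4⟩ | ⟨h3, h4⟩ | ⟨h3, h4⟩
  · rw [max_eq_right h3.le, H_low (p := p') le_rfl]
    have h5 := H_pos hE (x := 2 * p') (by omega) (by omega) (by rw [δ_even]; exact h4)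
    have h6 := M.ρ_le p' r' hE'
    rw [abs_le] at h6
    linarith [h6.2]
  · rw [max_eq_left h3.le, H_low (p := p) le_rfl]
    have h5 := H_neg hE' (x := 2 * p) (by omega) (by omega) (by rw [δ_even]; exact h4)
    have h6 := M.ρ_le p r hE
    rw [abs_le] at h6
    linarith [h6.1]
  · subst h3
    rw [max_self, H_low le_rfl, H_low le_rfl]
    linarith

theorem init_or (hE : M.E p r) (hE' : M.E p' r') (hne : (p, r) ≠ (p', r')) (h1 : p < r')
    (h2 : p' < r) : Init M.τ M.ρ p r p' r' ∨ Init M.τ M.ρ p' r' p r := by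
  rcases lt_trichotomy p p' with h3 | h3 | h3
  · rcases M.unit p r p' hE h3 h2 with h4 | h4
    · exact Or.inl (Or.inl ⟨h3, h4⟩)
    · exact Or.inr (Or.inr (Or.inl ⟨h3, h4⟩))
  · subst h3
    have hr : r ≠ r' := fun h => hne (by rw [h])
    rcases (M.ρ_ne p r r' hE hE' hr).lt_or_gt with h4 | h4
    · exact Or.inr (Or.inr (Or.inr ⟨rfl, h4⟩))
    · exact Or.inl (Or.inr (Or.inr ⟨rfl, h4⟩))
  · rcases M.unit p' r' p hE' h3 h1 with h4 | h4
    · exact Or.inr (Or.inl ⟨h3, h4⟩)
    · exact Or.inl (Or.inr (Or.inl ⟨h3, h4⟩))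

/-- from the comparison of the digits at a column to the doubled columns -/
theorem δ_le_of_τ {k : ℕ} (hE : M.E p r) (hE' : M.E p' r') (h1 : p < k) (h2 : p' < k)
    (h3 : k ≤ r) (h4 : k ≤ r') (h : M.τ p' r' k ≤ M.τ p r k) :
    M.δ p' r' (2 * k - 1) ≤ M.δ p r (2 * k - 1) ∧ M.δ p' r' (2 * k) ≤ M.δ p r (2 * k) := by
  refine ⟨?_, by rw [δ_even, δ_even]; exact h⟩
  rcases h3.lt_or_eq with h5 | h5 <;> rcases h4.lt_or_eq with h6 | h6
  · rw [δ_odd h5 (by omega), δ_odd h6 (by omega)]; exact h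
  · subst h6
    rw [δ_odd h5 (by omega), δ_last (by omega)]
    rw [M.tend] at h
    rcases M.unit p r k hE h1 h5 with h7 | h7 <;> omega
  · subst h5
    rw [δ_last (by omega), δ_odd h6 (by omega)]
    rcases M.unit p' r' k hE' h2 h6 with h7 | h7 <;> omega
  · subst h5
    rw [δ_last (by omega), h6, δ_last (by omega)]

/-- from the comparison of the digits at a column to the doubled columns -/
theorem δ_le_of_τ' (hE : M.E p r) (hE' : M.E p' r') (h1 : 2 * p < x) (h2 : 2 * p' < x)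
    (h3 : x ≤ 2 * r) (h4 : x ≤ 2 * r') (h : M.τ p' r' ((x + 1) / 2) ≤ M.τ p r ((x + 1) / 2)) :
    M.δ p' r' x ≤ M.δ p r x := by
  have key := δ_le_of_τ (k := (x + 1) / 2) hE hE' (by omega) (by omega) (by omega) (by omega) h
  rcases Nat.even_or_odd' x with ⟨k, hk | hk⟩
  · have : (x + 1) / 2 = k := by omega
    rw [this] at key
    rw [hk]; exact key.2
  · have : (x + 1) / 2 = k + 1 := by omega
    rw [this] at key
    have h5 : 2 * (k + 1) - 1 = x := by omega
    rw [h5] at key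
    exact key.1

variable (hE : M.E p r) (hE' : M.E p' r') (hne : (p, r) ≠ (p', r'))
  (h1 : p < r') (h2 : p' < r) (hI : Init M.τ M.ρ p r p' r')

include hE hE' hne h1 h2 in
theorem D_ne_zero (hx : 2 * p ≤ x) (hx' : 2 * p' ≤ x) (hr : x ≤ 2 * r) (hr' : x ≤ 2 * r') :
    M.D p r p' r' x ≠ 0 := by
  have hlt := M.lt p r hE
  have hlt' := M.lt p' r' hE'
  have key : ∀ n, 2 * max p p' + n ≤ 2 * r → 2 * max p p' + n ≤ 2 * r' →
      M.D p r p' r' (2 * max p p' + n) ≠ 0 := by
    intro n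
    induction n with
    | zero =>
      intro _ _
      rw [add_zero]
      rcases init_or hE hE' hne h1 h2 with h | h
      · exact (D_init hE hE' h1 h2 h).ne'
      · have := D_init hE' hE h2 h1 h
        rw [max_comm, D_swap] at this
        intro h3
        rw [h3] at this
        simp at this
    | succ n ih =>
      intro h3 h4
      rw [← add_assoc] at h3 h4 ⊢
      exact D_ne hE hE' (by omega) (by omega) (by omega) (by omega) (ih (by omega) (by omega))
  obtain ⟨n, rfl⟩ : ∃ n, x = 2 * max p p' + n := ⟨x - 2 * max p p', by omega⟩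
  exact key n hr hr'

include hE hE' hne h1 h2 hI in
/-- adjacent edges do not cross -/
theorem D_adj (hadj : p = p' ∨ r = r') (hx : 2 * p ≤ x) (hx' : 2 * p' ≤ x) (hr : x ≤ 2 * r)
    (hr' : x ≤ 2 * r') : 0 < M.D p r p' r' x := by
  have hlt := M.lt p r hE
  have hlt' := M.lt p' r' hE'
  have hpc := (M.pc p r p' r' hE hE' hne h1 h2 hI).2 hadj
  have key : ∀ n, 2 * max p p' + n ≤ 2 * r → 2 * max p p' + n ≤ 2 * r' →
      0 < M.D p r p' r' (2 * max p p' + n) := by
    intro n
    induction n with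
    | zero =>
      intro _ _
      exact D_init hE hE' h1 h2 hI
    | succ n ih =>
      intro h3 h4
      rw [← add_assoc] at h3 h4 ⊢
      refine D_ge hE hE' (by omega) (by omega) (by omega) (by omega) ?_ (ih (by omega) (by omega))
      exact δ_le_of_τ' hE hE' (by omega) (by omega) (by omega) (by omega)
        (hpc _ (by omega) (by omega) (by omega) (by omega))
  obtain ⟨n, rfl⟩ : ∃ n, x = 2 * max p p' + n := ⟨x - 2 * max p p', by omega⟩
  exact key n hr hr'

include hE hE' hne h1 h2 hI in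
/-- two edges cross at most once -/
theorem D_single {y : ℕ} (hx : 2 * p ≤ x) (hx' : 2 * p' ≤ x) (hxy : x ≤ y) (hr : y ≤ 2 * r)
    (hr' : y ≤ 2 * r') (hD : M.D p r p' r' x < 0) : M.D p r p' r' y < 0 := by
  have hlt := M.lt p r hE
  have hlt' := M.lt p' r' hE'
  obtain ⟨k0, hk⟩ := (M.pc p r p' r' hE hE' hne h1 h2 hI).1
  have key : ∀ n, 2 * max p p' + n ≤ 2 * r → 2 * max p p' + n ≤ 2 * r' →
      (2 * max p p' + n + 1) / 2 < k0 ∨ n = 0 → 0 < M.D p r p' r' (2 * max p p' + n) := by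
    intro n
    induction n with
    | zero =>
      intro _ _ _
      exact D_init hE hE' h1 h2 hI
    | succ n ih =>
      intro h3 h4 h5
      rw [← add_assoc] at h3 h4 h5 ⊢
      refine D_ge hE hE' (by omega) (by omega) (by omega) (by omega) ?_
        (ih (by omega) (by omega) (by omega))
      refine δ_le_of_τ' hE hE' (by omega) (by omega) (by omega) (by omega) ?_
      exact (hk _ (by omega) (by omega) (by omega) (by omega)).1 (by omega)
  have h3 : k0 ≤ (x + 1) / 2 ∧ 2 * max p p' < x := by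
    by_contra hcon
    have := key (x - 2 * max p p') (by omega) (by omega) (by omega)
    rw [show 2 * max p p' + (x - 2 * max p p') = x by omega] at this
    linarith
  have key2 : ∀ n, x + n ≤ 2 * r → x + n ≤ 2 * r' → M.D p r p' r' (x + n) < 0 := by
    intro n
    induction n with
    | zero => intro _ _; exact hD
    | succ n ih =>
      intro h4 h5
      rw [← add_assoc] at h4 h5 ⊢
      refine D_le hE hE' (by omega) (by omega) (by omega) (by omega) ?_
        (ih (by omega) (by omega))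
      refine δ_le_of_τ' hE' hE (by omega) (by omega) (by omega) (by omega) ?_
      exact (hk _ (by omega) (by omega) (by omega) (by omega)).2 (by omega)
  obtain ⟨n, rfl⟩ : ∃ n, y = x + n := ⟨y - x, by omega⟩
  exact key2 n hr hr'

/-- the classes of edges in a gap: only edges of different classes cross there -/
def cls (M : Mono) (x p r : ℕ) : Prop := if x % 2 = 0 then M.δ p r (x + 1) = 1 else x + 1 = 2 * r

include hE hE' in
theorem cls_ne (hx : 2 * p ≤ x) (hx' : 2 * p' ≤ x) (hr : x + 1 ≤ 2 * r) (hr' : x + 1 ≤ 2 * r')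
    (h3 : 0 < M.D p r p' r' x) (h4 : M.D p r p' r' (x + 1) < 0) :
    ¬ (M.cls x p r ↔ M.cls x p' r') := by
  have hδ : M.δ p r (x + 1) < M.δ p' r' (x + 1) := by
    by_contra hcon
    push Not at hcon
    have := D_ge hE hE' hx hx' hr hr' hcon h3
    linarith
  unfold cls
  split_ifs with hpar
  · rcases δ_unit hE (x := x + 1) (by omega) (by omega) with h5 | h5 <;>
      rcases δ_unit hE' (x := x + 1) (by omega) (by omega) with h6 | h6 <;>
      rw [h5, h6] at hδ <;> rw [h5, h6] <;> simp_all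
  · obtain ⟨k, hk⟩ : ∃ k, x + 1 = 2 * k := ⟨(x + 1) / 2, by omega⟩
    intro hiff
    rcases Nat.lt_or_ge (x + 1) (2 * r) with h5 | h5
    · have h6 : x + 1 < 2 * r' := by
        rcases Nat.lt_or_ge (x + 1) (2 * r') with h6 | h6
        · exact h6
        · exfalso
          have := hiff.2 (by omega)
          omega
      rw [hk, δ_even, δ_even] at hδ
      have h7 : x = 2 * k - 1 := by omega
      have e1 : M.δ p r x = M.τ p r k := by rw [h7]; exact δ_odd (by omega) (by omega)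
      have e2 : M.δ p' r' x = M.τ p' r' k := by rw [h7]; exact δ_odd (by omega) (by omega)
      obtain ⟨y, rfl⟩ : ∃ y, x = y + 1 := ⟨x - 1, by omega⟩
      have := D_gt hE' hE (x := y) (by omega) (by omega) (by omega) (by omega)
        (by rw [e1, e2]; exact hδ)
      rw [D_swap] at this
      linarith
    · have h6 : x + 1 = 2 * r := by omega
      have h7 := hiff.1 h6
      rw [h6, δ_end, show 2 * r = 2 * r' by omega, δ_end] at hδ
      exact lt_irrefl _ hδ

end Mono

end Pool.Agent.helper506_rot
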