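import Pool.Agent.helper506_rot.PL1
import Pool.Agent.helper506_rot.PL2

/-!
# Intersections of the piecewise linear curves
-/

set_option autoImplicit false

namespace Pool.Agent.helper506_rot

namespace Mono

variable (M : Mono)

/-- the heights -/
noncomputable def h (p r x : ℕ) : ℝ := if x ≤ 2 * p ∨ 2 * r ≤ x then 0 else M.H p r x

/-- the function whose graph is the curve of the edge `(p, r)` -/
noncomputable def φ (p r : ℕ) : ℝ → ℝ := pl (2 * M.N + 2) (M.h p r)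

variable {M} {p r p' r' x : ℕ}

theorem φ_continuous : Continuous (M.φ p r) := pl_continuous _ _

theorem h_left (h : x ≤ 2 * p) : M.h p r x = 0 := by unfold Mono.h; rw [if_pos (Or.inl h)]

theorem h_right (h : 2 * r ≤ x) : M.h p r x = 0 := by unfold Mono.h; rw [if_pos (Or.inr h)]

theorem h_mid (h1 : 2 * p < x) (h2 : x < 2 * r) : M.h p r x = M.H p r x := by
  unfold Mono.h; rw [if_neg (by omega)]

theorem h_abs (hE : M.E p r) : |M.h p r x| < 3 / 2 := by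
  unfold Mono.h
  split_ifs with h
  · simp
  · exact H_abs hE x (by omega)

theorem φ_eq (hE : M.E p r) {u : ℝ} {j : ℕ} (hj : j + 1 ≤ 2 * r) (h1 : (j : ℝ) ≤ u)
    (h2 : u ≤ j + 1) :
    M.φ p r u = M.h p r j * (j + 1 - u) + M.h p r (j + 1) * (u - j) := by
  have := M.lt p r hE
  exact pl_eq (by omega) h1 h2

theorem φ_nat (hE : M.E p r) {j : ℕ} (hj : j ≤ 2 * r) : M.φ p r j = M.h p r j := by
  have := M.lt p r hE
  exact pl_nat (by omega)

theorem φ_abs (hE : M.E p r) {u : ℝ} (h1 : (2 * p : ℝ) ≤ u) (h2 : u ≤ 2 * r) :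
    |M.φ p r u| < 3 / 2 := by
  have hlt := M.lt p r hE
  have hu0 : 0 ≤ u := by
    have : (0 : ℝ) ≤ 2 * p := by positivity
    linarith
  have hj1 : (⌊u⌋₊ : ℝ) ≤ u := Nat.floor_le hu0
  have hj2 : u < ⌊u⌋₊ + 1 := Nat.lt_floor_add_one u
  rcases Nat.lt_or_ge ⌊u⌋₊ (2 * r) with h3 | h3
  · rw [φ_eq hE (j := ⌊u⌋₊) (by omega) hj1 hj2.le]
    have h4 := h_abs hE (x := ⌊u⌋₊)
    have h5 := h_abs hE (x := ⌊u⌋₊ + 1)
    rw [abs_lt] at *
    constructor <;> nlinarith [h4.1, h4.2, h5.1, h5.2]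
  · have h4 : (2 * r : ℝ) ≤ ⌊u⌋₊ := by exact_mod_cast h3
    have : u = (2 * r : ℕ) := by push_cast; linarith
    rw [this, φ_nat hE le_rfl, h_right le_rfl]
    simp

/-- at the interior columns the curve is away from the axis -/
theorem H_col {k : ℕ} (hE : M.E p r) (h1 : p < k) (h2 : k < r) :
    (M.τ p r k = 1 ∧ 1 / 2 < M.H p r (2 * k)) ∨ (M.τ p r k = -1 ∧ M.H p r (2 * k) < -1 / 2) := by
  rcases M.unit p r k hE h1 h2 with h | h
  · exact Or.inl ⟨h, H_pos hE (by omega) (by omega) (by rw [δ_even]; exact h)⟩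
  · exact Or.inr ⟨h, H_neg hE (by omega) (by omega) (by rw [δ_even]; exact h)⟩

theorem h_col_ne {k : ℕ} (hE : M.E p r) (h1 : p < k) (h2 : k < r) : M.h p r (2 * k) ≠ 0 := by
  rw [h_mid (by omega) (by omega)]
  rcases H_col hE h1 h2 with h | h
  · exact (by linarith [h.2] : (0 : ℝ) < M.H p r (2 * k)).ne'
  · exact (by linarith [h.2] : M.H p r (2 * k) < 0).ne

/-- the difference of the heights -/
noncomputable def d (M : Mono) (p r p' r' x : ℕ) : ℝ := M.h p r x - M.h p' r' x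

theorem d_swap : M.d p' r' p r x = - M.d p r p' r' x := by unfold d; ring

theorem d_aux (hE : M.E p r) (hE' : M.E p' r') (h1 : p < r') (h2 : p' < r)
    (hx : 2 * p ≤ x) (hx' : 2 * p' ≤ x) (hr : x ≤ 2 * r) (hr' : x ≤ 2 * r')
    (hn1 : ¬ (x = 2 * p ∧ p = p')) (hn2 : ¬ (x = 2 * r ∧ r = r'))
    (hD : 0 < M.D p r p' r' x) : 0 < M.d p r p' r' x := by
  have hlt := M.lt p r hE
  have hlt' := M.lt p' r' hE'
  unfold D at hD
  unfold d
  rcases Nat.lt_or_ge (2 * p) x with c1 | c1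
  · rcases Nat.lt_or_ge x (2 * r) with c2 | c2
    · rw [h_mid c1 c2]
      rcases Nat.lt_or_ge (2 * p') x with c3 | c3
      · rcases Nat.lt_or_ge x (2 * r') with c4 | c4
        · rw [h_mid c3 c4]; exact hD
        · have e : x = 2 * r' := by omega
          rw [h_right c4]
          subst e
          have := (H_end hE').1
          linarith
      · have e : x = 2 * p' := by omega
        rw [h_left c3]
        subst e
        have h3 := M.ρ_le p' r' hE'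
        rw [H_low le_rfl] at hD
        rw [abs_le] at h3
        rcases H_col hE (k := p') (by omega) (by omega) with h | h
        · linarith [h.2]
        · linarith [h.2, h3.1]
    · have e : x = 2 * r := by omega
      have h3 : x < 2 * r' := by omega
      rw [h_right c2, h_mid (by omega) h3]
      subst e
      have := H_end hE
      rcases H_col hE' (k := r) (by omega) (by omega) with h | h
      · linarith [h.2, this.2]
      · linarith [h.2]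
  · have e : x = 2 * p := by omega
    have h3 : 2 * p' < x := by omega
    rw [h_left c1, h_mid h3 (by omega)]
    subst e
    have h4 := M.ρ_le p r hE
    rw [H_low le_rfl] at hD
    rw [abs_le] at h4
    rcases H_col hE' (k := p) (by omega) (by omega) with h | h
    · linarith [h.2, h4.2]
    · linarith [h.2]

theorem d_zero (h : (x = 2 * p ∧ p = p') ∨ (x = 2 * r ∧ r = r')) : M.d p r p' r' x = 0 := by
  unfold d
  rcases h with ⟨h1, h2⟩ | ⟨h1, h2⟩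
  · rw [h_left h1.le, h_left (by omega)]; simp
  · rw [h_right h1.ge, h_right (by omega)]; simp

variable (hE : M.E p r) (hE' : M.E p' r') (hne : (p, r) ≠ (p', r'))
  (h1 : p < r') (h2 : p' < r)

include hE hE' hne h1 h2 in
/-- away from the common ends, the sign of the difference is the sign of the virtual difference -/
theorem d_sign (hx : 2 * p ≤ x) (hx' : 2 * p' ≤ x) (hr : x ≤ 2 * r) (hr' : x ≤ 2 * r')
    (hn1 : ¬ (x = 2 * p ∧ p = p')) (hn2 : ¬ (x = 2 * r ∧ r = r')) :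
    (0 < M.D p r p' r' x ∧ 0 < M.d p r p' r' x) ∨ (M.D p r p' r' x < 0 ∧ M.d p r p' r' x < 0) := by
  rcases (D_ne_zero hE hE' hne h1 h2 hx hx' hr hr').lt_or_gt with h | h
  · right
    refine ⟨h, ?_⟩
    have := d_aux hE' hE h2 h1 hx' hx hr' hr (by omega) (by omega) (by rw [D_swap]; linarith)
    rw [d_swap] at this
    linarith
  · exact Or.inl ⟨h, d_aux hE hE' h1 h2 hx hx' hr hr' hn1 hn2 h⟩

include hE hE' hne h1 h2 in
/-- where two curves meet -/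
theorem zero_cases {u : ℝ} (hp : (2 * p : ℝ) ≤ u) (hp' : (2 * p' : ℝ) ≤ u) (hr : u ≤ 2 * r)
    (hr' : u ≤ 2 * r') (h : M.φ p r u = M.φ p' r' u) :
    ((u = 2 * p ∧ p = p') ∨ (u = 2 * r ∧ r = r')) ∨
    (((⌊u⌋₊ : ℝ) < u ∧ u < ⌊u⌋₊ + 1 ∧ 2 * p ≤ ⌊u⌋₊ ∧ 2 * p' ≤ ⌊u⌋₊ ∧ ⌊u⌋₊ + 1 ≤ 2 * r ∧
      ⌊u⌋₊ + 1 ≤ 2 * r') ∧
      ((0 < M.D p r p' r' ⌊u⌋₊ ∧ M.D p r p' r' (⌊u⌋₊ + 1) < 0 ∧
        0 < M.d p r p' r' ⌊u⌋₊ ∧ M.d p r p' r' (⌊u⌋₊ + 1) < 0) ∨
      (M.D p r p' r' ⌊u⌋₊ < 0 ∧ 0 < M.D p r p' r' (⌊u⌋₊ + 1) ∧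
        M.d p r p' r' ⌊u⌋₊ < 0 ∧ 0 < M.d p r p' r' (⌊u⌋₊ + 1)))) := by
  have hlt := M.lt p r hE
  have hlt' := M.lt p' r' hE'
  have hu0 : 0 ≤ u := by
    have : (0 : ℝ) ≤ 2 * p := by positivity
    linarith
  have hj1 : (⌊u⌋₊ : ℝ) ≤ u := Nat.floor_le hu0
  have hj2 : u < ⌊u⌋₊ + 1 := Nat.lt_floor_add_one u
  have e1 : 2 * p ≤ ⌊u⌋₊ := Nat.le_floor (by push_cast; exact hp)
  have e2 : 2 * p' ≤ ⌊u⌋₊ := Nat.le_floor (by push_cast; exact hp')
  have e3 : ⌊u⌋₊ ≤ 2 * r := by exact_mod_cast hj1.trans hr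
  have e4 : ⌊u⌋₊ ≤ 2 * r' := by exact_mod_cast hj1.trans hr'
  by_cases hint : (⌊u⌋₊ : ℝ) = u
  · left
    have h3 : M.d p r p' r' ⌊u⌋₊ = 0 := by
      unfold d
      rw [← hint, φ_nat hE (by simpa using e3), φ_nat hE' (by simpa using e4)] at h
      have : ⌊((⌊u⌋₊ : ℕ) : ℝ)⌋₊ = ⌊u⌋₊ := Nat.floor_natCast _
      linarith
    by_contra hcon
    push Not at hcon
    have hc1 : ¬ (⌊u⌋₊ = 2 * p ∧ p = p') := by
      rintro ⟨h4, h5⟩
      refine hcon.1 ?_ h5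
      rw [← hint, h4]; push_cast; ring
    have hc2 : ¬ (⌊u⌋₊ = 2 * r ∧ r = r') := by
      rintro ⟨h4, h5⟩
      refine hcon.2 ?_ h5
      rw [← hint, h4]; push_cast; ring
    rcases d_sign hE hE' hne h1 h2 e1 e2 e3 e4 hc1 hc2 with h4 | h4
    · exact absurd h3 h4.2.ne'
    · exact absurd h3 h4.2.ne
  · right
    have hlt1 : (⌊u⌋₊ : ℝ) < u := lt_of_le_of_ne hj1 hint
    have e5 : ⌊u⌋₊ + 1 ≤ 2 * r := by
      have : (⌊u⌋₊ : ℝ) < (2 * r : ℕ) := by push_cast; linarith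
      have : ⌊u⌋₊ < 2 * r := by exact_mod_cast this
      omega
    have e6 : ⌊u⌋₊ + 1 ≤ 2 * r' := by
      have : (⌊u⌋₊ : ℝ) < (2 * r' : ℕ) := by push_cast; linarith
      have : ⌊u⌋₊ < 2 * r' := by exact_mod_cast this
      omega
    refine ⟨⟨hlt1, hj2, e1, e2, e5, e6⟩, ?_⟩
    have hd : M.d p r p' r' ⌊u⌋₊ * (⌊u⌋₊ + 1 - u) + M.d p r p' r' (⌊u⌋₊ + 1) * (u - ⌊u⌋₊) = 0 := by
      rw [φ_eq hE e5 hj1 hj2.le, φ_eq hE' e6 hj1 hj2.le] at h
      unfold d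
      linarith
    have w1 : 0 < (⌊u⌋₊ : ℝ) + 1 - u := by linarith
    have w2 : 0 < u - (⌊u⌋₊ : ℝ) := by linarith
    -- the values at both ends of the gap do not vanish
    have hn : ¬ (⌊u⌋₊ = 2 * p ∧ p = p') := by
      intro h3
      have h4 : M.d p r p' r' ⌊u⌋₊ = 0 := d_zero (Or.inl h3)
      rw [h4, zero_mul, zero_add] at hd
      have h5 : M.d p r p' r' (⌊u⌋₊ + 1) = 0 := (mul_eq_zero.1 hd).resolve_right w2.ne'
      rcases d_sign hE hE' hne h1 h2 (x := ⌊u⌋₊ + 1) (by omega) (by omega) e5 e6 (by omega)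
        (by omega) with h6 | h6
      · exact h6.2.ne' h5
      · exact h6.2.ne h5
    have hn' : ¬ (⌊u⌋₊ + 1 = 2 * r ∧ r = r') := by
      intro h3
      have h4 : M.d p r p' r' (⌊u⌋₊ + 1) = 0 := d_zero (Or.inr h3)
      rw [h4, zero_mul, add_zero] at hd
      have h5 : M.d p r p' r' ⌊u⌋₊ = 0 := (mul_eq_zero.1 hd).resolve_right w1.ne'
      rcases d_sign hE hE' hne h1 h2 (x := ⌊u⌋₊) (by omega) (by omega) (by omega) (by omega)
        (by omega) (by omega) with h6 | h6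
      · exact h6.2.ne' h5
      · exact h6.2.ne h5
    rcases d_sign hE hE' hne h1 h2 (x := ⌊u⌋₊) (by omega) (by omega) (by omega) (by omega)
        hn (by omega) with h6 | h6 <;>
      rcases d_sign hE hE' hne h1 h2 (x := ⌊u⌋₊ + 1) (by omega) (by omega) (by omega) (by omega)
        (by omega) hn' with h7 | h7
    · exfalso
      have := mul_pos h6.2 w1
      have := mul_pos h7.2 w2
      linarith
    · exact Or.inl ⟨h6.1, h7.1, h6.2, h7.2⟩
    · exact Or.inr ⟨h6.1, h7.1, h6.2, h7.2⟩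
    · exfalso
      have := mul_neg_of_neg_of_pos h6.2 w1
      have := mul_neg_of_neg_of_pos h7.2 w2
      linarith

include hE hE' hne h1 h2 in
theorem unique_aux (hI : Init M.τ M.ρ p r p' r') {u v : ℝ} (hp : (2 * p : ℝ) ≤ u)
    (hp' : (2 * p' : ℝ) ≤ u) (hr : u ≤ 2 * r) (hr' : u ≤ 2 * r')
    (h : M.φ p r u = M.φ p' r' u) (kp : (2 * p : ℝ) ≤ v) (kp' : (2 * p' : ℝ) ≤ v)
    (kr : v ≤ 2 * r) (kr' : v ≤ 2 * r') (k : M.φ p r v = M.φ p' r' v) : u = v := by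
  have hlt := M.lt p r hE
  have hlt' := M.lt p' r' hE'
  by_cases hadj : p = p' ∨ r = r'
  · have pos := fun x => D_adj (x := x) hE hE' hne h1 h2 hI hadj
    have key : ∀ w : ℝ, (2 * p : ℝ) ≤ w → (2 * p' : ℝ) ≤ w → w ≤ 2 * r → w ≤ 2 * r' →
        M.φ p r w = M.φ p' r' w → ((w = 2 * p ∧ p = p') ∨ (w = 2 * r ∧ r = r')) := by
      intro w a1 a2 a3 a4 a5
      rcases zero_cases hE hE' hne h1 h2 a1 a2 a3 a4 a5 with h3 | ⟨⟨-, -, b1, b2, b3, b4⟩, h3⟩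
      · exact h3
      · exfalso
        have c1 := pos ⌊w⌋₊ b1 b2 (by omega) (by omega)
        have c2 := pos (⌊w⌋₊ + 1) (by omega) (by omega) b3 b4
        rcases h3 with h3 | h3
        · linarith [h3.2.1]
        · linarith [h3.1]
    rcases key u hp hp' hr hr' h with ⟨a1, a2⟩ | ⟨a1, a2⟩ <;>
      rcases key v kp kp' kr kr' k with ⟨b1, b2⟩ | ⟨b1, b2⟩
    · rw [a1, b1]
    · exact absurd (by rw [a2, b2]) hne
    · exact absurd (by rw [a2, b2]) hne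
    · rw [a1, b1]
  · push Not at hadj
    rcases zero_cases hE hE' hne h1 h2 hp hp' hr hr' h with h3 | ⟨⟨g1, g2, b1, b2, b3, b4⟩, h3⟩
    · exfalso
      rcases h3 with h3 | h3
      · exact hadj.1 h3.2
      · exact hadj.2 h3.2
    rcases zero_cases hE hE' hne h1 h2 kp kp' kr kr' k with k3 | ⟨⟨l1, l2, c1, c2, c3, c4⟩, k3⟩
    · exfalso
      rcases k3 with k3 | k3
      · exact hadj.1 k3.2
      · exact hadj.2 k3.2
    have single := fun x y => D_single (x := x) (y := y) hE hE' hne h1 h2 hI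
    have h4 : 0 < M.D p r p' r' ⌊u⌋₊ ∧ M.D p r p' r' (⌊u⌋₊ + 1) < 0 := by
      rcases h3 with h3 | h3
      · exact ⟨h3.1, h3.2.1⟩
      · exfalso
        have := single ⌊u⌋₊ (⌊u⌋₊ + 1) b1 b2 (by omega) b3 b4 h3.1
        linarith [h3.2.1]
    have k4 : 0 < M.D p r p' r' ⌊v⌋₊ ∧ M.D p r p' r' (⌊v⌋₊ + 1) < 0 := by
      rcases k3 with k3 | k3
      · exact ⟨k3.1, k3.2.1⟩
      · exfalso
        have := single ⌊v⌋₊ (⌊v⌋₊ + 1) c1 c2 (by omega) c3 c4 k3.1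
        linarith [k3.2.1]
    rcases lt_trichotomy ⌊u⌋₊ ⌊v⌋₊ with h5 | h5 | h5
    · exfalso
      have := single (⌊u⌋₊ + 1) ⌊v⌋₊ (by omega) (by omega) (by omega) (by omega) (by omega) h4.2
      linarith [k4.1]
    · have hd : M.d p r p' r' ⌊u⌋₊ * (⌊u⌋₊ + 1 - u) +
          M.d p r p' r' (⌊u⌋₊ + 1) * (u - ⌊u⌋₊) = 0 := by
        rw [φ_eq hE b3 g1.le g2.le, φ_eq hE' b4 g1.le g2.le] at h
        unfold d
        linarith
      have hd' : M.d p r p' r' ⌊u⌋₊ * (⌊u⌋₊ + 1 - v) +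
          M.d p r p' r' (⌊u⌋₊ + 1) * (v - ⌊u⌋₊) = 0 := by
        rw [φ_eq hE c3 l1.le l2.le, φ_eq hE' c4 l1.le l2.le] at k
        unfold d
        rw [h5]
        linarith
      have h6 : (M.d p r p' r' (⌊u⌋₊ + 1) - M.d p r p' r' ⌊u⌋₊) * (u - v) = 0 := by
        linear_combination hd - hd'
      have h7 : M.d p r p' r' (⌊u⌋₊ + 1) - M.d p r p' r' ⌊u⌋₊ ≠ 0 := by
        rcases h3 with h3 | h3
        · exact (by linarith [h3.2.2.1, h3.2.2.2] :
            M.d p r p' r' (⌊u⌋₊ + 1) - M.d p r p' r' ⌊u⌋₊ < 0).ne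
        · exact (by linarith [h3.2.2.1, h3.2.2.2] :
            0 < M.d p r p' r' (⌊u⌋₊ + 1) - M.d p r p' r' ⌊u⌋₊).ne'
      have := (mul_eq_zero.1 h6).resolve_left h7
      linarith
    · exfalso
      have := single (⌊v⌋₊ + 1) ⌊u⌋₊ (by omega) (by omega) (by omega) (by omega) (by omega) k4.2
      linarith [h4.1]

include hE hE' hne in
/-- two curves meet at most once -/
theorem unique {u v : ℝ} (hp : (2 * p : ℝ) ≤ u)
    (hp' : (2 * p' : ℝ) ≤ u) (hr : u ≤ 2 * r) (hr' : u ≤ 2 * r')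
    (h : M.φ p r u = M.φ p' r' u) (kp : (2 * p : ℝ) ≤ v) (kp' : (2 * p' : ℝ) ≤ v)
    (kr : v ≤ 2 * r) (kr' : v ≤ 2 * r') (k : M.φ p r v = M.φ p' r' v) : u = v := by
  have hlt := M.lt p r hE
  have hlt' := M.lt p' r' hE'
  have a1 : p ≤ r' := by
    have : (2 * p : ℝ) ≤ 2 * r' := by linarith
    have : ((2 * p : ℕ) : ℝ) ≤ (2 * r' : ℕ) := by push_cast; exact this
    have := Nat.cast_le.1 this
    omega
  have a2 : p' ≤ r := by
    have : (2 * p' : ℝ) ≤ 2 * r := by linarith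
    have : ((2 * p' : ℕ) : ℝ) ≤ (2 * r : ℕ) := by push_cast; exact this
    have := Nat.cast_le.1 this
    omega
  rcases a1.lt_or_eq with a1 | a1
  · rcases a2.lt_or_eq with a2 | a2
    · rcases init_or hE hE' hne a1 a2 with hI | hI
      · exact unique_aux hE hE' hne a1 a2 hI hp hp' hr hr' h kp kp' kr kr' k
      · exact unique_aux hE' hE (fun e => hne e.symm) a2 a1 hI hp' hp hr' hr h.symm kp' kp kr' kr
          k.symm
    · subst a2; linarith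
  · subst a1; linarith

/-- where three curves meet -/
theorem three {p'' r'' : ℕ} {u : ℝ} (hE : M.E p r) (hE' : M.E p' r') (hE'' : M.E p'' r'')
    (n1 : (p, r) ≠ (p', r')) (n2 : (p, r) ≠ (p'', r'')) (n3 : (p', r') ≠ (p'', r''))
    (hp : (2 * p : ℝ) ≤ u) (hp' : (2 * p' : ℝ) ≤ u) (hp'' : (2 * p'' : ℝ) ≤ u)
    (hr : u ≤ 2 * r) (hr' : u ≤ 2 * r') (hr'' : u ≤ 2 * r'')
    (h : M.φ p r u = M.φ p' r' u) (h' : M.φ p r u = M.φ p'' r'' u) :
    u = 2 * p ∨ u = 2 * r ∨ u = 2 * p' ∨ u = 2 * r' := by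
  have hlt := M.lt p r hE
  have hlt' := M.lt p' r' hE'
  have hlt'' := M.lt p'' r'' hE''
  -- consecutive edges
  have consec : ∀ a b a' b' : ℕ, (2 * a : ℝ) ≤ u → (2 * a' : ℝ) ≤ u → u ≤ 2 * b → u ≤ 2 * b' →
      a < b' ∨ (u = 2 * a ∧ u = 2 * b') := by
    intro a b a' b' c1 c2 c3 c4
    have c5 : a ≤ b' := by
      have : (2 * a : ℝ) ≤ 2 * b' := by linarith
      have : ((2 * a : ℕ) : ℝ) ≤ (2 * b' : ℕ) := by push_cast; exact this
      have := Nat.cast_le.1 this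
      omega
    rcases c5.lt_or_eq with c5 | c5
    · exact Or.inl c5
    · right; subst c5; constructor <;> linarith
  rcases consec p r p' r' hp hp' hr hr' with o1 | o1
  swap
  · exact Or.inl o1.1
  rcases consec p' r' p r hp' hp hr' hr with o2 | o2
  swap
  · exact Or.inr (Or.inl o2.2)
  rcases consec p r p'' r'' hp hp'' hr hr'' with o3 | o3
  swap
  · exact Or.inl o3.1
  rcases consec p'' r'' p r hp'' hp hr'' hr with o4 | o4
  swap
  · exact Or.inr (Or.inl o4.2)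
  rcases consec p' r' p'' r'' hp' hp'' hr' hr'' with o5 | o5
  swap
  · exact Or.inr (Or.inr (Or.inl o5.1))
  rcases consec p'' r'' p' r' hp'' hp' hr'' hr' with o6 | o6
  swap
  · exact Or.inr (Or.inr (Or.inr o6.2))
  rcases zero_cases hE hE' n1 o1 o2 hp hp' hr hr' h with h3 | ⟨⟨-, -, b1, b2, b3, b4⟩, h3⟩
  · rcases h3 with h3 | h3
    · exact Or.inl h3.1
    · exact Or.inr (Or.inl h3.1)
  rcases zero_cases hE hE'' n2 o3 o4 hp hp'' hr hr'' h' with h4 | ⟨⟨-, -, -, b5, -, b6⟩, h4⟩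
  · rcases h4 with h4 | h4
    · exact Or.inl h4.1
    · exact Or.inr (Or.inl h4.1)
  rcases zero_cases hE' hE'' n3 o5 o6 hp' hp'' hr' hr'' (h.symm.trans h') with h5 | ⟨-, h5⟩
  · rcases h5 with h5 | h5
    · exact Or.inr (Or.inr (Or.inl h5.1))
    · exact Or.inr (Or.inr (Or.inr h5.1))
  exfalso
  have key : ∀ {a b a' b' : ℕ}, M.E a b → M.E a' b' → 2 * a ≤ ⌊u⌋₊ → 2 * a' ≤ ⌊u⌋₊ →
      ⌊u⌋₊ + 1 ≤ 2 * b → ⌊u⌋₊ + 1 ≤ 2 * b' →
      ((0 < M.D a b a' b' ⌊u⌋₊ ∧ M.D a b a' b' (⌊u⌋₊ + 1) < 0 ∧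
        0 < M.d a b a' b' ⌊u⌋₊ ∧ M.d a b a' b' (⌊u⌋₊ + 1) < 0) ∨
      (M.D a b a' b' ⌊u⌋₊ < 0 ∧ 0 < M.D a b a' b' (⌊u⌋₊ + 1) ∧
        M.d a b a' b' ⌊u⌋₊ < 0 ∧ 0 < M.d a b a' b' (⌊u⌋₊ + 1))) →
      ¬ (M.cls ⌊u⌋₊ a b ↔ M.cls ⌊u⌋₊ a' b') := by
    intro a b a' b' f1 f2 f3 f4 f5 f6 f7
    rcases f7 with f7 | f7
    · exact cls_ne f1 f2 f3 f4 f5 f6 f7.1 f7.2.1
    · have := cls_ne f2 f1 f4 f3 f6 f5 (by rw [D_swap]; linarith [f7.1])
        (by rw [D_swap]; linarith [f7.2.1])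
      exact fun hiff => this hiff.symm
  have k1 := key hE hE' b1 b2 b3 b4 h3
  have k2 := key hE hE'' b1 b5 b3 b6 h4
  have k3 := key hE' hE'' b2 b5 b4 b6 h5
  tauto

end Mono

end Pool.Agent.helper506_rot
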