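import Pool.Agent.helper506_rot.PL3

/-!
# The drawing of a family of monotone curves and two poles
-/

set_option autoImplicit false

namespace Pool.Agent.helper506_rot

open Complex Set Filter Topology

/-- vertices numbered by `0` (a pole), `1, …, N` (columns), `N + 1` (the other pole) -/
structure Cols (N : ℕ) (V : Type) where
  num : V → ℕ
  col : ℕ → V
  num_le : ∀ v, num v ≤ N + 1
  col_num : ∀ v, col (num v) = v
  num_col : ∀ i, i ≤ N + 1 → num (col i) = i

/-- the arcs of the drawing -/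
inductive Arc (M : Mono) : Type
  | edge (p r : ℕ) (h : M.E p r) : Arc M
  | pole (s : Bool) (k : ℕ) (h : 1 ≤ k ∧ k ≤ M.N) : Arc M
  | mid : Arc M

/-- the sign of a pole -/
noncomputable def sg (s : Bool) : ℝ := if s then 1 else -1

theorem sg_sq (s : Bool) : sg s * sg s = 1 := by cases s <;> simp [sg]

theorem sg_cases (s : Bool) : sg s = 1 ∨ sg s = -1 := by cases s <;> simp [sg]

theorem continuous_mk' {X Y : ℝ → ℝ} (hX : Continuous X) (hY : Continuous Y) :
    Continuous (fun t => (⟨X t, Y t⟩ : ℂ)) := by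
  have : (fun t => (⟨X t, Y t⟩ : ℂ)) = fun t => ((X t : ℝ) : ℂ) + ((Y t : ℝ) : ℂ) * I := by
    funext t
    exact Complex.mk_eq_add_mul_I _ _
  rw [this]
  fun_prop

namespace Arc

variable {M : Mono}

/-- the curves -/
noncomputable def cur : Arc M → ℝ → ℂ
  | edge p r _, t => ⟨2 * p + t * (2 * r - 2 * p), M.φ p r (2 * p + t * (2 * r - 2 * p))⟩
  | pole s k _, t => ⟨2 * k * min 1 (3 * t), sg s * (3 - 3 * t)⟩
  | mid, t => ⟨0, 3 - 6 * t⟩

/-- the images of the curves -/
def S : Arc M → Set ℂ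
  | edge p r _ => {z | 2 * p ≤ z.re ∧ z.re ≤ 2 * r ∧ z.im = M.φ p r z.re}
  | pole s k _ => {z | 0 ≤ sg s * z.im ∧ sg s * z.im ≤ 3 ∧ z.re = 2 * k * min 1 (3 - sg s * z.im)}
  | mid => {z | z.re = 0 ∧ -3 ≤ z.im ∧ z.im ≤ 3}

/-- the first end -/
def src : Arc M → ℕ
  | edge p _ _ => p
  | pole s _ _ => if s then 0 else M.N + 1
  | mid => 0

/-- the second end -/
def tgt : Arc M → ℕ
  | edge _ r _ => r
  | pole _ k _ => k
  | mid => M.N + 1

theorem src_le (k : Arc M) : k.src ≤ M.N + 1 := by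
  rcases k with ⟨p, r, h⟩ | ⟨s, k, h⟩ | _
  · have := M.lt p r h; simp only [src]; omega
  · simp only [src]; split_ifs <;> omega
  · simp [src]

theorem tgt_le (k : Arc M) : k.tgt ≤ M.N + 1 := by
  rcases k with ⟨p, r, h⟩ | ⟨s, k, h⟩ | _
  · have := M.lt p r h; simp only [tgt]; omega
  · simp only [tgt]; omega
  · simp [tgt]

theorem continuous_cur (k : Arc M) : Continuous k.cur := by
  rcases k with ⟨p, r, h⟩ | ⟨s, k, h⟩ | _
  · refine continuous_mk' (by fun_prop) ?_
    exact Mono.φ_continuous.comp (by fun_prop)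
  · exact continuous_mk' (by fun_prop) (by fun_prop)
  · exact continuous_mk' (by fun_prop) (by fun_prop)

/-- the points of the vertices -/
noncomputable def ptN (N i : ℕ) : ℂ :=
  if i = 0 then ⟨0, 3⟩ else if i = N + 1 then ⟨0, -3⟩ else ⟨2 * i, 0⟩

theorem ptN_zero (N : ℕ) : ptN N 0 = ⟨0, 3⟩ := by simp [ptN]

theorem ptN_last (N : ℕ) : ptN N (N + 1) = ⟨0, -3⟩ := by simp [ptN]

theorem ptN_mid {N i : ℕ} (h1 : 1 ≤ i) (h2 : i ≤ N) : ptN N i = ⟨2 * i, 0⟩ := by
  unfold ptN
  rw [if_neg (by omega), if_neg (by omega)]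

theorem ptN_inj {N i j : ℕ} (h : ptN N i = ptN N j) : i = j := by
  unfold ptN at h
  have h1 := congrArg Complex.re h
  have h2 := congrArg Complex.im h
  split_ifs at h1 h2 <;> simp at h1 h2 <;> first | omega | (exfalso; linarith)

theorem cur_zero (k : Arc M) : k.cur 0 = ptN M.N k.src := by
  rcases k with ⟨p, r, h⟩ | ⟨s, k, h⟩ | _
  · have hlt := M.lt p r h
    simp only [src]
    rw [ptN_mid hlt.1 (by omega)]
    simp only [cur]
    have e : (2 * p + 0 * (2 * r - 2 * p) : ℝ) = ((2 * p : ℕ) : ℝ) := by push_cast; ring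
    rw [e, Mono.φ_nat h (by omega), Mono.h_left le_rfl]
    push_cast
    rfl
  · simp only [src]
    cases s
    · simp [ptN, cur, sg]
    · simp [ptN, cur, sg]
  · simp [src, ptN, cur]

theorem cur_one (k : Arc M) : k.cur 1 = ptN M.N k.tgt := by
  rcases k with ⟨p, r, h⟩ | ⟨s, k, h⟩ | _
  · have hlt := M.lt p r h
    simp only [tgt]
    rw [ptN_mid (by omega) (by omega)]
    simp only [cur]
    have e : (2 * p + 1 * (2 * r - 2 * p) : ℝ) = ((2 * r : ℕ) : ℝ) := by push_cast; ring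
    rw [e, Mono.φ_nat h (by omega), Mono.h_right le_rfl]
    push_cast
    rfl
  · simp only [tgt]
    rw [ptN_mid h.1 h.2]
    simp [cur]
  · simp [tgt, ptN, cur]
    norm_num

theorem cur_inj (k : Arc M) (s t : ℝ) (h : k.cur s = k.cur t) : s = t := by
  rcases k with ⟨p, r, hE⟩ | ⟨σ, k, hk⟩ | _
  · have h1 := congrArg Complex.re h
    simp only [cur] at h1
    have hlt : (p : ℝ) < r := by exact_mod_cast (M.lt p r hE).2.1
    have : (s - t) * (2 * r - 2 * p) = 0 := by linear_combination h1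
    have := (mul_eq_zero.1 this).resolve_right (by linarith)
    linarith
  · have h1 := congrArg Complex.im h
    simp only [cur] at h1
    rcases sg_cases σ with h2 | h2 <;> rw [h2] at h1 <;> linarith
  · have h1 := congrArg Complex.im h
    simp only [cur] at h1
    linarith

theorem image_cur (k : Arc M) : k.cur '' Icc (0 : ℝ) 1 = k.S := by
  ext z
  constructor
  · rintro ⟨t, ⟨ht0, ht1⟩, rfl⟩
    rcases k with ⟨p, r, hE⟩ | ⟨σ, k, hk⟩ | _
    · have hlt : (p : ℝ) < r := by exact_mod_cast (M.lt p r hE).2.1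
      simp only [cur, S, mem_ofPred_eq, and_true]
      constructor <;> nlinarith
    · simp only [cur, S, mem_ofPred_eq]
      have e : sg σ * (sg σ * (3 - 3 * t)) = 3 - 3 * t := by rw [← mul_assoc, sg_sq, one_mul]
      rw [e]
      refine ⟨by linarith, by linarith, ?_⟩
      congr 2
      ring
    · simp only [cur, S, mem_ofPred_eq, true_and]
      constructor <;> linarith
  · intro hz
    rcases k with ⟨p, r, hE⟩ | ⟨σ, k, hk⟩ | _
    · have hlt : (p : ℝ) < r := by exact_mod_cast (M.lt p r hE).2.1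
      obtain ⟨h1, h2, h3⟩ := hz
      have hpos : (0 : ℝ) < 2 * r - 2 * p := by linarith
      refine ⟨(z.re - 2 * p) / (2 * r - 2 * p), ⟨div_nonneg (by linarith) hpos.le, ?_⟩, ?_⟩
      · rw [div_le_one hpos]; linarith
      · simp only [cur]
        rw [div_mul_cancel₀ _ hpos.ne', add_sub_cancel, ← h3]
    · obtain ⟨h1, h2, h3⟩ := hz
      refine ⟨(3 - sg σ * z.im) / 3, ⟨by linarith, by linarith⟩, ?_⟩
      simp only [cur]
      rw [show 3 * ((3 - sg σ * z.im) / 3) = 3 - sg σ * z.im by ring, ← h3]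
      rw [show sg σ * (3 - (3 - sg σ * z.im)) = (sg σ * sg σ) * z.im by ring, sg_sq, one_mul]
    · obtain ⟨h1, h2, h3⟩ := hz
      refine ⟨(3 - z.im) / 6, ⟨by linarith, by linarith⟩, ?_⟩
      simp only [cur]
      apply Complex.ext
      · exact h1.symm
      · simp only; ring

/-- `z` is the point of a vertex -/
def IsV (M : Mono) (z : ℂ) : Prop := ∃ i ≤ M.N + 1, z = ptN M.N i

theorem isV_col {z : ℂ} {k : ℕ} (h1 : 1 ≤ k) (h2 : k ≤ M.N) (hre : z.re = 2 * k)
    (him : z.im = 0) : IsV M z := by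
  refine ⟨k, by omega, ?_⟩
  rw [ptN_mid h1 h2]
  exact Complex.ext hre him

theorem isV_pole {z : ℂ} (s : Bool) (hre : z.re = 0) (him : sg s * z.im = 3) : IsV M z := by
  cases s
  · refine ⟨M.N + 1, le_rfl, ?_⟩
    rw [ptN_last]
    simp only [sg] at him
    refine Complex.ext hre ?_
    simp only
    simp at him
    linarith
  · refine ⟨0, by omega, ?_⟩
    rw [ptN_zero]
    simp only [sg] at him
    refine Complex.ext hre ?_
    simp only
    simp at him
    linarith

theorem edge_pos {p r : ℕ} {hE : M.E p r} {z : ℂ} (h : z ∈ (edge p r hE).S) : 0 < z.re := by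
  have : (1 : ℝ) ≤ p := by exact_mod_cast (M.lt p r hE).1
  have := h.1
  linarith

theorem edge_abs {p r : ℕ} {hE : M.E p r} {z : ℂ} (h : z ∈ (edge p r hE).S) : |z.im| < 3 / 2 := by
  rw [h.2.2]
  exact Mono.φ_abs hE h.1 h.2.1

theorem edge_mid {p r : ℕ} {hE : M.E p r} {z : ℂ} (h : z ∈ (edge p r hE).S)
    (h' : z ∈ (mid : Arc M).S) : False := by
  have := edge_pos h
  have := h'.1
  linarith

theorem edge_pole {p r : ℕ} {hE : M.E p r} {s : Bool} {k : ℕ} {hk : 1 ≤ k ∧ k ≤ M.N} {z : ℂ}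
    (h : z ∈ (edge p r hE).S) (h' : z ∈ (pole s k hk).S) : z.re = 2 * k := by
  have h1 := edge_abs h
  rw [abs_lt] at h1
  have h2 := h'.2.2
  have h3 : (1 : ℝ) ≤ 3 - sg s * z.im := by
    rcases sg_cases s with h3 | h3 <;> rw [h3] <;> linarith [h1.1, h1.2]
  rw [min_eq_left h3, mul_one] at h2
  exact h2

theorem edge_edge {p r p' r' : ℕ} {hE : M.E p r} {hE' : M.E p' r'} {z : ℂ}
    (h : z ∈ (edge p r hE).S) (h' : z ∈ (edge p' r' hE').S) : M.φ p r z.re = M.φ p' r' z.re :=
  h.2.2.symm.trans h'.2.2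

theorem min_zero {k : ℕ} (hk : 1 ≤ k) {a : ℝ} (h : 2 * (k : ℝ) * min 1 a = 0) : a = 0 := by
  have hk' : (0 : ℝ) < 2 * k := by
    have : (1 : ℝ) ≤ k := by exact_mod_cast hk
    linarith
  have := (mul_eq_zero.1 h).resolve_left hk'.ne'
  rcases min_choice (1 : ℝ) a with h3 | h3 <;> rw [h3] at this
  · norm_num at this
  · exact this

theorem pole_mid {s : Bool} {k : ℕ} {hk : 1 ≤ k ∧ k ≤ M.N} {z : ℂ} (h : z ∈ (pole s k hk).S)
    (h' : z ∈ (mid : Arc M).S) : z.re = 0 ∧ sg s * z.im = 3 := by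
  have h1 := h.2.2
  rw [h'.1] at h1
  have := min_zero hk.1 h1.symm
  exact ⟨h'.1, by linarith⟩

theorem pole_pole {s : Bool} {k k' : ℕ} {hk : 1 ≤ k ∧ k ≤ M.N} {hk' : 1 ≤ k' ∧ k' ≤ M.N} {z : ℂ}
    (h : z ∈ (pole s k hk).S) (h' : z ∈ (pole s k' hk').S) (hne : k ≠ k') :
    z.re = 0 ∧ sg s * z.im = 3 := by
  have h1 := h.2.2
  have h2 := h'.2.2
  have h3 : (k : ℝ) - k' ≠ 0 := sub_ne_zero.2 (by exact_mod_cast hne)
  have h4 : ((k : ℝ) - k') * min 1 (3 - sg s * z.im) = 0 := by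
    rw [h1] at h2
    linear_combination h2 / 2
  have h5 := (mul_eq_zero.1 h4).resolve_left h3
  rw [h5, mul_zero] at h1
  refine ⟨h1, ?_⟩
  rcases min_choice (1 : ℝ) (3 - sg s * z.im) with h6 | h6 <;> rw [h6] at h5
  · norm_num at h5
  · linarith

theorem pole_pole' {s s' : Bool} {k k' : ℕ} {hk : 1 ≤ k ∧ k ≤ M.N} {hk' : 1 ≤ k' ∧ k' ≤ M.N}
    {z : ℂ} (h : z ∈ (pole s k hk).S) (h' : z ∈ (pole s' k' hk').S) (hne : s ≠ s') :
    z.re = 2 * k ∧ z.im = 0 := by
  have h0 : z.im = 0 := by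
    have h1 := h.1
    have h2 := h'.1
    cases s <;> cases s' <;> simp [sg] at h1 h2 hne <;> linarith
  refine ⟨?_, h0⟩
  have h1 := h.2.2
  rw [h0, mul_zero, sub_zero, min_eq_left (by norm_num), mul_one] at h1
  exact h1

/-- two arcs have at most one common point -/
theorem common (k k' : Arc M) (hne : k ≠ k') {z w : ℂ} (hz : z ∈ k.S) (hz' : z ∈ k'.S)
    (hw : w ∈ k.S) (hw' : w ∈ k'.S) : z = w := by
  have ep : ∀ {p r : ℕ} {hE : M.E p r} {s : Bool} {k : ℕ} {hk : 1 ≤ k ∧ k ≤ M.N},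
      z ∈ (edge p r hE).S → z ∈ (pole s k hk).S → w ∈ (edge p r hE).S → w ∈ (pole s k hk).S →
      z = w := by
    intro p r hE s k hk h1 h2 h3 h4
    have e1 := edge_pole h1 h2
    have e2 := edge_pole h3 h4
    refine Complex.ext (e1.trans e2.symm) ?_
    rw [h1.2.2, h3.2.2, e1, e2]
  have pm : ∀ {s : Bool} {k : ℕ} {hk : 1 ≤ k ∧ k ≤ M.N},
      z ∈ (pole s k hk).S → z ∈ (mid : Arc M).S → w ∈ (pole s k hk).S → w ∈ (mid : Arc M).S →
      z = w := by
    intro s k hk h1 h2 h3 h4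
    have e1 := pole_mid h1 h2
    have e2 := pole_mid h3 h4
    refine Complex.ext (e1.1.trans e2.1.symm) ?_
    have := e1.2.trans e2.2.symm
    rcases sg_cases s with h | h <;> rw [h] at this <;> linarith
  rcases k with ⟨p, r, hE⟩ | ⟨s, a, ha⟩ | _ <;> rcases k' with ⟨p', r', hE'⟩ | ⟨s', a', ha'⟩ | _
  · have hpr : (p, r) ≠ (p', r') := by
      rintro h
      apply hne
      rw [Prod.mk.injEq] at h
      obtain ⟨rfl, rfl⟩ := h
      rfl
    have := Mono.unique hE hE' hpr hz.1 hz'.1 hz.2.1 hz'.2.1 (edge_edge hz hz') hw.1 hw'.1 hw.2.1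
      hw'.2.1 (edge_edge hw hw')
    refine Complex.ext this ?_
    rw [hz.2.2, hw.2.2, this]
  · exact ep hz hz' hw hw'
  · exact (edge_mid hz hz').elim
  · exact ep hz' hz hw' hw
  · by_cases hs : s = s'
    · subst hs
      have hk : a ≠ a' := by rintro rfl; exact hne rfl
      have e1 := pole_pole hz hz' hk
      have e2 := pole_pole hw hw' hk
      refine Complex.ext (e1.1.trans e2.1.symm) ?_
      have := e1.2.trans e2.2.symm
      rcases sg_cases s with h | h <;> rw [h] at this <;> linarith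
    · have e1 := pole_pole' hz hz' hs
      have e2 := pole_pole' hw hw' hs
      exact Complex.ext (e1.1.trans e2.1.symm) (e1.2.trans e2.2.symm)
  · exact pm hz hz' hw hw'
  · exact (edge_mid hz' hz).elim
  · exact pm hz' hz hw' hw
  · exact absurd rfl hne

/-- a crossing of an edge and the arc of a pole -/
theorem proper_pole {p r : ℕ} {hE : M.E p r} {s : Bool} {k : ℕ} {hk : 1 ≤ k ∧ k ≤ M.N} {z : ℂ}
    (h : z ∈ (edge p r hE).S) (h' : z ∈ (pole s k hk).S) (hv : ¬ IsV M z) :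
    IsProperCrossing (edge p r hE).S (pole s k hk).S z := by
  have hlt := M.lt p r hE
  have hre := edge_pole h h'
  have habs := edge_abs h
  rw [abs_lt] at habs
  have him : z.im ≠ 0 := fun h0 => hv (isV_col hk.1 hk.2 hre h0)
  have h1 : 0 < sg s * z.im := by
    rcases h'.1.lt_or_eq with h1 | h1
    · exact h1
    · exfalso
      rcases mul_eq_zero.1 h1.symm with h2 | h2
      · rcases sg_cases s with h3 | h3 <;> rw [h3] at h2 <;> norm_num at h2
      · exact him h2
  have hp : (2 * p : ℝ) < z.re := by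
    refine lt_of_le_of_ne h.1 fun h2 => him ?_
    rw [h.2.2, ← h2, show (2 * p : ℝ) = ((2 * p : ℕ) : ℝ) by push_cast; ring,
      Mono.φ_nat hE (by omega), Mono.h_left le_rfl]
  have hr : z.re < 2 * r := by
    refine lt_of_le_of_ne h.2.1 fun h2 => him ?_
    rw [h.2.2, h2, show (2 * r : ℝ) = ((2 * r : ℕ) : ℝ) by push_cast; ring,
      Mono.φ_nat hE (by omega), Mono.h_right le_rfl]
  refine crossing_of_homeo (shear (2 * k) (M.φ p r) Mono.φ_continuous)
    (U := {w | 2 * p < w.re ∧ w.re < 2 * r ∧ 0 < sg s * w.im ∧ sg s * w.im < 2}) ?_ ?_ ?_ ?_ ?_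
  · have hc : Continuous fun w : ℂ => sg s * w.im := by fun_prop
    exact (isOpen_lt continuous_const Complex.continuous_re).inter
      ((isOpen_lt Complex.continuous_re continuous_const).inter
        ((isOpen_lt continuous_const hc).inter (isOpen_lt hc continuous_const)))
  · refine ⟨hp, hr, h1, ?_⟩
    rcases sg_cases s with h3 | h3 <;> rw [h3] <;> linarith [habs.1, habs.2]
  · show (z.re - 2 * k, z.im - M.φ p r z.re) = (0, 0)
    rw [hre, h.2.2, hre]; simp
  · rintro w ⟨w1, w2, w3, w4⟩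
    show (2 * p ≤ w.re ∧ w.re ≤ 2 * r ∧ w.im = M.φ p r w.re) ↔ w.im - M.φ p r w.re = 0
    constructor
    · rintro ⟨-, -, h3⟩; rw [h3, sub_self]
    · intro h3; exact ⟨w1.le, w2.le, by linarith⟩
  · rintro w ⟨w1, w2, w3, w4⟩
    show (0 ≤ sg s * w.im ∧ sg s * w.im ≤ 3 ∧ w.re = 2 * k * min 1 (3 - sg s * w.im)) ↔
      w.re - 2 * k = 0
    rw [min_eq_left (by linarith), mul_one]
    constructor
    · rintro ⟨-, -, h3⟩; rw [h3, sub_self]
    · intro h3; exact ⟨w3.le, by linarith, by linarith⟩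

/-- a crossing of two edges -/
theorem proper_edge {p r p' r' : ℕ} {hE : M.E p r} {hE' : M.E p' r'} (hne : (p, r) ≠ (p', r'))
    {z : ℂ} (h : z ∈ (edge p r hE).S) (h' : z ∈ (edge p' r' hE').S) (hv : ¬ IsV M z) :
    IsProperCrossing (edge p r hE).S (edge p' r' hE').S z := by
  have hlt := M.lt p r hE
  have hlt' := M.lt p' r' hE'
  have vert : ∀ k : ℕ, p ≤ k → k ≤ r → (k = p ∨ k = r) → z.re = 2 * k → False := by
    intro k h1 h2 h3 h4
    apply hv
    refine isV_col (k := k) (by omega) (by omega) h4 ?_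
    rw [h.2.2, h4, show (2 * k : ℝ) = ((2 * k : ℕ) : ℝ) by push_cast; ring,
      Mono.φ_nat hE (by omega)]
    rcases h3 with h3 | h3
    · rw [Mono.h_left (by omega)]
    · rw [Mono.h_right (by omega)]
  have vert' : ∀ k : ℕ, p' ≤ k → k ≤ r' → (k = p' ∨ k = r') → z.re = 2 * k → False := by
    intro k h1 h2 h3 h4
    apply hv
    refine isV_col (k := k) (by omega) (by omega) h4 ?_
    rw [h'.2.2, h4, show (2 * k : ℝ) = ((2 * k : ℕ) : ℝ) by push_cast; ring,
      Mono.φ_nat hE' (by omega)]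
    rcases h3 with h3 | h3
    · rw [Mono.h_left (by omega)]
    · rw [Mono.h_right (by omega)]
  have h1 : p < r' := by
    have : (2 * p : ℝ) ≤ 2 * r' := by linarith [h.1, h'.2.1]
    have : ((2 * p : ℕ) : ℝ) ≤ (2 * r' : ℕ) := by push_cast; exact this
    have := Nat.cast_le.1 this
    rcases (show p ≤ r' by omega).lt_or_eq with h2 | h2
    · exact h2
    · exfalso
      subst h2
      exact vert p le_rfl (by omega) (Or.inl rfl) (le_antisymm h'.2.1 h.1)
  have h2 : p' < r := by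
    have : (2 * p' : ℝ) ≤ 2 * r := by linarith [h'.1, h.2.1]
    have : ((2 * p' : ℕ) : ℝ) ≤ (2 * r : ℕ) := by push_cast; exact this
    have := Nat.cast_le.1 this
    rcases (show p' ≤ r by omega).lt_or_eq with h3 | h3
    · exact h3
    · exfalso
      subst h3
      exact vert' p' le_rfl (by omega) (Or.inl rfl) (le_antisymm h.2.1 h'.1)
  rcases Mono.zero_cases hE hE' hne h1 h2 h.1 h'.1 h.2.1 h'.2.1 (edge_edge h h') with
    (h3 | h3) | ⟨⟨g1, g2, b1, b2, b3, b4⟩, h3⟩
  · exact (vert p le_rfl (by omega) (Or.inl rfl) h3.1).elim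
  · exact (vert r (by omega) le_rfl (Or.inr rfl) h3.1).elim
  · set j := ⌊z.re⌋₊ with hj
    have hd : (M.h p r (j + 1) - M.h p r j) - (M.h p' r' (j + 1) - M.h p' r' j) ≠ 0 := by
      unfold Mono.d at h3
      rcases h3 with h3 | h3
      · exact (by linarith [h3.2.2.1, h3.2.2.2] :
          (M.h p r (j + 1) - M.h p r j) - (M.h p' r' (j + 1) - M.h p' r' j) < 0).ne
      · exact (by linarith [h3.2.2.1, h3.2.2.2] :
          0 < (M.h p r (j + 1) - M.h p r j) - (M.h p' r' (j + 1) - M.h p' r' j)).ne'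
    have f1 : ∀ w : ℂ, (j : ℝ) < w.re → w.re < j + 1 → M.φ p r w.re =
        (M.h p r j - (M.h p r (j + 1) - M.h p r j) * j) +
          (M.h p r (j + 1) - M.h p r j) * w.re := by
      intro w w1 w2
      rw [Mono.φ_eq hE b3 w1.le w2.le]; ring
    have f2 : ∀ w : ℂ, (j : ℝ) < w.re → w.re < j + 1 → M.φ p' r' w.re =
        (M.h p' r' j - (M.h p' r' (j + 1) - M.h p' r' j) * j) +
          (M.h p' r' (j + 1) - M.h p' r' j) * w.re := by
      intro w w1 w2
      rw [Mono.φ_eq hE' b4 w1.le w2.le]; ring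
    have c1 : (2 * p : ℝ) ≤ j := by exact_mod_cast b1
    have c2 : (2 * p' : ℝ) ≤ j := by exact_mod_cast b2
    have c3 : (j : ℝ) + 1 ≤ 2 * r := by exact_mod_cast b3
    have c4 : (j : ℝ) + 1 ≤ 2 * r' := by exact_mod_cast b4
    refine crossing_of_homeo (affineChart (M.h p r j - (M.h p r (j + 1) - M.h p r j) * j) _
      (M.h p' r' j - (M.h p' r' (j + 1) - M.h p' r' j) * j) _ hd)
      (U := {w | (j : ℝ) < w.re ∧ w.re < j + 1}) ?_ ⟨g1, g2⟩ ?_ ?_ ?_
    · exact (isOpen_lt continuous_const Complex.continuous_re).inter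
        (isOpen_lt Complex.continuous_re continuous_const)
    · show (z.im - ((M.h p' r' j - (M.h p' r' (j + 1) - M.h p' r' j) * j) +
          (M.h p' r' (j + 1) - M.h p' r' j) * z.re),
        z.im - ((M.h p r j - (M.h p r (j + 1) - M.h p r j) * j) +
          (M.h p r (j + 1) - M.h p r j) * z.re)) = (0, 0)
      rw [← f1 z g1 g2, ← f2 z g1 g2, ← h.2.2, ← h'.2.2, sub_self]
    · rintro w ⟨w1, w2⟩
      show (2 * p ≤ w.re ∧ w.re ≤ 2 * r ∧ w.im = M.φ p r w.re) ↔
        w.im - ((M.h p r j - (M.h p r (j + 1) - M.h p r j) * j) +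
          (M.h p r (j + 1) - M.h p r j) * w.re) = 0
      rw [← f1 w w1 w2]
      constructor
      · rintro ⟨-, -, h3⟩; rw [h3, sub_self]
      · intro h3; exact ⟨by linarith, by linarith, by linarith⟩
    · rintro w ⟨w1, w2⟩
      show (2 * p' ≤ w.re ∧ w.re ≤ 2 * r' ∧ w.im = M.φ p' r' w.re) ↔
        w.im - ((M.h p' r' j - (M.h p' r' (j + 1) - M.h p' r' j) * j) +
          (M.h p' r' (j + 1) - M.h p' r' j) * w.re) = 0
      rw [← f2 w w1 w2]
      constructor
      · rintro ⟨-, -, h3⟩; rw [h3, sub_self]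
      · intro h3; exact ⟨by linarith, by linarith, by linarith⟩

theorem proper (k k' : Arc M) (hne : k ≠ k') {z : ℂ} (hz : z ∈ k.S) (hz' : z ∈ k'.S)
    (hv : ¬ IsV M z) : IsProperCrossing k.S k'.S z := by
  rcases k with ⟨p, r, hE⟩ | ⟨s, a, ha⟩ | _ <;> rcases k' with ⟨p', r', hE'⟩ | ⟨s', a', ha'⟩ | _
  · have hpr : (p, r) ≠ (p', r') := by
      rintro h
      apply hne
      rw [Prod.mk.injEq] at h
      obtain ⟨rfl, rfl⟩ := h
      rfl
    exact proper_edge hpr hz hz' hv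
  · exact proper_pole hz hz' hv
  · exact (edge_mid hz hz').elim
  · exact (proper_pole hz' hz hv).symm
  · exfalso
    by_cases hs : s = s'
    · subst hs
      have hk : a ≠ a' := by rintro rfl; exact hne rfl
      have e1 := pole_pole hz hz' hk
      exact hv (isV_pole s e1.1 e1.2)
    · have e1 := pole_pole' hz hz' hs
      exact hv (isV_col ha.1 ha.2 e1.1 e1.2)
  · have e1 := pole_mid hz hz'
    exact (hv (isV_pole s e1.1 e1.2)).elim
  · exact (edge_mid hz' hz).elim
  · have e1 := pole_mid hz' hz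
    exact (hv (isV_pole s' e1.1 e1.2)).elim
  · exact absurd rfl hne

/-- two edges and an arc of a pole -/
theorem triple_eep {p r p' r' : ℕ} {hE : M.E p r} {hE' : M.E p' r'} (hne : (p, r) ≠ (p', r'))
    {s : Bool} {k : ℕ} {hk : 1 ≤ k ∧ k ≤ M.N} {z : ℂ} (h : z ∈ (edge p r hE).S)
    (h' : z ∈ (edge p' r' hE').S) (h'' : z ∈ (pole s k hk).S) : IsV M z := by
  by_contra hv
  have hre := edge_pole h h''
  have h1 := proper_edge hne h h' hv
  have hlt := M.lt p r hE
  have hlt' := M.lt p' r' hE'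
  have b1 : p ≤ k := by
    have : (2 * p : ℝ) ≤ 2 * k := by linarith [h.1]
    have : ((2 * p : ℕ) : ℝ) ≤ (2 * k : ℕ) := by push_cast; exact this
    have := Nat.cast_le.1 this
    omega
  have b2 : p' ≤ k := by
    have : (2 * p' : ℝ) ≤ 2 * k := by linarith [h'.1]
    have : ((2 * p' : ℕ) : ℝ) ≤ (2 * k : ℕ) := by push_cast; exact this
    have := Nat.cast_le.1 this
    omega
  have b3 : k ≤ r := by
    have : (2 * k : ℝ) ≤ 2 * r := by linarith [h.2.1]
    have : ((2 * k : ℕ) : ℝ) ≤ (2 * r : ℕ) := by push_cast; exact this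
    have := Nat.cast_le.1 this
    omega
  have b4 : k ≤ r' := by
    have : (2 * k : ℝ) ≤ 2 * r' := by linarith [h'.2.1]
    have : ((2 * k : ℕ) : ℝ) ≤ (2 * r' : ℕ) := by push_cast; exact this
    have := Nat.cast_le.1 this
    omega
  have c1 : k ≠ p := by
    rintro rfl
    apply hv
    refine isV_col hk.1 hk.2 hre ?_
    rw [h.2.2, hre, show (2 * k : ℝ) = ((2 * k : ℕ) : ℝ) by push_cast; ring,
      Mono.φ_nat hE (by omega), Mono.h_left le_rfl]
  have c2 : k ≠ p' := by
    rintro rfl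
    apply hv
    refine isV_col hk.1 hk.2 hre ?_
    rw [h'.2.2, hre, show (2 * k : ℝ) = ((2 * k : ℕ) : ℝ) by push_cast; ring,
      Mono.φ_nat hE' (by omega), Mono.h_left le_rfl]
  have c3 : k ≠ r := by
    rintro rfl
    apply hv
    refine isV_col hk.1 hk.2 hre ?_
    rw [h.2.2, hre, show (2 * k : ℝ) = ((2 * k : ℕ) : ℝ) by push_cast; ring,
      Mono.φ_nat hE (by omega), Mono.h_right le_rfl]
  have c4 : k ≠ r' := by
    rintro rfl
    apply hv
    refine isV_col hk.1 hk.2 hre ?_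
    rw [h'.2.2, hre, show (2 * k : ℝ) = ((2 * k : ℕ) : ℝ) by push_cast; ring,
      Mono.φ_nat hE' (by omega), Mono.h_right le_rfl]
  rcases Mono.zero_cases hE hE' hne (by omega) (by omega) h.1 h'.1 h.2.1 h'.2.1
    (edge_edge h h') with (h3 | h3) | ⟨⟨g1, g2, -⟩, h3⟩
  · rw [hre] at h3
    have : (k : ℝ) = p := by linarith [h3.1]
    exact c1 (by exact_mod_cast this)
  · rw [hre] at h3
    have : (k : ℝ) = r := by linarith [h3.1]
    exact c3 (by exact_mod_cast this)
  · rw [hre] at g1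
    have : ((2 * k : ℕ) : ℝ) = 2 * (k : ℝ) := by push_cast; ring
    rw [← this, Nat.floor_natCast] at g1
    exact lt_irrefl _ g1

theorem triple (k k' k'' : Arc M) (n1 : k ≠ k') (n2 : k ≠ k'') (n3 : k' ≠ k'') {z : ℂ}
    (hz : z ∈ k.S) (hz' : z ∈ k'.S) (hz'' : z ∈ k''.S) : IsV M z := by
  have pp : ∀ {s s' : Bool} {a a' : ℕ} {ha : 1 ≤ a ∧ a ≤ M.N} {ha' : 1 ≤ a' ∧ a' ≤ M.N},
      (pole s a ha : Arc M) ≠ pole s' a' ha' → z ∈ (pole s a ha : Arc M).S →
      z ∈ (pole s' a' ha' : Arc M).S → IsV M z := by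
    intro s s' a a' ha ha' hne h h'
    by_cases hs : s = s'
    · subst hs
      have hk : a ≠ a' := by rintro rfl; exact hne rfl
      have e1 := pole_pole h h' hk
      exact isV_pole s e1.1 e1.2
    · have e1 := pole_pole' h h' hs
      exact isV_col ha.1 ha.2 e1.1 e1.2
  have pm : ∀ {s : Bool} {a : ℕ} {ha : 1 ≤ a ∧ a ≤ M.N}, z ∈ (pole s a ha : Arc M).S →
      z ∈ (mid : Arc M).S → IsV M z := by
    intro s a ha h h'
    have e1 := pole_mid h h'
    exact isV_pole s e1.1 e1.2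
  have ne_pair : ∀ {p r p' r' : ℕ} {hE : M.E p r} {hE' : M.E p' r'},
      (edge p r hE : Arc M) ≠ edge p' r' hE' → (p, r) ≠ (p', r') := by
    intro p r p' r' hE hE' hne h
    apply hne
    rw [Prod.mk.injEq] at h
    obtain ⟨rfl, rfl⟩ := h
    rfl
  rcases k with ⟨p, r, hE⟩ | ⟨s, a, ha⟩ | _ <;>
    rcases k' with ⟨p', r', hE'⟩ | ⟨s', a', ha'⟩ | _ <;>
    rcases k'' with ⟨p'', r'', hE''⟩ | ⟨s'', a'', ha''⟩ | _
  · -- three edges
    have hlt := M.lt p r hE
    have hlt' := M.lt p' r' hE'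
    have := Mono.three hE hE' hE'' (ne_pair n1) (ne_pair n2) (ne_pair n3) hz.1 hz'.1 hz''.1
      hz.2.1 hz'.2.1 hz''.2.1 (edge_edge hz hz') (edge_edge hz hz'')
    rcases this with h | h | h | h
    · refine isV_col (k := p) (by omega) (by omega) h ?_
      rw [hz.2.2, h, show (2 * p : ℝ) = ((2 * p : ℕ) : ℝ) by push_cast; ring,
        Mono.φ_nat hE (by omega), Mono.h_left le_rfl]
    · refine isV_col (k := r) (by omega) (by omega) h ?_
      rw [hz.2.2, h, show (2 * r : ℝ) = ((2 * r : ℕ) : ℝ) by push_cast; ring,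
        Mono.φ_nat hE (by omega), Mono.h_right le_rfl]
    · refine isV_col (k := p') (by omega) (by omega) h ?_
      rw [hz'.2.2, h, show (2 * p' : ℝ) = ((2 * p' : ℕ) : ℝ) by push_cast; ring,
        Mono.φ_nat hE' (by omega), Mono.h_left le_rfl]
    · refine isV_col (k := r') (by omega) (by omega) h ?_
      rw [hz'.2.2, h, show (2 * r' : ℝ) = ((2 * r' : ℕ) : ℝ) by push_cast; ring,
        Mono.φ_nat hE' (by omega), Mono.h_right le_rfl]
  all_goals first
    | exact (edge_mid hz hz').elim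
    | exact (edge_mid hz hz'').elim
    | exact (edge_mid hz' hz).elim
    | exact (edge_mid hz' hz'').elim
    | exact (edge_mid hz'' hz).elim
    | exact (edge_mid hz'' hz').elim
    | exact pp n1 hz hz'
    | exact pp n2 hz hz''
    | exact pp n3 hz' hz''
    | exact pm hz hz'
    | exact pm hz hz''
    | exact pm hz' hz
    | exact pm hz' hz''
    | exact pm hz'' hz
    | exact pm hz'' hz'
    | exact absurd rfl n1
    | exact absurd rfl n2
    | exact absurd rfl n3
    | exact triple_eep (ne_pair n1) hz hz' hz''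
    | exact triple_eep (ne_pair n2) hz hz'' hz'
    | exact triple_eep (ne_pair n3) hz' hz'' hz

end Arc

end Pool.Agent.helper506_rot
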