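import Pool.Agent.helper506_rot.PL4

/-!
# The drawing, and its rotation system
-/

set_option autoImplicit false

namespace Pool.Agent.helper506_rot

open Complex Set Filter Topology

/-- adjacency of numbered vertices -/
def AdjN (M : Mono) (i j : ℕ) : Prop :=
  i ≠ j ∧ (i = 0 ∨ j = 0 ∨ i = M.N + 1 ∨ j = M.N + 1 ∨ M.E i j ∨ M.E j i)

namespace Arc

variable {M : Mono}

theorem adjN_iff {i j : ℕ} (hi : i ≤ M.N + 1) (hj : j ≤ M.N + 1) :
    AdjN M i j ↔ ∃ k : Arc M, (k.src = i ∧ k.tgt = j) ∨ (k.src = j ∧ k.tgt = i) := by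
  constructor
  · rintro ⟨hne, h⟩
    by_cases h1 : i = 0
    · by_cases h2 : j = M.N + 1
      · exact ⟨mid, Or.inl ⟨h1.symm, h2.symm⟩⟩
      · exact ⟨pole true j (by omega), Or.inl ⟨h1.symm, rfl⟩⟩
    by_cases h2 : j = 0
    · by_cases h3 : i = M.N + 1
      · exact ⟨mid, Or.inr ⟨h2.symm, h3.symm⟩⟩
      · exact ⟨pole true i (by omega), Or.inr ⟨h2.symm, rfl⟩⟩
    by_cases h3 : i = M.N + 1
    · exact ⟨pole false j (by omega), Or.inl ⟨h3.symm, rfl⟩⟩
    by_cases h4 : j = M.N + 1
    · exact ⟨pole false i (by omega), Or.inr ⟨h4.symm, rfl⟩⟩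
    rcases h with h | h | h | h | h | h
    · exact absurd h h1
    · exact absurd h h2
    · exact absurd h h3
    · exact absurd h h4
    · exact ⟨edge i j h, Or.inl ⟨rfl, rfl⟩⟩
    · exact ⟨edge j i h, Or.inr ⟨rfl, rfl⟩⟩
  · rintro ⟨k, h⟩
    rcases k with ⟨p, r, hE⟩ | ⟨s, a, ha⟩ | _
    · have := M.lt p r hE
      rcases h with ⟨rfl, rfl⟩ | ⟨rfl, rfl⟩
      · exact ⟨by simp only [src, tgt]; omega, by simp [src, tgt, hE]⟩
      · exact ⟨by simp only [src, tgt]; omega, by simp [src, tgt, hE]⟩
    · cases s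
      · rcases h with ⟨rfl, rfl⟩ | ⟨rfl, rfl⟩
        · exact ⟨by simp [src, tgt]; omega, by simp [src]⟩
        · exact ⟨by simp [src, tgt]; omega, by simp [src]⟩
      · rcases h with ⟨rfl, rfl⟩ | ⟨rfl, rfl⟩
        · exact ⟨by simp [src, tgt]; omega, by simp [src]⟩
        · exact ⟨by simp [src, tgt]; omega, by simp [src]⟩
    · rcases h with ⟨rfl, rfl⟩ | ⟨rfl, rfl⟩
      · exact ⟨by simp [src, tgt], by simp [src]⟩
      · exact ⟨by simp [src, tgt], by simp [src]⟩

theorem ends_inj {k k' : Arc M} (h : (k.src = k'.src ∧ k.tgt = k'.tgt) ∨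
    (k.src = k'.tgt ∧ k.tgt = k'.src)) : k = k' := by
  rcases k with ⟨p, r, hE⟩ | ⟨s, a, ha⟩ | _ <;> rcases k' with ⟨p', r', hE'⟩ | ⟨s', a', ha'⟩ | _
  · have := M.lt p r hE
    have := M.lt p' r' hE'
    simp only [src, tgt] at h
    obtain ⟨rfl, rfl⟩ : p = p' ∧ r = r' := by omega
    rfl
  · exfalso
    have := M.lt p r hE
    cases s' <;> simp [src, tgt] at h <;> omega
  · exfalso
    have := M.lt p r hE
    simp only [src, tgt] at h
    omega
  · exfalso
    have := M.lt p' r' hE'
    cases s <;> simp [src, tgt] at h <;> omega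
  · cases s <;> cases s'
    · simp only [src, tgt] at h
      obtain rfl : a = a' := by
        simp only [Bool.false_eq_true, if_false] at h
        omega
      rfl
    · exfalso
      simp [src, tgt] at h
      omega
    · exfalso
      simp [src, tgt] at h
      omega
    · simp only [src, tgt] at h
      obtain rfl : a = a' := by
        simp only [if_true] at h
        omega
      rfl
  · exfalso
    cases s <;> simp [src, tgt] at h <;> omega
  · exfalso
    have := M.lt p' r' hE'
    simp only [src, tgt] at h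
    omega
  · exfalso
    cases s' <;> simp [src, tgt] at h <;> omega
  · rfl

/-- the vertices on the arcs -/
theorem avoidN (k : Arc M) {i : ℕ} (hi : i ≤ M.N + 1) (h : ptN M.N i ∈ k.S) :
    i = k.src ∨ i = k.tgt := by
  rcases Nat.eq_zero_or_pos i with h0 | h0
  · subst h0
    rw [ptN_zero] at h
    rcases k with ⟨p, r, hE⟩ | ⟨s, a, ha⟩ | _
    · exfalso
      have := edge_pos h
      simp at this
    · cases s
      · exfalso
        have := h.1
        simp [sg] at this
        linarith
      · left; rfl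
    · left; rfl
  rcases Nat.lt_or_ge M.N i with h1 | h1
  · have e : i = M.N + 1 := by omega
    subst e
    rw [ptN_last] at h
    rcases k with ⟨p, r, hE⟩ | ⟨s, a, ha⟩ | _
    · exfalso
      have := edge_pos h
      simp at this
    · cases s
      · left; rfl
      · exfalso
        have := h.1
        simp [sg] at this
        linarith
    · right; rfl
  · rw [ptN_mid h0 h1] at h
    rcases k with ⟨p, r, hE⟩ | ⟨s, a, ha⟩ | _
    · obtain ⟨h2, h3, h4⟩ := h
      simp only at h2 h3 h4
      have b1 : p ≤ i := by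
        have : ((2 * p : ℕ) : ℝ) ≤ (2 * i : ℕ) := by push_cast; exact h2
        have := Nat.cast_le.1 this
        omega
      have b2 : i ≤ r := by
        have : ((2 * i : ℕ) : ℝ) ≤ (2 * r : ℕ) := by push_cast; exact h3
        have := Nat.cast_le.1 this
        omega
      by_contra hcon
      simp only [src, tgt] at hcon
      refine Mono.h_col_ne hE (k := i) (by omega) (by omega) ?_
      rw [← Mono.φ_nat hE (by omega)]
      push_cast
      exact h4.symm
    · right
      have h2 := h.2.2
      simp only [mul_zero, sub_zero] at h2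
      rw [min_eq_left (by norm_num), mul_one] at h2
      have : (i : ℝ) = a := by linarith
      exact_mod_cast this
    · exfalso
      have h2 := h.1
      simp only at h2
      have : (1 : ℝ) ≤ i := by exact_mod_cast h0
      linarith

/-- the directions in which the curves leave their first ends -/
noncomputable def dirS : Arc M → ℂ
  | edge p r _ => ⟨2 * r - 2 * p, (2 * r - 2 * p) * M.h p r (2 * p + 1)⟩
  | pole s k _ => ⟨6 * k, -3 * sg s⟩
  | mid => ⟨0, -6⟩

/-- the directions in which the curves leave their second ends -/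
noncomputable def dirT : Arc M → ℂ
  | edge p r _ => ⟨-(2 * r - 2 * p), (2 * r - 2 * p) * M.h p r (2 * r - 1)⟩
  | pole s _ _ => ⟨0, 3 * sg s⟩
  | mid => ⟨0, 6⟩

theorem lin_src (k : Arc M) : ∃ t₀ : ℝ, 0 < t₀ ∧ t₀ ≤ 1 ∧ ∀ t ∈ Icc 0 t₀,
    k.cur t = k.cur 0 + t * k.dirS := by
  rcases k with ⟨p, r, hE⟩ | ⟨s, a, ha⟩ | _
  · have hlt := M.lt p r hE
    have hpr : (p : ℝ) + 1 ≤ r := by exact_mod_cast hlt.2.1
    have hpos : (2 : ℝ) ≤ 2 * r - 2 * p := by linarith
    refine ⟨1 / (2 * r - 2 * p), by positivity, ?_, ?_⟩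
    · rw [div_le_one (by linarith)]; linarith
    · rintro t ⟨h0, h1⟩
      rw [le_div_iff₀ (by linarith)] at h1
      rw [cur_zero]
      simp only [src, dirS, cur]
      rw [ptN_mid hlt.1 (by omega)]
      have e1 : (((2 * p : ℕ) : ℕ) : ℝ) = 2 * p := by push_cast; ring
      rw [Mono.φ_eq hE (j := 2 * p) (by omega) (by rw [e1]; nlinarith) (by rw [e1]; linarith),
        Mono.h_left le_rfl, e1]
      apply Complex.ext
      · simp
      · simp; ring
  · refine ⟨1 / 3, by norm_num, by norm_num, ?_⟩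
    rintro t ⟨h0, h1⟩
    simp only [cur, dirS]
    rw [min_eq_right (by linarith), min_eq_right (by norm_num)]
    apply Complex.ext
    · simp; ring
    · simp; ring
  · refine ⟨1, by norm_num, by norm_num, ?_⟩
    rintro t ⟨h0, h1⟩
    simp only [cur, dirS]
    apply Complex.ext
    · simp
    · simp; ring

theorem lin_tgt (k : Arc M) : ∃ t₀ : ℝ, 0 < t₀ ∧ t₀ ≤ 1 ∧ ∀ t ∈ Icc 0 t₀,
    k.cur (1 - t) = k.cur 1 + t * k.dirT := by
  rcases k with ⟨p, r, hE⟩ | ⟨s, a, ha⟩ | _
  · have hlt := M.lt p r hE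
    have hpr : (p : ℝ) + 1 ≤ r := by exact_mod_cast hlt.2.1
    have hpos : (2 : ℝ) ≤ 2 * r - 2 * p := by linarith
    refine ⟨1 / (2 * r - 2 * p), by positivity, ?_, ?_⟩
    · rw [div_le_one (by linarith)]; linarith
    · rintro t ⟨h0, h1⟩
      rw [le_div_iff₀ (by linarith)] at h1
      rw [cur_one]
      simp only [tgt, dirT, cur]
      rw [ptN_mid (by omega) (by omega)]
      have e0 : 2 * r - 1 + 1 = 2 * r := by omega
      have e1 : ((2 * r - 1 : ℕ) : ℝ) = 2 * r - 1 := by
        rw [Nat.cast_sub (by omega)]; push_cast; ring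
      rw [Mono.φ_eq hE (j := 2 * r - 1) (by omega) (by rw [e1]; nlinarith)
        (by rw [e1]; nlinarith), e0, Mono.h_right le_rfl, e1]
      apply Complex.ext
      · simp; ring
      · simp; ring
  · refine ⟨2 / 3, by norm_num, by norm_num, ?_⟩
    rintro t ⟨h0, h1⟩
    simp only [cur, dirT]
    rw [min_eq_left (by linarith), min_eq_left (by norm_num)]
    apply Complex.ext
    · simp
    · simp; ring
  · refine ⟨1, by norm_num, by norm_num, ?_⟩
    rintro t ⟨h0, h1⟩
    simp only [cur, dirT]
    apply Complex.ext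
    · simp
    · simp; ring

/-- the angle at which the arc from `i` to `w` leaves `i` -/
noncomputable def angN (M : Mono) (i w : ℕ) : ℝ :=
  if i = 0 then (if w = M.N + 1 then -(Real.pi / 2) else -Real.arctan (1 / (2 * w)))
  else if i = M.N + 1 then (if w = 0 then Real.pi / 2 else Real.arctan (1 / (2 * w)))
  else if w = 0 then Real.pi / 2 else if w = M.N + 1 then -(Real.pi / 2)
  else if i < w then Real.arctan (M.h i w (2 * i + 1))
  else -Real.pi - Real.arctan (M.h w i (2 * i - 1))

theorem angN_bounds (M : Mono) (i w : ℕ) : -(3 * Real.pi / 2) < angN M i w ∧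
    angN M i w ≤ Real.pi / 2 := by
  have hpi := Real.pi_pos
  unfold angN
  split_ifs
  · constructor <;> linarith
  · have := Real.arctan_lt_pi_div_two (1 / (2 * w))
    have := Real.neg_pi_div_two_lt_arctan (1 / (2 * w))
    constructor <;> linarith
  · constructor <;> linarith
  · have := Real.arctan_lt_pi_div_two (1 / (2 * w))
    have := Real.neg_pi_div_two_lt_arctan (1 / (2 * w))
    constructor <;> linarith
  · constructor <;> linarith
  · constructor <;> linarith
  · have := Real.arctan_lt_pi_div_two (M.h i w (2 * i + 1))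
    have := Real.neg_pi_div_two_lt_arctan (M.h i w (2 * i + 1))
    constructor <;> linarith
  · have := Real.arctan_lt_pi_div_two (M.h w i (2 * i - 1))
    have := Real.neg_pi_div_two_lt_arctan (M.h w i (2 * i - 1))
    constructor <;> linarith

theorem exp_arctan (x : ℝ) : (⟨1, x⟩ : ℂ) = (Real.sqrt (1 + x ^ 2) : ℝ) *
    exp ((Real.arctan x : ℝ) * I) := by
  rw [exp_mul_I, ← ofReal_cos, ← ofReal_sin, Real.cos_arctan, Real.sin_arctan]
  have h : Real.sqrt (1 + x ^ 2) ≠ 0 := (Real.sqrt_pos.2 (by positivity)).ne'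
  apply Complex.ext
  · simp [h]
  · simp
    field_simp

theorem exp_pi_div_two : exp (((Real.pi / 2 : ℝ) : ℂ) * I) = I := by
  rw [exp_mul_I, ← ofReal_cos, ← ofReal_sin, Real.cos_pi_div_two, Real.sin_pi_div_two]
  simp

theorem exp_neg_pi_div_two : exp (((-(Real.pi / 2) : ℝ) : ℂ) * I) = -I := by
  rw [exp_mul_I, ← ofReal_cos, ← ofReal_sin, Real.cos_neg, Real.sin_neg, Real.cos_pi_div_two,
    Real.sin_pi_div_two]
  simp

theorem sqrt_pos' (x : ℝ) : 0 < Real.sqrt (1 + x ^ 2) := Real.sqrt_pos.2 (by positivity)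

theorem ang_src (k : Arc M) : ∃ c : ℝ, 0 < c ∧ k.dirS = c * exp (angN M k.src k.tgt * I) := by
  rcases k with ⟨p, r, hE⟩ | ⟨s, a, ha⟩ | _
  · have hlt := M.lt p r hE
    have hpr : (p : ℝ) + 1 ≤ r := by exact_mod_cast hlt.2.1
    simp only [src, tgt, dirS]
    unfold angN
    rw [if_neg (by omega), if_neg (by omega), if_neg (by omega), if_neg (by omega),
      if_pos hlt.2.1]
    refine ⟨(2 * r - 2 * p) * Real.sqrt (1 + (M.h p r (2 * p + 1)) ^ 2),
      mul_pos (by linarith) (sqrt_pos' _), ?_⟩
    rw [ofReal_mul, mul_assoc, ← exp_arctan]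
    apply Complex.ext <;> simp
  · have ha' : (1 : ℝ) ≤ a := by exact_mod_cast ha.1
    have hane : (a : ℝ) ≠ 0 := by linarith
    refine ⟨(6 * a) * Real.sqrt (1 + (1 / (2 * a : ℝ)) ^ 2), mul_pos (by linarith)
      (sqrt_pos' _), ?_⟩
    cases s
    · simp only [src, tgt, dirS]
      unfold angN
      simp only [Bool.false_eq_true, if_false]
      rw [if_neg (by omega), if_pos trivial, if_neg (by omega), ofReal_mul, mul_assoc,
        ← exp_arctan]
      apply Complex.ext
      · simp
      · simp [sg]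
        field_simp
        norm_num
    · simp only [src, tgt, dirS]
      unfold angN
      simp only [if_true]
      rw [if_neg (by omega), ← Real.arctan_neg, ofReal_mul, mul_assoc]
      have := exp_arctan (-(1 / (2 * a : ℝ)))
      rw [neg_sq] at this
      rw [← this]
      apply Complex.ext
      · simp
      · simp [sg]
        field_simp
        norm_num
  · refine ⟨6, by norm_num, ?_⟩
    simp only [src, tgt, dirS]
    unfold angN
    rw [if_pos rfl, if_pos rfl, exp_neg_pi_div_two]
    apply Complex.ext <;> simp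

theorem ang_tgt (k : Arc M) : ∃ c : ℝ, 0 < c ∧ k.dirT = c * exp (angN M k.tgt k.src * I) := by
  rcases k with ⟨p, r, hE⟩ | ⟨s, a, ha⟩ | _
  · have hlt := M.lt p r hE
    have hpr : (p : ℝ) + 1 ≤ r := by exact_mod_cast hlt.2.1
    simp only [src, tgt, dirT]
    unfold angN
    rw [if_neg (by omega), if_neg (by omega), if_neg (by omega), if_neg (by omega),
      if_neg (by omega)]
    refine ⟨(2 * r - 2 * p) * Real.sqrt (1 + (-(M.h p r (2 * r - 1))) ^ 2),
      mul_pos (by linarith) (sqrt_pos' _), ?_⟩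
    have e : (((-Real.pi - Real.arctan (M.h p r (2 * r - 1)) : ℝ) : ℂ) * I) =
        -(Real.pi * I) + (Real.arctan (-(M.h p r (2 * r - 1))) : ℝ) * I := by
      rw [Real.arctan_neg]
      push_cast
      ring
    rw [e, exp_add, exp_neg, exp_pi_mul_I, ofReal_mul, mul_comm ((-1 : ℂ)⁻¹), mul_assoc,
      ← mul_assoc _ _ ((-1 : ℂ)⁻¹), ← exp_arctan]
    apply Complex.ext
    · simp
    · simp
  · have ha' : (1 : ℝ) ≤ a := by exact_mod_cast ha.1
    refine ⟨3, by norm_num, ?_⟩
    cases s
    · simp only [src, tgt, dirT]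
      unfold angN
      simp only [Bool.false_eq_true, if_false]
      rw [if_neg (by omega), if_neg (by omega), if_neg (by omega), if_pos trivial,
        exp_neg_pi_div_two]
      apply Complex.ext <;> simp [sg]
    · simp only [src, tgt, dirT]
      unfold angN
      simp only [if_true]
      rw [if_neg (by omega), if_neg (by omega), exp_pi_div_two]
      apply Complex.ext <;> simp [sg]
  · refine ⟨6, by norm_num, ?_⟩
    simp only [src, tgt, dirT]
    unfold angN
    rw [if_neg (by omega), if_pos rfl, if_pos rfl, exp_pi_div_two]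
    apply Complex.ext <;> simp

end Arc

open Arc

variable {V : Type} {G : SimpleGraph V} (M : Mono) (C : Cols M.N V)

/-- the family of all arcs -/
noncomputable def family (hG : ∀ u v, G.Adj u v ↔ AdjN M (C.num u) (C.num v)) :
    ArcFamily G (Arc M) where
  pt v := ptN M.N (C.num v)
  src k := C.col k.src
  tgt k := C.col k.tgt
  f k := k.cur
  cont k := continuous_cur k
  f0 k := by rw [cur_zero, C.num_col _ k.src_le]
  f1 k := by rw [cur_one, C.num_col _ k.tgt_le]
  finj k s t _ _ h := cur_inj k s t h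
  adj u v := by
    rw [hG, adjN_iff (C.num_le u) (C.num_le v)]
    constructor
    · rintro ⟨k, ⟨h1, h2⟩ | ⟨h1, h2⟩⟩
      · exact ⟨k, Or.inl ⟨by rw [h1, C.col_num], by rw [h2, C.col_num]⟩⟩
      · exact ⟨k, Or.inr ⟨by rw [h1, C.col_num], by rw [h2, C.col_num]⟩⟩
    · rintro ⟨k, ⟨h1, h2⟩ | ⟨h1, h2⟩⟩
      · exact ⟨k, Or.inl ⟨by rw [← h1, C.num_col _ k.src_le], by rw [← h2, C.num_col _ k.tgt_le]⟩⟩
      · exact ⟨k, Or.inr ⟨by rw [← h1, C.num_col _ k.src_le], by rw [← h2, C.num_col _ k.tgt_le]⟩⟩
  edge_inj k k' h := by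
    apply ends_inj
    rw [Sym2.eq_iff] at h
    have inj : ∀ i j, i ≤ M.N + 1 → j ≤ M.N + 1 → C.col i = C.col j → i = j := by
      intro i j hi hj hij
      rw [← C.num_col i hi, hij, C.num_col j hj]
    rcases h with ⟨h1, h2⟩ | ⟨h1, h2⟩
    · exact Or.inl ⟨inj _ _ k.src_le k'.src_le h1, inj _ _ k.tgt_le k'.tgt_le h2⟩
    · exact Or.inr ⟨inj _ _ k.src_le k'.tgt_le h1, inj _ _ k.tgt_le k'.src_le h2⟩
  pt_inj u v h := by
    have := ptN_inj h
    rw [← C.col_num u, this, C.col_num]
  avoid k w hw := by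
    rw [image_cur] at hw
    rcases avoidN k (C.num_le w) hw with h | h
    · left; rw [← h, C.col_num]
    · right; rw [← h, C.col_num]
  common k k' hne := by
    rw [image_cur, image_cur]
    rintro z ⟨hz, hz'⟩ w ⟨hw, hw'⟩
    exact Arc.common k k' hne hz hz' hw hw'
  proper k k' hne z hz hv := by
    rw [image_cur, image_cur] at hz ⊢
    refine Arc.proper k k' hne hz.1 hz.2 ?_
    rintro ⟨i, hi, h⟩
    exact hv ⟨C.col i, by simp only [C.num_col i hi, h]⟩
  triple k k' k'' n1 n2 n3 z hz := by
    rw [image_cur, image_cur, image_cur] at hz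
    obtain ⟨i, hi, h⟩ := Arc.triple k k' k'' n1 n2 n3 hz.1.1 hz.1.2 hz.2
    exact ⟨C.col i, by simp only [C.num_col i hi, h]⟩

/-- the rotation system of the drawing -/
theorem leave (hG : ∀ u v, G.Adj u v ↔ AdjN M (C.num u) (C.num v)) (v : V) (l : List V)
    (hadj : ∀ w ∈ l, G.Adj v w)
    (hp : l.Pairwise fun w w' => angN M (C.num v) (C.num w') < angN M (C.num v) (C.num w)) :
    (family M C hG).drawing.LeaveClockwise v l := by
  refine GoodDrawing.leaveClockwise_of _ v l (fun w => angN M (C.num v) (C.num w)) ?_ ?_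
  · intro w hw
    have h := hadj w hw
    rw [hG, adjN_iff (C.num_le v) (C.num_le w)] at h
    obtain ⟨k, ⟨h1, h2⟩ | ⟨h1, h2⟩⟩ := h
    · obtain ⟨c, hc, hd⟩ := ang_src k
      obtain ⟨t₀, ht0, ht1, ht⟩ := lin_src k
      refine ⟨c, t₀, hc, ht0, ht1, ?_⟩
      intro t htt
      have e1 : v = (family M C hG).src k := by
        show v = C.col k.src
        rw [h1, C.col_num]
      have e2 : w = (family M C hG).tgt k := by
        show w = C.col k.tgt
        rw [h2, C.col_num]
      have e3 : ((family M C hG).drawing.arc v w).extend t = k.cur t := by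
        subst e1 e2
        show ((family M C hG).arc _ _).extend t = _
        rw [ArcFamily.arc_src]
        exact mkPath_extend _ _ _ _ ⟨htt.1, htt.2.trans ht1⟩
      rw [e3, ht t htt, hd, h1, h2]
      congr 1
      rw [cur_zero, h1]
      rfl
    · obtain ⟨c, hc, hd⟩ := ang_tgt k
      obtain ⟨t₀, ht0, ht1, ht⟩ := lin_tgt k
      refine ⟨c, t₀, hc, ht0, ht1, ?_⟩
      intro t htt
      have e1 : w = (family M C hG).src k := by
        show w = C.col k.src
        rw [h1, C.col_num]
      have e2 : v = (family M C hG).tgt k := by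
        show v = C.col k.tgt
        rw [h2, C.col_num]
      have e3 : ((family M C hG).drawing.arc v w).extend t = k.cur (1 - t) := by
        subst e1 e2
        show ((family M C hG).arc _ _).extend t = _
        rw [ArcFamily.arc_tgt, Path.extend_symm_apply]
        exact mkPath_extend _ _ _ _ ⟨by linarith [htt.2], by linarith [htt.1]⟩
      rw [e3, ht t htt, hd, h1, h2]
      congr 1
      rw [cur_one, h2]
      rfl
  · refine hp.imp ?_
    intro w w' h
    refine ⟨h, ?_⟩
    have h1 := angN_bounds M (C.num v) (C.num w)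
    have h2 := angN_bounds M (C.num v) (C.num w')
    linarith [h1.2, h2.1]

end Pool.Agent.helper506_rot
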