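import Pool.Agent.helper506_rot.Sys
import Pool.Agent.helper506_rot.PL5

/-!
# Realizable rotation systems with two poles
-/

set_option autoImplicit false

namespace Pool.Agent.helper506_rot

/-- the conditions under which we draw: `ε k = 1` means that the column `k` is below the
reference edge -/
structure Good (N : ℕ) (up low : ℕ → ℕ → Bool) (ε : ℕ → ℤ) : Prop where
  sys : Sys N up low
  unit : ∀ k, ε k = 1 ∨ ε k = -1
  one : ε 1 = 1
  last : ε N = 1
  hlow : ∀ p r, low p r = true → ε p = 1 ∨ ε r = 1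
  huu : ∀ p r r', up p r = true → up p r' = true → r < r' → ε p = 1 → ε r' = 1 → ε r = 1
  huu' : ∀ p p' r, up p r = true → up p' r = true → p < p' → ε p = 1 → ε r = 1 → ε p' = 1
  hlu : ∀ p r r', low p r = true → up p r' = true → r < r' → ε p = 1 → ε r' = 1 → ε r = 1
  hul : ∀ p p' r, up p r = true → low p' r = true → p < p' → ε p = 1 → ε r = 1 → ε p' = 1
  ha : ∀ r, up 1 r = true → ε r = -1
  ha' : ∀ r, low 1 r = true → ε r = 1

section

variable {N : ℕ} {up low : ℕ → ℕ → Bool} {ε : ℕ → ℤ}

/-- the digits -/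
def tauF (up low : ℕ → ℕ → Bool) (ε : ℕ → ℤ) (p r k : ℕ) : ℤ :=
  if k = r then 0 else if low p r = true then -1
  else if up p r = true ∧ (ε p = -1 ∨ ε r = -1) then 1 else ε k

/-- the order of the edges at their left ends -/
noncomputable def rhoF (N : ℕ) (up low : ℕ → ℕ → Bool) (p r : ℕ) : ℝ :=
  if low p r = true then -(r / (4 * N)) else if up p r = true then r / (4 * N) else 0

theorem tau_end (p r : ℕ) : tauF up low ε p r r = 0 := by simp [tauF]

theorem tau_low {p r k : ℕ} (h : low p r = true) (hk : k ≠ r) : tauF up low ε p r k = -1 := by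
  unfold tauF; rw [if_neg hk, if_pos h]

/-- the three kinds of edges -/
theorem kinds (G : Good N up low ε) {p r : ℕ} (h : Ed N up low p r) :
    (up p r = true ∧ (ε p = -1 ∨ ε r = -1) ∧ ∀ k, k ≠ r → tauF up low ε p r k = 1) ∨
    (low p r = true ∧ (ε p = 1 ∨ ε r = 1) ∧ ∀ k, k ≠ r → tauF up low ε p r k = -1) ∨
    ((up p r = true ∨ (p = 1 ∧ r = N)) ∧ (ε p = 1 ∧ ε r = 1) ∧
      ∀ k, k ≠ r → tauF up low ε p r k = ε k) := by
  rcases h with h | h | ⟨h1, h2⟩
  · have h' := G.sys.disj p r h
    by_cases hT : ε p = -1 ∨ ε r = -1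
    · left
      refine ⟨h, hT, fun k hk => ?_⟩
      unfold tauF
      rw [if_neg hk, if_neg (by simp [h']), if_pos ⟨h, hT⟩]
    · right; right
      refine ⟨Or.inl h, ?_, fun k hk => ?_⟩
      · have := G.unit p
        have := G.unit r
        omega
      · unfold tauF
        rw [if_neg hk, if_neg (by simp [h']), if_neg (fun h => hT h.2)]
  · right; left
    exact ⟨h, G.hlow p r h, fun k hk => tau_low h hk⟩
  · right; right
    refine ⟨Or.inr ⟨h1, h2⟩, ⟨by rw [h1]; exact G.one, by rw [h2]; exact G.last⟩, fun k hk => ?_⟩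
    have h3 : ¬ low p r = true := fun h => by have := G.sys.low_lt p r h; omega
    have h4 : ¬ up p r = true := fun h => by have := G.sys.up_lt p r h; omega
    unfold tauF
    rw [if_neg hk, if_neg h3, if_neg (fun h => h4 h.1)]

theorem tau_unit (G : Good N up low ε) {p r k : ℕ} (h : Ed N up low p r) (hk : k < r) :
    tauF up low ε p r k = 1 ∨ tauF up low ε p r k = -1 := by
  rcases kinds G h with ⟨-, -, h3⟩ | ⟨-, -, h3⟩ | ⟨-, -, h3⟩
  · exact Or.inl (h3 k (by omega))
  · exact Or.inr (h3 k (by omega))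
  · rw [h3 k (by omega)]; exact G.unit k

theorem rho_low {p r : ℕ} (h : low p r = true) : rhoF N up low p r = -(r / (4 * N)) := by
  unfold rhoF; rw [if_pos h]

theorem rho_up (G : Good N up low ε) {p r : ℕ} (h : up p r = true) :
    rhoF N up low p r = r / (4 * N) := by
  have h' := G.sys.disj p r h
  unfold rhoF; rw [if_neg (by simp [h']), if_pos h]

theorem rho_ref (G : Good N up low ε) : rhoF N up low 1 N = 0 := by
  have h3 : ¬ low 1 N = true := fun h => by have := G.sys.low_lt 1 N h; omega
  have h4 : ¬ up 1 N = true := fun h => by have := G.sys.up_lt 1 N h; omega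
  unfold rhoF; rw [if_neg h3, if_neg h4]

theorem quot_pos (G : Good N up low ε) {r : ℕ} (h : 1 ≤ r) : (0 : ℝ) < r / (4 * N) := by
  have := G.sys.two_le
  have h1 : (0 : ℝ) < r := by exact_mod_cast h
  have h2 : (0 : ℝ) < N := by exact_mod_cast (by omega : 0 < N)
  positivity

theorem quot_lt (G : Good N up low ε) {r r' : ℕ} :
    ((r : ℝ) / (4 * N) < r' / (4 * N)) ↔ r < r' := by
  have := G.sys.two_le
  have h2 : (0 : ℝ) < 4 * N := by
    have : (0 : ℝ) < N := by exact_mod_cast (by omega : 0 < N)
    linarith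
  rw [div_lt_div_iff_of_pos_right h2]
  exact Nat.cast_lt

/-- comparison of the edges at their left ends -/
theorem rho_cases (G : Good N up low ε) {p r r' : ℕ} (h : Ed N up low p r)
    (h' : Ed N up low p r') (hρ : rhoF N up low p r' < rhoF N up low p r) :
    (up p r = true ∧ up p r' = true ∧ r' < r) ∨
    (up p r = true ∧ low p r' = true) ∨
    (low p r = true ∧ low p r' = true ∧ r < r') ∨
    (p = 1 ∧ r = N ∧ low p r' = true) ∨
    (p = 1 ∧ r' = N ∧ up p r = true) := by
  have hr := G.sys.ed_lt h
  have hr' := G.sys.ed_lt h'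
  have q := quot_pos G (r := r) (by omega)
  have q' := quot_pos G (r := r') (by omega)
  rcases h with h | h | ⟨h, e⟩ <;> rcases h' with h' | h' | ⟨h', e'⟩
  · rw [rho_up G h, rho_up G h', quot_lt G] at hρ
    exact Or.inl ⟨h, h', hρ⟩
  · exact Or.inr (Or.inl ⟨h, h'⟩)
  · exact Or.inr (Or.inr (Or.inr (Or.inr ⟨h', e', h⟩)))
  · rw [rho_low h, rho_up G h'] at hρ
    linarith
  · rw [rho_low h, rho_low h', neg_lt_neg_iff, quot_lt G] at hρ
    exact Or.inr (Or.inr (Or.inl ⟨h, h', hρ⟩))
  · subst h' e'
    rw [rho_low h, rho_ref G] at hρ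
    linarith
  · subst h e
    rw [rho_ref G, rho_up G h'] at hρ
    linarith
  · exact Or.inr (Or.inr (Or.inr (Or.inl ⟨h, e, h'⟩)))
  · subst h e e'
    exact absurd hρ (lt_irrefl _)

/-- adjacent edges: the digits of the upper one are larger -/
theorem adj_digits (G : Good N up low ε) {p r p' r' : ℕ} (h : Ed N up low p r)
    (h' : Ed N up low p' r') (hne : (p, r) ≠ (p', r'))
    (hI : Init (tauF up low ε) (rhoF N up low) p r p' r') (hadj : p = p' ∨ r = r') {k : ℕ}
    (k1 : p < k) (k2 : p' < k) (k3 : k ≤ r) (k4 : k ≤ r') :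
    tauF up low ε p' r' k ≤ tauF up low ε p r k := by
  have hlt := G.sys.ed_lt h
  have hlt' := G.sys.ed_lt h'
  have uk := G.unit k
  by_cases hp : p = p'
  · subst hp
    have hrr : r ≠ r' := fun e => hne (by rw [e])
    have hρ : rhoF N up low p r' < rhoF N up low p r := by
      rcases hI with ⟨h1, -⟩ | ⟨h1, -⟩ | ⟨-, h1⟩
      · omega
      · omega
      · exact h1
    rcases rho_cases G h h' hρ with ⟨a1, a2, a3⟩ | ⟨a1, a2⟩ | ⟨a1, a2, a3⟩ | ⟨a1, a2, a3⟩ |
        ⟨a1, a2, a3⟩
    · -- both are upper edges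
      rcases kinds G h with ⟨-, b2, b3⟩ | ⟨b1, -⟩ | ⟨b1, b2, b3⟩
      · rw [b3 k (by omega)]
        rcases Nat.lt_or_ge k r' with c | c
        · rcases tau_unit G h' c with c' | c' <;> omega
        · rw [show k = r' by omega, tau_end]; omega
      · have := G.sys.disj p r a1
        rw [this] at b1
        exact absurd b1 (by simp)
      · have e := G.huu p r' r a2 a1 a3 b2.1 b2.2
        rcases kinds G h' with ⟨-, c2, c3⟩ | ⟨c1, -⟩ | ⟨c1, c2, c3⟩
        · omega
        · have := G.sys.disj p r' a2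
          rw [this] at c1
          exact absurd c1 (by simp)
        · rw [b3 k (by omega)]
          rcases Nat.lt_or_ge k r' with c | c
          · rw [c3 k (by omega)]
          · rw [show k = r' by omega, tau_end, e]; omega
    · -- the upper one is an upper edge, the lower one is a lower edge
      rcases Nat.lt_or_ge k r' with c | c
      · rw [tau_low a2 (by omega)]
        rcases Nat.lt_or_ge k r with c' | c'
        · rcases tau_unit G h c' with c' | c' <;> omega
        · rw [show k = r by omega, tau_end]; omega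
      · have e : k = r' := by omega
        rw [e, tau_end]
        rcases kinds G h with ⟨-, b2, b3⟩ | ⟨b1, -⟩ | ⟨b1, b2, b3⟩
        · rw [b3 r' (by omega)]; omega
        · have := G.sys.disj p r a1
          rw [this] at b1
          exact absurd b1 (by simp)
        · rw [b3 r' (by omega), G.hlu p r' r a2 a1 (by omega) b2.1 b2.2]; omega
    · -- both are lower edges
      rw [tau_low a2 (by omega)]
      rcases Nat.lt_or_ge k r with c' | c'
      · rcases tau_unit G h c' with c' | c' <;> omega
      · rw [show k = r by omega, tau_end]; omega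
    · -- the reference edge is above a lower edge
      have hr' := G.sys.low_lt p r' a3
      rcases Nat.lt_or_ge k r' with c | c
      · rw [tau_low a3 (by omega)]
        rcases tau_unit G h (show k < r by omega) with c' | c' <;> omega
      · rw [show k = r' by omega, tau_end]
        rcases kinds G h with ⟨b1, -⟩ | ⟨b1, -⟩ | ⟨b1, b2, b3⟩
        · have := G.sys.up_lt p r b1; omega
        · have := G.sys.low_lt p r b1; omega
        · subst a1
          rw [b3 r' (by omega), G.ha' r' a3]; omega
    · -- the reference edge is below an upper edge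
      have hr := G.sys.up_lt p r a3
      subst a1
      have e := G.ha r a3
      rcases kinds G h with ⟨-, b2, b3⟩ | ⟨b1, -⟩ | ⟨b1, b2, b3⟩
      · rcases Nat.lt_or_ge k r with c | c
        · rw [b3 k (by omega)]
          rcases tau_unit G h' (show k < r' by omega) with c' | c' <;> omega
        · have ek : k = r := by omega
          rw [ek, tau_end]
          rcases kinds G h' with ⟨c1, -⟩ | ⟨c1, -⟩ | ⟨c1, c2, c3⟩
          · have := G.sys.up_lt 1 r' c1; omega
          · have := G.sys.low_lt 1 r' c1; omega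
          · rw [c3 r (by omega), e]; omega
      · have := G.sys.disj 1 r a3
        rw [this] at b1
        exact absurd b1 (by simp)
      · omega
  · obtain rfl : r = r' := hadj.resolve_left hp
    rcases Nat.lt_or_ge k r with c | c
    swap
    · rw [show k = r by omega, tau_end, tau_end]
    rcases hI with ⟨h1, h2⟩ | ⟨h1, h2⟩ | ⟨h1, -⟩
    · rcases kinds G h with ⟨a1, a2, a3⟩ | ⟨a1, a2, a3⟩ | ⟨a1, a2, a3⟩
      · rw [a3 k (by omega)]
        rcases tau_unit G h' c with c' | c' <;> omega
      · rw [a3 p' (by omega)] at h2; omega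
      · rw [a3 p' (by omega)] at h2
        rw [a3 k (by omega)]
        rcases kinds G h' with ⟨-, b2, b3⟩ | ⟨b1, b2, b3⟩ | ⟨b1, b2, b3⟩
        · omega
        · rw [b3 k (by omega)]; omega
        · rw [b3 k (by omega)]
    · rcases kinds G h' with ⟨a1, a2, a3⟩ | ⟨a1, a2, a3⟩ | ⟨a1, a2, a3⟩
      · rw [a3 p (by omega)] at h2; omega
      · rw [a3 k (by omega)]
        rcases tau_unit G h c with c' | c' <;> omega
      · rw [a3 p (by omega)] at h2
        rw [a3 k (by omega)]
        rcases kinds G h with ⟨-, b2, b3⟩ | ⟨b1, b2, b3⟩ | ⟨b1, b2, b3⟩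
        · rw [b3 k (by omega)]; omega
        · exfalso
          rcases a1 with a1 | a1
          · have := G.hul p' p r a1 b1 h1 a2.1 a2.2
            omega
          · have := G.sys.low_lt p r b1
            omega
        · omega
    · exact absurd h1 hp

/-- non-adjacent edges cross at most once -/
theorem nonadj_digits (G : Good N up low ε) {p r p' r' : ℕ} (h : Ed N up low p r)
    (h' : Ed N up low p' r') (o1 : p < r') (o2 : p' < r)
    (hI : Init (tauF up low ε) (rhoF N up low) p r p' r') (hp : p ≠ p') (hr : r ≠ r') :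
    ∃ k0, ∀ k, p < k → p' < k → k ≤ r → k ≤ r' →
      (k < k0 → tauF up low ε p' r' k ≤ tauF up low ε p r k) ∧
      (k0 ≤ k → tauF up low ε p r k ≤ tauF up low ε p' r' k) := by
  have ut := fun k => G.unit k
  have e1 := tau_end (up := up) (low := low) (ε := ε) p r
  have e2 := tau_end (up := up) (low := low) (ε := ε) p' r'
  -- the digits at the end of the first edge that ends
  have hk : ∀ k, k ≤ r → k ≤ r' → (k < r ∧ k < r') ∨ (k = r ∧ r < r') ∨ (k = r' ∧ r' < r) := by
    intro k _ _; omega
  rcases hI with ⟨h1, h2⟩ | ⟨h1, h2⟩ | ⟨h1, -⟩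
  · rcases kinds G h with ⟨a1, a2, a3⟩ | ⟨a1, a2, a3⟩ | ⟨a1, a2, a3⟩
    · -- the upper one is of the first kind
      by_cases hc : r < r' ∧ tauF up low ε p' r' r = 1
      · refine ⟨r, fun k k1 k2 k3 k4 => ⟨fun k5 => ?_, fun k5 => ?_⟩⟩
        · rw [a3 k (by omega)]
          rcases tau_unit G h' (show k < r' by omega) with c | c <;> omega
        · rw [show k = r by omega, e1, hc.2]; omega
      · refine ⟨r + 1, fun k k1 k2 k3 k4 => ⟨fun k5 => ?_, fun k5 => by omega⟩⟩
        rcases hk k k3 k4 with ⟨c1, c2⟩ | ⟨c1, c2⟩ | ⟨c1, c2⟩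
        · rw [a3 k (by omega)]
          rcases tau_unit G h' c2 with c | c <;> omega
        · rw [c1, e1]
          rcases tau_unit G h' c2 with c | c
          · exact absurd ⟨c2, c⟩ hc
          · omega
        · rw [c1, e2, a3 r' (by omega)]; omega
    · rw [a3 p' (by omega)] at h2; omega
    · rw [a3 p' (by omega)] at h2
      rcases kinds G h' with ⟨b1, b2, b3⟩ | ⟨b1, b2, b3⟩ | ⟨b1, b2, b3⟩
      · refine ⟨0, fun k k1 k2 k3 k4 => ⟨fun k5 => by omega, fun k5 => ?_⟩⟩
        rcases hk k k3 k4 with ⟨c1, c2⟩ | ⟨c1, c2⟩ | ⟨c1, c2⟩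
        · rw [a3 k (by omega), b3 k (by omega)]
          have := ut k; omega
        · rw [c1, e1, b3 r (by omega)]; omega
        · rw [c1, e2, a3 r' (by omega)]; omega
      · by_cases hc : ε r' = 1
        · refine ⟨r + 1, fun k k1 k2 k3 k4 => ⟨fun k5 => ?_, fun k5 => by omega⟩⟩
          rcases hk k k3 k4 with ⟨c1, c2⟩ | ⟨c1, c2⟩ | ⟨c1, c2⟩
          · rw [a3 k (by omega), b3 k (by omega)]
            have := ut k; omega
          · rw [c1, e1, b3 r (by omega)]; omega
          · rw [c1, e2, a3 r' (by omega)]; omega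
        · refine ⟨r', fun k k1 k2 k3 k4 => ⟨fun k5 => ?_, fun k5 => ?_⟩⟩
          · rcases hk k k3 k4 with ⟨c1, c2⟩ | ⟨c1, c2⟩ | ⟨c1, c2⟩
            · rw [a3 k (by omega), b3 k (by omega)]
              have := ut k; omega
            · rw [c1, e1, b3 r (by omega)]; omega
            · omega
          · have e : k = r' := by omega
            have := ut r'
            rw [e, e2, a3 r' (by omega)]; omega
      · by_cases hc : r < r'
        · refine ⟨r, fun k k1 k2 k3 k4 => ⟨fun k5 => ?_, fun k5 => ?_⟩⟩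
          · rw [a3 k (by omega), b3 k (by omega)]
          · rw [show k = r by omega, e1, b3 r (by omega)]; omega
        · refine ⟨r + 1, fun k k1 k2 k3 k4 => ⟨fun k5 => ?_, fun k5 => by omega⟩⟩
          rcases hk k k3 k4 with ⟨c1, c2⟩ | ⟨c1, c2⟩ | ⟨c1, c2⟩
          · rw [a3 k (by omega), b3 k (by omega)]
          · omega
          · rw [c1, e2, a3 r' (by omega)]; omega
  · rcases kinds G h' with ⟨a1, a2, a3⟩ | ⟨a1, a2, a3⟩ | ⟨a1, a2, a3⟩
    · rw [a3 p (by omega)] at h2; omega
    · by_cases hc : r' < r ∧ tauF up low ε p r r' = -1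
      · refine ⟨r', fun k k1 k2 k3 k4 => ⟨fun k5 => ?_, fun k5 => ?_⟩⟩
        · rw [a3 k (by omega)]
          rcases tau_unit G h (show k < r by omega) with c | c <;> omega
        · rw [show k = r' by omega, e2, hc.2]; omega
      · refine ⟨r + 1, fun k k1 k2 k3 k4 => ⟨fun k5 => ?_, fun k5 => by omega⟩⟩
        rcases hk k k3 k4 with ⟨c1, c2⟩ | ⟨c1, c2⟩ | ⟨c1, c2⟩
        · rw [a3 k (by omega)]
          rcases tau_unit G h c1 with c | c <;> omega
        · rw [c1, e1, a3 r (by omega)]; omega
        · rw [c1, e2]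
          rcases tau_unit G h c2 with c | c
          · omega
          · exact absurd ⟨c2, c⟩ hc
    · rw [a3 p (by omega)] at h2
      rcases kinds G h with ⟨b1, b2, b3⟩ | ⟨b1, b2, b3⟩ | ⟨b1, b2, b3⟩
      · by_cases hc : r < r' ∧ ε r = 1
        · refine ⟨r, fun k k1 k2 k3 k4 => ⟨fun k5 => ?_, fun k5 => ?_⟩⟩
          · have := ut k
            rw [a3 k (by omega), b3 k (by omega)]; omega
          · rw [show k = r by omega, e1, a3 r (by omega)]; omega
        · refine ⟨r + 1, fun k k1 k2 k3 k4 => ⟨fun k5 => ?_, fun k5 => by omega⟩⟩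
          rcases hk k k3 k4 with ⟨c1, c2⟩ | ⟨c1, c2⟩ | ⟨c1, c2⟩
          · have := ut k
            rw [a3 k (by omega), b3 k (by omega)]; omega
          · have := ut r
            rw [c1, e1, a3 r (by omega)]; omega
          · rw [c1, e2, b3 r' (by omega)]; omega
      · refine ⟨0, fun k k1 k2 k3 k4 => ⟨fun k5 => by omega, fun k5 => ?_⟩⟩
        rcases hk k k3 k4 with ⟨c1, c2⟩ | ⟨c1, c2⟩ | ⟨c1, c2⟩
        · have := ut k
          rw [a3 k (by omega), b3 k (by omega)]; omega
        · rw [c1, e1, a3 r (by omega)]; omega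
        · rw [c1, e2, b3 r' (by omega)]; omega
      · omega
  · exact absurd h1 hp

/-- the family of monotone curves -/
noncomputable def mono (G : Good N up low ε) : Mono where
  N := N
  E := Ed N up low
  τ := tauF up low ε
  ρ := rhoF N up low
  lt p r h := G.sys.ed_lt h
  unit p r k h _ hk := tau_unit G h hk
  tend := tau_end
  ρ_le p r h := by
    have hlt := G.sys.ed_lt h
    have hN : (0 : ℝ) < N := by exact_mod_cast (by omega : 0 < N)
    have hr : (r : ℝ) ≤ N := by exact_mod_cast hlt.2.2
    have hr0 : (0 : ℝ) ≤ r := Nat.cast_nonneg r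
    have q : (r : ℝ) / (4 * N) ≤ 1 / 4 := by
      rw [div_le_div_iff₀ (by linarith) (by norm_num)]; linarith
    have q0 : 0 ≤ (r : ℝ) / (4 * N) := by positivity
    unfold rhoF
    split_ifs
    · rw [abs_neg, abs_of_nonneg q0]; exact q
    · rw [abs_of_nonneg q0]; exact q
    · simp
  ρ_ne p r r' h h' hne := by
    have hr := G.sys.ed_lt h
    have hr' := G.sys.ed_lt h'
    have q := quot_pos G (r := r) (by omega)
    have q' := quot_pos G (r := r') (by omega)
    have qne : (r : ℝ) / (4 * N) ≠ r' / (4 * N) := by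
      rcases Nat.lt_or_gt_of_ne hne with h1 | h1
      · exact ((quot_lt G).2 h1).ne
      · exact ((quot_lt G).2 h1).ne'
    rcases h with h | h | ⟨h, e⟩ <;> rcases h' with h' | h' | ⟨h', e'⟩
    · rw [rho_up G h, rho_up G h']; exact qne
    · rw [rho_up G h, rho_low h']; intro h3; linarith
    · rw [rho_up G h, h', e', rho_ref G]; exact q.ne'
    · rw [rho_low h, rho_up G h']; intro h3; linarith
    · rw [rho_low h, rho_low h']; intro h3; exact qne (by linarith)
    · rw [rho_low h, h', e', rho_ref G]; intro h3; linarith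
    · rw [h, e, rho_ref G, ← h, rho_up G h']; exact q'.ne
    · rw [h, e, rho_ref G, ← h, rho_low h']; intro h3; linarith
    · omega
  pc p r p' r' h h' hne o1 o2 hI := by
    by_cases hadj : p = p' ∨ r = r'
    · refine ⟨⟨r + 1, fun k k1 k2 k3 k4 => ⟨fun _ => ?_, fun k5 => by omega⟩⟩, fun _ k k1 k2 k3 k4 => ?_⟩
      · exact adj_digits G h h' hne hI hadj k1 k2 k3 k4
      · exact adj_digits G h h' hne hI hadj k1 k2 k3 k4
    · push Not at hadj
      refine ⟨nonadj_digits G h h' o1 o2 hI hadj.1 hadj.2, fun h3 => ?_⟩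
      rcases h3 with h3 | h3
      · exact absurd h3 hadj.1
      · exact absurd h3 hadj.2

end

end Pool.Agent.helper506_rot
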