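import Pool.Agent.helper506_rot.Defs

/-!
# Rotation systems with two poles
-/

set_option autoImplicit false

namespace Pool.Agent.helper506_rot

/-- the columns in increasing order -/
def asc (N : ℕ) : List ℕ := (List.range N).map fun i => i + 1

/-- the columns in decreasing order -/
def desc (N : ℕ) : List ℕ := (asc N).reverse

/-- the rotation at the vertex `v` -/
def row (N : ℕ) (up low : ℕ → ℕ → Bool) (v : ℕ) : List ℕ :=
  if v = 0 then desc N ++ [N + 1]
  else if v = N + 1 then 0 :: asc N
  else 0 :: ((desc N).filter (fun r => up v r) ++ ((if v = 1 then [N] else []) ++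
    ((asc N).filter (fun r => low v r) ++ ((N + 1) :: ((asc N).filter (fun p => low p v) ++
      ((if v = N then [1] else []) ++ (desc N).filter (fun p => up p v)))))))

/-- the rotation system -/
def table (N : ℕ) (up low : ℕ → ℕ → Bool) : List (List ℕ) :=
  (List.range (N + 2)).map (row N up low)

/-- conditions on the edges between columns -/
structure Sys (N : ℕ) (up low : ℕ → ℕ → Bool) : Prop where
  two_le : 2 ≤ N
  up_lt : ∀ p r, up p r = true → 1 ≤ p ∧ p < r ∧ r < N
  low_lt : ∀ p r, low p r = true → 1 ≤ p ∧ p < r ∧ r < N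
  disj : ∀ p r, up p r = true → low p r = false

/-- the edges between columns -/
def Ed (N : ℕ) (up low : ℕ → ℕ → Bool) (p r : ℕ) : Prop :=
  up p r = true ∨ low p r = true ∨ (p = 1 ∧ r = N)

theorem mem_asc {N w : ℕ} : w ∈ asc N ↔ 1 ≤ w ∧ w ≤ N := by
  unfold asc
  rw [List.mem_map]
  constructor
  · rintro ⟨a, h1, h2⟩
    rw [List.mem_range] at h1
    omega
  · rintro ⟨h1, h2⟩
    exact ⟨w - 1, List.mem_range.2 (by omega), by omega⟩

theorem mem_desc {N w : ℕ} : w ∈ desc N ↔ 1 ≤ w ∧ w ≤ N := by
  unfold desc
  rw [List.mem_reverse, mem_asc]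

theorem asc_pairwise (N : ℕ) : (asc N).Pairwise (· < ·) := by
  unfold asc
  rw [List.pairwise_map]
  exact List.pairwise_lt_range.imp fun h => by omega

theorem desc_pairwise (N : ℕ) : (desc N).Pairwise (fun a b => b < a) := by
  unfold desc
  rw [List.pairwise_reverse]
  exact asc_pairwise N

variable {N : ℕ} {up low : ℕ → ℕ → Bool}

theorem Sys.ed_lt (S : Sys N up low) {p r : ℕ} (h : Ed N up low p r) :
    1 ≤ p ∧ p < r ∧ r ≤ N := by
  rcases h with h | h | ⟨h, h'⟩
  · have := S.up_lt p r h; omega
  · have := S.low_lt p r h; omega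
  · have := S.two_le; omega

theorem mem_row (S : Sys N up low) {v w : ℕ} (hv : v ≤ N + 1) : w ∈ row N up low v ↔
    v ≠ w ∧ w ≤ N + 1 ∧ (v = 0 ∨ w = 0 ∨ v = N + 1 ∨ w = N + 1 ∨ Ed N up low v w ∨
      Ed N up low w v) := by
  have h2 := S.two_le
  have hone : ∀ a b : ℕ, (w ∈ (if v = a then [b] else [])) ↔ (v = a ∧ w = b) := by
    intro a b
    split_ifs with h
    · simp [h]
    · simp [h]
  unfold row
  by_cases c1 : v = 0
  · rw [if_pos c1, List.mem_append, mem_desc, List.mem_singleton]
    constructor
    · rintro (h | h)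
      · exact ⟨by omega, by omega, Or.inl c1⟩
      · exact ⟨by omega, by omega, Or.inl c1⟩
    · rintro ⟨h, h', -⟩
      omega
  by_cases c2 : v = N + 1
  · rw [if_neg c1, if_pos c2, List.mem_cons, mem_asc]
    constructor
    · rintro (h | h)
      · exact ⟨by omega, by omega, by tauto⟩
      · exact ⟨by omega, by omega, by tauto⟩
    · rintro ⟨h, h', -⟩
      omega
  · rw [if_neg c1, if_neg c2]
    simp only [List.mem_cons, List.mem_append, List.mem_filter, mem_asc, mem_desc, hone]
    unfold Ed
    constructor
    · rintro (h | h | h | h | h | h | h | h)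
      · exact ⟨by omega, by omega, by tauto⟩
      · have := S.up_lt v w h.2
        exact ⟨by omega, by omega, by tauto⟩
      · exact ⟨by omega, by omega, by tauto⟩
      · have := S.low_lt v w h.2
        exact ⟨by omega, by omega, by tauto⟩
      · exact ⟨by omega, by omega, by tauto⟩
      · have := S.low_lt w v h.2
        exact ⟨by omega, by omega, by tauto⟩
      · exact ⟨by omega, by omega, by tauto⟩
      · have := S.up_lt w v h.2
        exact ⟨by omega, by omega, by tauto⟩
    · rintro ⟨h3, h4, h5 | h5 | h5 | h5 | (h5 | h5 | h5) | (h5 | h5 | h5)⟩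
      · exact absurd h5 c1
      · exact Or.inl h5
      · exact absurd h5 c2
      · tauto
      · have := S.up_lt v w h5
        exact Or.inr (Or.inl ⟨by omega, h5⟩)
      · have := S.low_lt v w h5
        exact Or.inr (Or.inr (Or.inr (Or.inl ⟨by omega, h5⟩)))
      · exact Or.inr (Or.inr (Or.inl h5))
      · have := S.up_lt w v h5
        exact Or.inr (Or.inr (Or.inr (Or.inr (Or.inr (Or.inr (Or.inr ⟨by omega, h5⟩))))))
      · have := S.low_lt w v h5
        exact Or.inr (Or.inr (Or.inr (Or.inr (Or.inr (Or.inl ⟨by omega, h5⟩)))))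
      · exact Or.inr (Or.inr (Or.inr (Or.inr (Or.inr (Or.inr (Or.inl ⟨h5.2, h5.1⟩))))))

theorem table_length : (table N up low).length = N + 2 := by
  unfold table; simp

theorem table_get {v : ℕ} (h : v < (table N up low).length) :
    (table N up low)[v] = row N up low v := by
  unfold table; simp

theorem mem_row_symm (S : Sys N up low) {v w : ℕ} (hv : v ≤ N + 1) (h : w ∈ row N up low v) :
    v ∈ row N up low w := by
  rw [mem_row S hv] at h
  rw [mem_row S h.2.1]
  refine ⟨h.1.symm, hv, ?_⟩
  have := h.2.2
  tauto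

theorem fin_le (v : Fin (table N up low).length) : (v : ℕ) ≤ N + 1 := by
  have h := v.2
  have e : (table N up low).length = N + 2 := table_length
  omega

theorem graph_adj (S : Sys N up low) (u v : Fin (table N up low).length) :
    (graph (table N up low)).Adj u v ↔ (u : ℕ) ≠ v ∧
      ((u : ℕ) = 0 ∨ (v : ℕ) = 0 ∨ (u : ℕ) = N + 1 ∨ (v : ℕ) = N + 1 ∨ Ed N up low u v ∨
        Ed N up low v u) := by
  have hu : (u : ℕ) ≤ N + 1 := fin_le u
  have hv : (v : ℕ) ≤ N + 1 := fin_le v
  unfold graph
  simp only [table_get]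
  constructor
  · rintro ⟨-, h, -⟩
    rw [mem_row S hu] at h
    exact ⟨h.1, h.2.2⟩
  · rintro ⟨h1, h2⟩
    have h3 : (v : ℕ) ∈ row N up low u := (mem_row S hu).2 ⟨h1, hv, h2⟩
    refine ⟨fun h => h1 (by rw [h]), h3, mem_row_symm S hu h3⟩

/-- the vertex with a given number -/
def vert (N : ℕ) (up low : ℕ → ℕ → Bool) (i : ℕ) : Fin (table N up low).length :=
  if h : i < (table N up low).length then ⟨i, h⟩ else ⟨0, by rw [table_length]; omega⟩

theorem vert_val {i : ℕ} (h : i ≤ N + 1) : (vert N up low i : ℕ) = i := by
  unfold vert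
  rw [dif_pos (by rw [table_length]; omega)]

theorem vert_num (v : Fin (table N up low).length) : vert N up low v = v := by
  unfold vert
  rw [dif_pos v.2]

theorem rot_eq (S : Sys N up low) (v : Fin (table N up low).length) :
    rot (table N up low) v = (row N up low v).map (vert N up low) := by
  have hv : (v : ℕ) ≤ N + 1 := fin_le v
  unfold rot
  rw [table_get]
  have key : ∀ l : List ℕ, (∀ w ∈ l, w ≤ N + 1) →
      (l.filterMap fun w => if h : w < (table N up low).length then some ⟨w, h⟩ else none) =
        l.map (vert N up low) := by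
    intro l hl
    induction l with
    | nil => rfl
    | cons a l ih =>
      have ha : a < (table N up low).length := by
        rw [table_length]
        have := hl a (by simp)
        omega
      rw [List.filterMap_cons_some (b := ⟨a, ha⟩) (by rw [dif_pos ha]),
        ih fun w hw => hl w (by simp [hw])]
      rw [List.map_cons]
      congr 1
      unfold vert
      rw [dif_pos ha]
  apply key
  intro w hw
  rw [mem_row S hv] at hw
  exact hw.2.1

end Pool.Agent.helper506_rot
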