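import Pool.Agent.helper506_rot.Tri
import Pool.Agent.helper506_rot.Sys

/-!
# Drawings of rotation systems with two poles
-/

set_option autoImplicit false

namespace Pool.Agent.helper506_rot

open GoodDrawing

variable {N : ℕ} {up low : ℕ → ℕ → Bool}

/-- the edges to the right, from top to bottom -/
def rights (N : ℕ) (up low : ℕ → ℕ → Bool) (v : ℕ) : List ℕ :=
  (desc N).filter (fun r => up v r) ++ ((if v = 1 then [N] else []) ++
    (asc N).filter (fun r => low v r))

/-- the edges to the left, from bottom to top -/
def lefts (N : ℕ) (up low : ℕ → ℕ → Bool) (v : ℕ) : List ℕ :=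
  (asc N).filter (fun p => low p v) ++ ((if v = N then [1] else []) ++
    (desc N).filter (fun p => up p v))

theorem row_zero : row N up low 0 = desc N ++ [N + 1] := by unfold row; rw [if_pos rfl]

theorem row_last : row N up low (N + 1) = 0 :: asc N := by
  unfold row; rw [if_neg (by omega), if_pos rfl]

theorem row_col {v : ℕ} (h1 : 1 ≤ v) (h2 : v ≤ N) :
    row N up low v = 0 :: (rights N up low v ++ (N + 1) :: lefts N up low v) := by
  unfold row rights lefts
  rw [if_neg (by omega), if_neg (by omega)]
  simp only [List.append_assoc]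

theorem mem_rights (S : Sys N up low) {p r : ℕ} (h : Ed N up low p r) :
    r ∈ rights N up low p := by
  have hlt := S.ed_lt h
  unfold rights
  simp only [List.mem_append, List.mem_filter, mem_asc, mem_desc]
  rcases h with h | h | ⟨h, h'⟩
  · exact Or.inl ⟨by omega, h⟩
  · exact Or.inr (Or.inr ⟨by omega, h⟩)
  · rw [if_pos h]
    exact Or.inr (Or.inl (by simp [h']))

theorem mem_lefts (S : Sys N up low) {p r : ℕ} (h : Ed N up low p r) :
    p ∈ lefts N up low r := by
  have hlt := S.ed_lt h
  unfold lefts
  simp only [List.mem_append, List.mem_filter, mem_asc, mem_desc]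
  rcases h with h | h | ⟨h, h'⟩
  · exact Or.inr (Or.inr ⟨by omega, h⟩)
  · exact Or.inl ⟨by omega, h⟩
  · rw [if_pos h']
    exact Or.inr (Or.inl (by simp [h]))

/-- two upper edges to the right -/
theorem sub_uu (S : Sys N up low) {p q r : ℕ} (h : up p r = true) (h' : up p q = true)
    (hqr : q < r) : List.Sublist [r, q] (rights N up low p) := by
  have hlt := S.up_lt p r h
  have hlt' := S.up_lt p q h'
  unfold rights
  refine List.Sublist.trans ?_ (List.sublist_append_left _ _)
  refine pair_sublist ((desc_pairwise N).filter _) ?_ ?_ (by omega) (by omega)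
  · rw [List.mem_filter, mem_desc]; exact ⟨by omega, h⟩
  · rw [List.mem_filter, mem_desc]; exact ⟨by omega, h'⟩

/-- two lower edges to the right -/
theorem sub_ll (S : Sys N up low) {p q r : ℕ} (h : low p r = true) (h' : low p q = true)
    (hqr : q < r) : List.Sublist [q, r] (rights N up low p) := by
  have hlt := S.low_lt p r h
  have hlt' := S.low_lt p q h'
  unfold rights
  refine List.Sublist.trans ?_ (List.sublist_append_right _ _)
  refine List.Sublist.trans ?_ (List.sublist_append_right _ _)
  refine pair_sublist ((asc_pairwise N).filter _) ?_ ?_ (by omega) (by omega)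
  · rw [List.mem_filter, mem_asc]; exact ⟨by omega, h'⟩
  · rw [List.mem_filter, mem_asc]; exact ⟨by omega, h⟩

/-- an upper edge at the first column and the reference edge -/
theorem sub_ref_up (S : Sys N up low) {q : ℕ} (h : up 1 q = true) :
    List.Sublist [q, N] (rights N up low 1) := by
  have hlt := S.up_lt 1 q h
  unfold rights
  rw [if_pos rfl]
  have h1 : List.Sublist [q] ((desc N).filter (fun r => up 1 r)) := by
    rw [List.singleton_sublist, List.mem_filter, mem_desc]; exact ⟨by omega, h⟩
  have h2 : List.Sublist [N] ([N] ++ (asc N).filter (fun r => low 1 r)) :=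
    List.sublist_append_left _ _
  exact h1.append h2

/-- a lower edge at the first column and the reference edge -/
theorem sub_ref_low (S : Sys N up low) {z : ℕ} (h : low 1 z = true) :
    List.Sublist [N, z] (rights N up low 1) := by
  have hlt := S.low_lt 1 z h
  unfold rights
  rw [if_pos rfl]
  have h2 : List.Sublist [z] ((asc N).filter (fun r => low 1 r)) := by
    rw [List.singleton_sublist, List.mem_filter, mem_asc]; exact ⟨by omega, h⟩
  refine List.Sublist.trans ?_ (List.sublist_append_right _ _)
  exact (List.Sublist.refl [N]).append h2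

section

variable (S : Sys N up low) (D : GoodDrawing (graph (table N up low)))
  (hD : ∀ v, D.LeaveClockwise v (rot (table N up low) v))

theorem vert_inj {i j : ℕ} (hi : i ≤ N + 1) (hj : j ≤ N + 1)
    (h : vert N up low i = vert N up low j) : i = j := by
  rw [← vert_val hi, h, vert_val hj]

include S in
theorem adj_vert {i j : ℕ} (hi : i ≤ N + 1) (hj : j ≤ N + 1) (hne : i ≠ j)
    (h : i = 0 ∨ j = 0 ∨ i = N + 1 ∨ j = N + 1 ∨ Ed N up low i j ∨ Ed N up low j i) :
    (graph (table N up low)).Adj (vert N up low i) (vert N up low j) := by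
  rw [graph_adj S, vert_val hi, vert_val hj]
  exact ⟨hne, h⟩

include S hD in
/-- three edges in clockwise order -/
theorem tri {v x y z : ℕ} (hv : v ≤ N + 1) (hsub : List.Sublist [x, y, z] (row N up low v))
    (hxy : x ≠ y) (hyz : y ≠ z) (hzx : z ≠ x) :
    D.T (vert N up low v) (vert N up low x) (vert N up low y) (vert N up low z) = cw := by
  have mem : ∀ w ∈ [x, y, z], w ∈ row N up low v := fun w hw => hsub.subset hw
  have hx := (mem_row S hv).1 (mem x (by simp))
  have hy := (mem_row S hv).1 (mem y (by simp))
  have hz := (mem_row S hv).1 (mem z (by simp))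
  refine T_of_leave (hD (vert N up low v)) ?_ (adj_vert S hv hx.2.1 hx.1 hx.2.2)
    (adj_vert S hv hy.2.1 hy.1 hy.2.2) (adj_vert S hv hz.2.1 hz.1 hz.2.2)
    (fun h => hxy (vert_inj hx.2.1 hy.2.1 h)) (fun h => hyz (vert_inj hy.2.1 hz.2.1 h))
    (fun h => hzx (vert_inj hz.2.1 hx.2.1 h))
  rw [rot_eq S, vert_val hv]
  exact hsub.map (vert N up low)

include S hD in
/-- the frame of the two poles -/
theorem frame : Frame D N (vert N up low 0) (vert N up low (N + 1)) (vert N up low) cw where
  exp_t := cw_exp
  inj i j h1 h2 h3 h4 h := vert_inj (by omega) (by omega) h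
  OP := adj_vert S (by omega) (by omega) (by omega) (by tauto)
  Oc i h1 h2 := adj_vert S (by omega) (by omega) (by omega) (by tauto)
  Pc i h1 h2 := adj_vert S (by omega) (by omega) (by omega) (by tauto)
  TO i j h1 h2 h3 := by
    refine tri S D hD (by omega) ?_ (by omega) (by omega) (by omega)
    rw [row_zero]
    have h : List.Sublist [j, i] (desc N) :=
      pair_sublist (desc_pairwise N) (by rw [mem_desc]; omega) (by rw [mem_desc]; omega) (by omega)
        (by omega)
    exact h.append (List.Sublist.refl [N + 1])
  TOO i j k h1 h2 h3 h4 := by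
    refine tri S D hD (by omega) ?_ (by omega) (by omega) (by omega)
    rw [row_zero]
    refine List.Sublist.trans ?_ (List.sublist_append_left _ _)
    exact triple_sublist (desc_pairwise N) (by rw [mem_desc]; omega) (by rw [mem_desc]; omega)
      (by rw [mem_desc]; omega) (by omega) (by omega) (by omega) (by omega) (by omega) (by omega)
  TP i j h1 h2 h3 := by
    refine tri S D hD (by omega) ?_ (by omega) (by omega) (by omega)
    rw [row_last]
    exact (pair_sublist (asc_pairwise N) (by rw [mem_asc]; omega) (by rw [mem_asc]; omega)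
      (by omega) (by omega)).cons_cons _
  TPP i j k h1 h2 h3 h4 := by
    refine tri S D hD (by omega) ?_ (by omega) (by omega) (by omega)
    rw [row_last]
    refine List.Sublist.cons _ ?_
    exact triple_sublist (asc_pairwise N) (by rw [mem_asc]; omega) (by rw [mem_asc]; omega)
      (by rw [mem_asc]; omega) (by omega) (by omega) (by omega) (by omega) (by omega) (by omega)

include S hD in
/-- the edges between columns -/
theorem hedge {p r : ℕ} (h : Ed N up low p r) :
    HEdge D N (vert N up low 0) (vert N up low (N + 1)) (vert N up low) cw p r := by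
  have hlt := S.ed_lt h
  refine ⟨hlt.1, hlt.2.1, hlt.2.2, adj_vert S (by omega) (by omega) (by omega) (by tauto), ?_, ?_⟩
  · refine tri S D hD (by omega) ?_ (by omega) (by omega) (by omega)
    rw [row_col (by omega) (by omega)]
    refine List.Sublist.cons_cons _ ?_
    have h1 : List.Sublist [r] (rights N up low p) := List.singleton_sublist.2 (mem_rights S h)
    have h2 : List.Sublist [N + 1] ((N + 1) :: lefts N up low p) := by
      rw [List.singleton_sublist]; simp
    exact h1.append h2
  · refine tri S D hD (by omega) ?_ (by omega) (by omega) (by omega)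
    rw [row_col (by omega) (by omega)]
    refine List.Sublist.cons_cons _ ?_
    refine List.Sublist.trans ?_ (List.sublist_append_right _ _)
    refine List.Sublist.cons_cons _ ?_
    exact List.singleton_sublist.2 (mem_lefts S h)

include S hD in
/-- a triple with the pole `P` last -/
theorem tri_P {p q r : ℕ} (hp : 1 ≤ p) (hp' : p ≤ N) (h : List.Sublist [r, q] (rights N up low p))
    (h1 : 1 ≤ q) (h2 : q ≤ N) (h3 : 1 ≤ r) (h4 : r ≤ N) (hne : r ≠ q) :
    D.T (vert N up low p) (vert N up low r) (vert N up low q) (vert N up low (N + 1)) = cw := by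
  refine tri S D hD (by omega) ?_ (by omega) (by omega) (by omega)
  rw [row_col hp hp']
  refine List.Sublist.cons _ ?_
  have h5 : List.Sublist [N + 1] ((N + 1) :: lefts N up low p) := by
    rw [List.singleton_sublist]; simp
  exact h.append h5

include S hD in
/-- a triple with the pole `O` first -/
theorem tri_O {p q r : ℕ} (hp : 1 ≤ p) (hp' : p ≤ N) (h : List.Sublist [q, r] (rights N up low p))
    (h1 : 1 ≤ q) (h2 : q ≤ N) (h3 : 1 ≤ r) (h4 : r ≤ N) (hne : q ≠ r) :
    D.T (vert N up low p) (vert N up low r) (vert N up low q) (vert N up low 0) = -cw := by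
  apply T_zyx
  refine tri S D hD (by omega) ?_ (by omega) (by omega) (by omega)
  rw [row_col hp hp']
  refine List.Sublist.cons_cons _ ?_
  exact List.Sublist.trans h (List.sublist_append_left _ _)

/-- the column `k` is above the reference edge -/
def AboveD (D : GoodDrawing (graph (table N up low))) (k : ℕ) : Prop :=
  D.Meet (vert N up low 1) (vert N up low N) (vert N up low (N + 1)) (vert N up low k)

/-- the column `k` is below the reference edge -/
def BelowD (D : GoodDrawing (graph (table N up low))) (k : ℕ) : Prop :=
  D.Meet (vert N up low 1) (vert N up low N) (vert N up low 0) (vert N up low k)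

include S hD in
theorem above_or_below {k : ℕ} (h1 : 1 < k) (h2 : k < N) :
    (BelowD D k ∧ ¬ AboveD D k) ∨ (¬ BelowD D k ∧ AboveD D k) :=
  (frame S D hD).one_side (hedge S D hD (Or.inr (Or.inr ⟨rfl, rfl⟩))) h1 h2

include S hD in
/-- the ends of upper edges at the first column are above the reference edge -/
theorem forced_above {q : ℕ} (h : up 1 q = true) : AboveD D q := by
  have hlt := S.up_lt 1 q h
  have key : ¬ BelowD D q :=
    (frame S D hD).mirror.forced (hedge S D hD (Or.inr (Or.inr ⟨rfl, rfl⟩))).mirror
      (hedge S D hD (Or.inl h)).mirror hlt.2.2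
      (tri_O S D hD le_rfl (by omega) (sub_ref_up S h) (by omega) (by omega) (by omega) le_rfl
        (by omega))
  rcases above_or_below S D hD hlt.2.1 hlt.2.2 with h1 | h1
  · exact absurd h1.1 key
  · exact h1.2

include S hD in
/-- the ends of lower edges at the first column are below the reference edge -/
theorem forced_below {z : ℕ} (h : low 1 z = true) : BelowD D z := by
  have hlt := S.low_lt 1 z h
  have key : ¬ AboveD D z :=
    (frame S D hD).forced (hedge S D hD (Or.inr (Or.inr ⟨rfl, rfl⟩)))
      (hedge S D hD (Or.inr (Or.inl h))) hlt.2.2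
      (tri_P S D hD le_rfl (by omega) (sub_ref_low S h) (by omega) (by omega) (by omega) le_rfl
        (by omega))
  rcases above_or_below S D hD hlt.2.1 hlt.2.2 with h1 | h1
  · exact h1.1
  · exact absurd h1.2 key

include S hD in
/-- upper edges -/
theorem upper_rule {p q r : ℕ} (hp : 1 < p) (h : up p r = true) (h' : up p q = true) (hqr : q < r)
    (hA : AboveD D q) : AboveD D p ∨ AboveD D r := by
  have hlt := S.up_lt p r h
  have hlt' := S.up_lt p q h'
  have F := frame S D hD
  have nq := F.helper_left (hedge S D hD (Or.inl h)) (hedge S D hD (Or.inl h')) hqr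
    (tri_P S D hD (by omega) (by omega) (sub_uu S h h' hqr) (by omega) (by omega) (by omega)
      (by omega) (by omega))
  exact F.key (hedge S D hD (Or.inr (Or.inr ⟨rfl, rfl⟩))) (hedge S D hD (Or.inl h)) hp hlt'.2.1
    hqr hlt.2.2 nq hA

include S hD in
/-- lower edges -/
theorem lower_rule {p q r : ℕ} (hp : 1 < p) (h : low p r = true) (h' : low p q = true)
    (hqr : q < r) (hA : BelowD D q) : BelowD D p ∨ BelowD D r := by
  have hlt := S.low_lt p r h
  have hlt' := S.low_lt p q h'
  have F := (frame S D hD).mirror
  have nq := F.helper_left (hedge S D hD (Or.inr (Or.inl h))).mirror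
    (hedge S D hD (Or.inr (Or.inl h'))).mirror hqr
    (tri_O S D hD (by omega) (by omega) (sub_ll S h h' hqr) (by omega) (by omega) (by omega)
      (by omega) (by omega))
  exact F.key (hedge S D hD (Or.inr (Or.inr ⟨rfl, rfl⟩))).mirror
    (hedge S D hD (Or.inr (Or.inl h))).mirror hp hlt'.2.1 hqr hlt.2.2 nq hA

end

end Pool.Agent.helper506_rot
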