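import Pool.Agent.helper506_rot.Defs
import Pool.Agent.H858R3.TopoGraph

/-!
# Logarithmic variations and crossings
-/

set_option autoImplicit false

namespace Pool.Agent.helper506_rot

open Complex Set Filter Topology
open Pool.Agent.H858R3.Lift Pool.Agent.H858R3.Cross

/-- the crossing number (times `2 π i`) of two arcs -/
noncomputable def dd (X Y : ℝ → ℂ) : ℂ := al (X 1) Y - al (X 0) Y - al (Y 1) X + al (Y 0) X

theorem dd_zero {X Y : ℝ → ℂ} (hX : Continuous X) (hY : Continuous Y) (h : ∀ s t, X s ≠ Y t) :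
    dd X Y = 0 := R hX hY h

theorem dd_swap (X Y : ℝ → ℂ) : dd Y X = - dd X Y := by
  unfold dd; ring

/-- the variation along the reversed arc -/
theorem al_rev {X Y : ℝ → ℂ} (hX : Continuous X) (h : ∀ t, Y t = X (1 - t)) {z : ℂ}
    (hz : ∀ t, X t ≠ z) : al z Y = - al z X := by
  unfold al
  have h1 := lv_comp (g := fun t => X t - z) (by fun_prop) (fun t => sub_ne_zero.2 (hz t))
    (ρ := fun t => 1 - t) (by fun_prop) 0 1
  have h2 : (fun t => Y t - z) = fun t => X (1 - t) - z := by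
    funext t; rw [h]
  rw [h2, h1]
  obtain ⟨L, hL, hexp⟩ := lift1 (g := fun t => X t - z) (by fun_prop)
    (fun t => sub_ne_zero.2 (hz t))
  rw [lv_eq hL hexp, lv_eq hL hexp]
  simp

/-- four spokes and two opposite arcs of the rim of a wheel -/
theorem wheelD {s₁ s₂ s₃ s₄ r₁₂ r₃₄ : ℝ → ℂ}
    (h12 : s₁ 0 = s₂ 0) (h13 : s₁ 0 = s₃ 0) (h14 : s₁ 0 = s₄ 0)
    (e1 : r₁₂ 0 = s₁ 1) (e2 : r₁₂ 1 = s₂ 1) (e3 : r₃₄ 0 = s₃ 1) (e4 : r₃₄ 1 = s₄ 1) :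
    S s₁ s₂ s₃ - S s₁ s₂ s₄ =
      dd r₃₄ s₁ - dd r₃₄ s₂ - dd r₁₂ s₃ + dd r₁₂ s₄ - dd r₁₂ r₃₄ := by
  unfold S dd
  simp only [beta_al]
  rw [e1, e2, e3, e4, ← h12, ← h13, ← h14]
  ring

/-- two vertices `P`, `i` joined by an edge, with two common neighbours `j`, `k` -/
theorem thetaD {Pi Pj Pk iP ij ik : ℝ → ℂ} (cPi : Continuous Pi)
    (a1 : Pi 0 = Pj 0) (a2 : Pi 0 = Pk 0) (b1 : iP 0 = ij 0) (b2 : iP 0 = ik 0)
    (c1 : Pi 1 = iP 0) (c2 : iP 1 = Pi 0) (c3 : Pj 1 = ij 1) (c4 : Pk 1 = ik 1)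
    (hrev : ∀ t, iP t = Pi (1 - t)) (hj : ∀ t, Pi t ≠ Pj 1) (hk : ∀ t, Pi t ≠ Pk 1) :
    S Pi Pj Pk + S iP ij ik = dd Pk ij - dd Pj ik := by
  have r1 := al_rev cPi hrev hj
  have r2 := al_rev cPi hrev hk
  unfold S dd
  simp only [beta_al]
  rw [← c3, ← c4, r1, r2, c2, ← a1, ← a2, ← b1, ← b2, c1]
  ring

/-- a path `p Q r P` of length three, an edge `p P` and an arc from `p` to `P` through `w`, made
of an arc `a` from `p` to `w` and the reverse of an arc `c` from `P` to `w` -/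
theorem theta5 {pP Pp pQ Qr Pr a c : ℝ → ℂ} (cpP : Continuous pP) (cpQ : Continuous pQ)
    (cQr : Continuous Qr) (cPr : Continuous Pr) (ca : Continuous a) (cc : Continuous c)
    (a1 : pP 0 = pQ 0) (a2 : pP 0 = a 0) (b1 : Pp 0 = Pr 0) (b2 : Pp 0 = c 0)
    (c1 : pP 1 = Pp 0) (c2 : Pp 1 = pP 0) (c3 : pQ 1 = Qr 0) (c4 : Qr 1 = Pr 1) (c5 : a 1 = c 1)
    (hrev : ∀ t, Pp t = pP (1 - t)) (hw : ∀ t, pP t ≠ a 1)
    (d1 : ∀ s t, pP s ≠ Qr t) (d2 : ∀ s t, c s ≠ pQ t) (d3 : ∀ s t, a s ≠ Pr t)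
    (d4 : ∀ s t, a s ≠ Qr t) (d5 : ∀ s t, c s ≠ Qr t) :
    S pP pQ a + S Pp Pr c = 0 := by
  have hr : ∀ t, pP t ≠ Qr 1 := fun t => d1 t 1
  have r1 := al_rev cpP hrev hw
  have r2 := al_rev cpP hrev hr
  have q1 := R cpP cQr d1
  have q2 := R cc cpQ d2
  have q3 := R ca cPr d3
  have q4 := R ca cQr d4
  have q5 := R cc cQr d5
  unfold S
  simp only [beta_al, ← a1, ← a2, ← b1, ← b2, c1, c2, ← c3, ← c4, ← c5] at q1 q2 q3 q4 q5 r1 r2 ⊢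
  rw [r1, r2]
  linear_combination q1 + q2 + q3 - q4 + q5

end Pool.Agent.helper506_rot
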