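import Pool.Agent.helper506_rot.Topo

/-!
# Splitting arcs, crossing numbers of crossing arcs, and the orientation of clockwise triples
-/

set_option autoImplicit false

namespace Pool.Agent.helper506_rot

open Complex Set Filter Topology
open Pool.Agent.H858R3.Lift Pool.Agent.H858R3.Cross Pool.Agent.H858R3.TopoGraph

theorem extend_clamp {u v : ℂ} (γ : Path u v) (t : ℝ) :
    γ.extend (max 0 (min t 1)) = γ.extend t := by
  rcases le_total t 0 with h | h
  · rw [γ.extend_of_le_zero h, max_eq_left ((min_le_left _ _).trans h), γ.extend_zero]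
  · rcases le_total t 1 with h' | h'
    · rw [min_eq_left h', max_eq_right h]
    · rw [min_eq_right h', max_eq_right zero_le_one, γ.extend_of_one_le h', γ.extend_one]

theorem tr_one_extend {u v : ℂ} (γ : Path u v) : tr γ.extend 1 = γ.extend := by
  funext t
  unfold tr
  rw [one_mul, extend_clamp]

theorem extend_mem {u v : ℂ} (γ : Path u v) (s : ℝ) : γ.extend s ∈ range γ := by
  rw [← γ.extend_range]; exact ⟨s, rfl⟩

theorem extend_inj {u v : ℂ} {γ : Path u v} (hγ : Function.Injective γ) {s t : ℝ}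
    (hs : s ∈ Icc (0 : ℝ) 1) (ht : t ∈ Icc (0 : ℝ) 1) (h : γ.extend s = γ.extend t) : s = t := by
  rw [γ.extend_apply hs, γ.extend_apply ht] at h
  exact congrArg Subtype.val (hγ h)

theorem mem_extend {u v : ℂ} {γ : Path u v} {x : ℂ} (hx : x ∈ range γ) :
    ∃ t ∈ Icc (0 : ℝ) 1, γ.extend t = x := by
  obtain ⟨⟨t, ht⟩, rfl⟩ := hx
  exact ⟨t, ht, γ.extend_apply ht⟩

theorem extend_eq_source {u v : ℂ} {γ : Path u v} (hγ : Function.Injective γ) {s : ℝ}
    (h : γ.extend s = u) : s ≤ 0 := by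
  rw [← extend_clamp] at h
  have h1 : max 0 (min s 1) = 0 := by
    apply extend_inj hγ ⟨le_max_left _ _, max_le zero_le_one (min_le_right _ _)⟩ (by simp)
    rw [h, γ.extend_zero]
  by_contra hcon
  push Not at hcon
  have : 0 < max 0 (min s 1) := lt_max_of_lt_right (lt_min hcon one_pos)
  linarith

/-- an arc is split at one of its points -/
theorem split' {u v x : ℂ} {γ : Path u v} (hγ : Function.Injective γ) (hx : x ∈ range γ)
    (hu : x ≠ u) (hv : x ≠ v) :
    ∃ E F : ℝ → ℂ, Continuous E ∧ Continuous F ∧ E 0 = x ∧ F 0 = x ∧ E 1 = u ∧ F 1 = v ∧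
      (∀ s, E s ∈ range γ) ∧ (∀ s, F s ∈ range γ) ∧ (∀ s, E s ≠ v) ∧ (∀ s, F s ≠ u) ∧
      (∀ s, E s = x → s ≤ 0) ∧ (∀ s, F s = x → s ≤ 0) ∧ Cor E F ∧
      (∀ z, z ∉ range γ → al z γ.extend = al z F - al z E) ∧
      (∀ s ≤ 0, E s = x) ∧ (∀ s ≤ 0, F s = x) := by
  obtain ⟨⟨τ, hτ0, hτ1⟩, rfl⟩ := hx
  have inj : ∀ s t : ℝ, s ∈ Icc (0 : ℝ) 1 → t ∈ Icc (0 : ℝ) 1 → γ.extend s = γ.extend t →
      s = t := fun s t hs ht h => extend_inj hγ hs ht h
  have e0 : γ.extend τ = γ ⟨τ, hτ0, hτ1⟩ := γ.extend_apply ⟨hτ0, hτ1⟩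
  have t0 : 0 < τ := by
    rcases hτ0.eq_or_lt with h | h
    · exfalso; apply hu
      rw [← e0, ← h, γ.extend_zero]
    · exact h
  have t1 : τ < 1 := by
    rcases hτ1.eq_or_lt with h | h
    · exfalso; apply hv
      rw [← e0, h, γ.extend_one]
    · exact h
  have cl : ∀ t : ℝ, 0 ≤ max 0 (min t 1) ∧ max 0 (min t 1) ≤ 1 := fun t =>
    ⟨le_max_left _ _, max_le zero_le_one (min_le_right _ _)⟩
  have cl0 : ∀ t : ℝ, max 0 (min t 1) = 0 → t ≤ 0 := by
    intro t h
    by_contra hcon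
    push Not at hcon
    have : 0 < max 0 (min t 1) := lt_max_of_lt_right (lt_min hcon one_pos)
    linarith
  have mE : ∀ s : ℝ, τ - τ * max 0 (min s 1) ∈ Icc (0 : ℝ) 1 := by
    intro s
    obtain ⟨h1, h2⟩ := cl s
    constructor <;> nlinarith
  have mF : ∀ s : ℝ, τ + (1 - τ) * max 0 (min s 1) ∈ Icc (0 : ℝ) 1 := by
    intro s
    obtain ⟨h1, h2⟩ := cl s
    constructor <;> nlinarith
  have mem : ∀ s : ℝ, γ.extend s ∈ range γ := extend_mem γ
  refine ⟨fun s => γ.extend (τ - τ * max 0 (min s 1)),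
    fun s => γ.extend (τ + (1 - τ) * max 0 (min s 1)), by fun_prop, by fun_prop, ?_, ?_, ?_, ?_,
    fun s => mem _, fun s => mem _, ?_, ?_, ?_, ?_, ?_, ?_, ?_, ?_⟩
  · simp [e0]
  · simp [e0]
  · simp
  · simp
  · intro s h
    have h1 := inj _ _ (mE s) (by simp) (h.trans γ.extend_one.symm)
    nlinarith [(cl s).1, (cl s).2]
  · intro s h
    have h1 := inj _ _ (mF s) (by simp) (h.trans γ.extend_zero.symm)
    nlinarith [(cl s).1, (cl s).2]
  · intro s h
    rw [← e0] at h
    have h1 := inj _ _ (mE s) ⟨hτ0, hτ1⟩ h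
    apply cl0
    have : τ * max 0 (min s 1) = 0 := by linarith
    exact (mul_eq_zero.1 this).resolve_left t0.ne'
  · intro s h
    rw [← e0] at h
    have h1 := inj _ _ (mF s) ⟨hτ0, hτ1⟩ h
    apply cl0
    have : (1 - τ) * max 0 (min s 1) = 0 := by linarith
    exact (mul_eq_zero.1 this).resolve_left (by linarith)
  · intro s t h
    have h1 := inj _ _ (mE s) (mF t) h
    have h2 := (cl s).1
    have h3 := (cl t).1
    have h4 : 0 ≤ τ * max 0 (min s 1) := mul_nonneg t0.le h2
    have h5 : 0 ≤ (1 - τ) * max 0 (min t 1) := mul_nonneg (by linarith) h3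
    constructor
    · apply cl0
      have : τ * max 0 (min s 1) = 0 := by linarith
      exact (mul_eq_zero.1 this).resolve_left t0.ne'
    · apply cl0
      have : (1 - τ) * max 0 (min t 1) = 0 := by linarith
      exact (mul_eq_zero.1 this).resolve_left (by linarith)
  · intro z hz
    have hz' : ∀ t, γ.extend t ≠ z := fun t h => hz (h ▸ mem t)
    obtain ⟨L, hL, hexp⟩ := lift1 (g := fun t => γ.extend t - z) (by fun_prop)
      (fun t => sub_ne_zero.2 (hz' t))
    unfold al
    rw [lv_eq hL hexp, lv_eq (g := fun t => γ.extend (τ + (1 - τ) * max 0 (min t 1)) - z)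
      (L := fun t => L (τ + (1 - τ) * max 0 (min t 1))) (by fun_prop) (fun t => hexp _),
      lv_eq (g := fun t => γ.extend (τ - τ * max 0 (min t 1)) - z)
      (L := fun t => L (τ - τ * max 0 (min t 1))) (by fun_prop) (fun t => hexp _)]
    simp
  · intro s hs
    have : max 0 (min s 1) = 0 := by rw [max_eq_left]; exact (min_le_left _ _).trans hs
    simp only [this, mul_zero, sub_zero, e0]
  · intro s hs
    have : max 0 (min s 1) = 0 := by rw [max_eq_left]; exact (min_le_left _ _).trans hs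
    simp only [this, mul_zero, add_zero, e0]

/-- two arcs which cross properly in one point, and have no other common points, have an odd
crossing number -/
theorem dd_cross {a b c d x : ℂ} {γ : Path a b} {δ : Path c d} (hγ : Function.Injective γ)
    (hδ : Function.Injective δ) (hx1 : x ∈ range γ) (hx2 : x ∈ range δ)
    (hu : ∀ z, z ∈ range γ → z ∈ range δ → z = x)
    (na : x ≠ a) (nb : x ≠ b) (nc : x ≠ c) (nd : x ≠ d)
    (hp : Pool.Agent.H858R3.TopoGraph.IsProperCrossing (range γ) (range δ) x) :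
    ∃ σ : ℂ, exp σ = -1 ∧ dd γ.extend δ.extend = 2 * σ := by
  obtain ⟨A, B, cA, cB, A0, B0, A1, B1, mA, mB, nAb, nBa, Ax, Bx, AB, hAB, -, -⟩ :=
    split' hγ hx1 na nb
  obtain ⟨C, E, cC, cE, C0, E0, C1, E1, mC, mE, nCd, nEc, Cx, Ex, CE, hCE, -, -⟩ :=
    split' hδ hx2 nc nd
  have AC : Cor A C := fun s t h => by
    have h1 := hu _ (mA s) (by rw [h]; exact mC t)
    exact ⟨Ax s h1, Cx t (by rw [← h]; exact h1)⟩
  have AE : Cor A E := fun s t h => by
    have h1 := hu _ (mA s) (by rw [h]; exact mE t)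
    exact ⟨Ax s h1, Ex t (by rw [← h]; exact h1)⟩
  have BC : Cor B C := fun s t h => by
    have h1 := hu _ (mB s) (by rw [h]; exact mC t)
    exact ⟨Bx s h1, Cx t (by rw [← h]; exact h1)⟩
  have BE : Cor B E := fun s t h => by
    have h1 := hu _ (mB s) (by rw [h]; exact mE t)
    exact ⟨Bx s h1, Ex t (by rw [← h]; exact h1)⟩
  obtain ⟨φ, hφ1, hφ2, hφ3⟩ := hp
  obtain ⟨k1, k2⟩ := crossing_sign cA cB cC cE (A0.trans B0.symm) (A0.trans C0.symm)
    (A0.trans E0.symm) AB AC AE BC BE CE _ _ φ (by rw [A0]; exact hφ1)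
    (by rw [A0]; exact hφ2) hφ3 (fun s _ _ => mA s) (fun s _ _ => mB s)
    (fun s _ _ => mC s) (fun s _ _ => mE s)
  refine ⟨S A B C, S_exp cA cB cC (A0.trans B0.symm) (A0.trans C0.symm) AB BC AC.symm, ?_⟩
  have hbn : b ∉ range δ := fun h => nb (hu b ⟨1, by simp⟩ h).symm
  have han : a ∉ range δ := fun h => na (hu a ⟨0, by simp⟩ h).symm
  have hdn : d ∉ range γ := fun h => nd (hu d h ⟨1, by simp⟩).symm
  have hcn : c ∉ range γ := fun h => nc (hu c h ⟨0, by simp⟩).symm
  have k3 := S_cocycle A B C E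
  unfold dd
  rw [γ.extend_one, γ.extend_zero, δ.extend_one, δ.extend_zero, hCE b hbn, hCE a han, hAB d hdn,
    hAB c hcn]
  have k4 : S E B C = S B C E := S_rot E B C |>.symm
  have k5 : S A E C = - S A C E := by rw [← S_swap]
  have key : (al b E - al b C) - (al a E - al a C) - (al d B - al d A) + (al c B - al c A) =
      S E B C + S A E C := by
    unfold S
    simp only [beta_al]
    rw [A1, B1, C1, E1]
    ring
  rw [key, k4, k5, k2]
  linear_combination - k3 - k1 + k2

theorem log_diff {φ : ℝ} (h0 : 0 < φ) (h1 : φ < 2 * Real.pi) :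
    log (1 - exp (φ * I)) - log (1 - exp (-(φ * I))) = (φ - Real.pi) * I := by
  have hs : 0 < Real.sin (φ / 2) := Real.sin_pos_of_pos_of_lt_pi (by linarith) (by linarith)
  have hw : 1 - exp (-(φ * I)) = ((2 * Real.sin (φ / 2) : ℝ) : ℂ) *
      (Complex.cos (((Real.pi - φ) / 2 : ℝ) : ℂ) + Complex.sin (((Real.pi - φ) / 2 : ℝ) : ℂ) * I) := by
    have e1 : Real.cos ((Real.pi - φ) / 2) = Real.sin (φ / 2) := by
      rw [← Real.cos_pi_div_two_sub]; congr 1; ring
    have e2 : Real.sin ((Real.pi - φ) / 2) = Real.cos (φ / 2) := by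
      rw [← Real.sin_pi_div_two_sub]; congr 1; ring
    rw [← ofReal_cos, ← ofReal_sin, e1, e2]
    have e3 : exp (-(φ * I)) = (Real.cos φ : ℂ) - (Real.sin φ : ℂ) * I := by
      have : (-(φ * I) : ℂ) = ((-φ : ℝ) : ℂ) * I := by push_cast; ring
      rw [this, exp_mul_I, ← ofReal_cos, ← ofReal_sin, Real.cos_neg, Real.sin_neg]
      push_cast; ring
    have e4 : Real.cos φ = 1 - 2 * Real.sin (φ / 2) ^ 2 := by
      have := Real.cos_two_mul (φ / 2)
      have h2 := Real.sin_sq_add_cos_sq (φ / 2)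
      rw [show 2 * (φ / 2) = φ by ring] at this
      linarith
    have e5 : Real.sin φ = 2 * Real.sin (φ / 2) * Real.cos (φ / 2) := by
      have := Real.sin_two_mul (φ / 2)
      rwa [show 2 * (φ / 2) = φ by ring] at this
    rw [e3, e4, e5]
    push_cast
    ring
  have harg : arg (1 - exp (-(φ * I))) = (Real.pi - φ) / 2 := by
    rw [hw, Complex.arg_mul_cos_add_sin_mul_I (by positivity)]
    constructor <;> [linarith [Real.pi_pos]; linarith [Real.pi_pos]]
  have hconj : 1 - exp (φ * I) = (starRingEnd ℂ) (1 - exp (-(φ * I))) := by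
    rw [map_sub, map_one, ← exp_conj, map_neg, map_mul, conj_I, conj_ofReal]
    congr 2; ring
  rw [hconj, Complex.log_conj _ (by rw [harg]; linarith [Real.pi_pos])]
  apply Complex.ext
  · simp
  · simp only [sub_im, conj_im, log_im, harg, mul_im, sub_re, ofReal_re, I_im, ofReal_im, I_re]
    simp
    ring

end Pool.Agent.helper506_rot
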