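import Pool.Agent.helper506_rot.Topo2

/-!
# The orientation of three arcs which leave a point in clockwise order
-/

set_option autoImplicit false

namespace Pool.Agent.helper506_rot

open Complex Set Filter Topology
open Pool.Agent.H858R3.Lift Pool.Agent.H858R3.Cross

/-- the first time at which an arc reaches a circle around its starting point -/
theorem exit_sInf {x y : ℂ} (γ : Path x y) {r : ℝ} (hr : 0 < r) (h1 : r < ‖y - x‖) :
    ∃ a : ℝ, 0 < a ∧ a ≤ 1 ∧ exitPoint γ r = γ.extend a ∧ ‖γ.extend a - x‖ = r ∧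
      ∀ s ∈ Icc 0 a, ‖γ.extend s - x‖ ≤ r := by
  have hX : Continuous γ.extend := γ.continuous_extend
  set K : Set ℝ := {t : ℝ | 0 ≤ t ∧ t ≤ 1 ∧ r ≤ ‖γ.extend t - x‖} with hK
  have hKe : K = Icc (0 : ℝ) 1 ∩ {s | r ≤ ‖γ.extend s - x‖} := by
    ext t; simp [hK, and_assoc]
  have hKc : IsCompact K := by
    rw [hKe]
    exact isCompact_Icc.inter_right (isClosed_le continuous_const (by fun_prop))
  have hKne : K.Nonempty := ⟨1, by
    refine ⟨zero_le_one, le_rfl, ?_⟩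
    rw [γ.extend_one]; exact h1.le⟩
  set a := sInf K with ha'
  have haK : a ∈ K := hKc.sInf_mem hKne
  obtain ⟨ha0, ha1, har⟩ := haK
  have hmin : ∀ t ∈ K, a ≤ t := fun t ht => csInf_le hKc.bddBelow ht
  have hlt : ∀ s, 0 ≤ s → s < a → ‖γ.extend s - x‖ < r := by
    intro s hs hsa
    by_contra hcon
    push Not at hcon
    have := hmin s ⟨hs, by linarith, hcon⟩
    linarith
  have ha : 0 < a := by
    rcases ha0.eq_or_lt with h | h
    · rw [← h, γ.extend_zero] at har; simp at har; linarith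
    · exact h
  have hle : ∀ s ∈ Icc 0 a, ‖γ.extend s - x‖ ≤ r := by
    have hcl : IsClosed {s : ℝ | ‖γ.extend s - x‖ ≤ r} :=
      isClosed_le (by fun_prop) continuous_const
    have hsub : Ico 0 a ⊆ {s : ℝ | ‖γ.extend s - x‖ ≤ r} := fun s hs => (hlt s hs.1 hs.2).le
    have := closure_minimal hsub hcl
    rw [closure_Ico ha.ne] at this
    exact this
  exact ⟨a, ha, ha1, rfl, le_antisymm (hle a ⟨ha.le, le_rfl⟩) har, hle⟩

theorem beta_angle {X Y : ℝ → ℂ} (hX : Continuous X) (hY : Continuous Y) (h0 : X 0 = Y 0)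
    (h : Cor X Y) {a b r : ℝ} (ha : 0 < a) (hb : 0 < b) (hr : 0 < r)
    (hXd : ∀ s ∈ Icc 0 a, ‖X s - X 0‖ ≤ r) (hYd : ∀ s ∈ Icc 0 b, ‖Y s - X 0‖ ≤ r)
    {α β : ℝ} (hα : X a = X 0 + r * exp (α * I)) (hβ : Y b = X 0 + r * exp (β * I))
    (h1 : β < α) (h2 : α < β + 2 * Real.pi) :
    beta X Y a b = ((α - β - Real.pi : ℝ) : ℂ) * I := by
  have hr' : (r : ℂ) ≠ 0 := by exact_mod_cast hr.ne'
  have nX : ‖X a - X 0‖ = r := by
    rw [hα]; simp [Complex.norm_exp_ofReal_mul_I, abs_of_pos hr]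
  have nY : ‖Y b - X 0‖ = r := by
    rw [hβ]; simp [Complex.norm_exp_ofReal_mul_I, abs_of_pos hr]
  have e1 := disc_var hX ha.le hr (w := Y b) nY hXd
    (fun s h1 => absurd (h _ _ h1).2 (not_le.2 hb))
  have e2 := disc_var hY hb.le hr (w := X a) (by rw [← h0]; exact nX)
    (by intro s hs; rw [← h0]; exact hYd s hs) (fun s h1 => absurd (h _ _ h1.symm).1 (not_le.2 ha))
  rw [← h0] at e2
  unfold beta
  rw [e1, e2, hα, hβ]
  have r1 : (X 0 + r * exp (α * I) - X 0) / (X 0 + r * exp (β * I) - X 0) =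
      exp (((α - β : ℝ) : ℂ) * I) := by
    rw [add_sub_cancel_left, add_sub_cancel_left, mul_div_mul_left _ _ hr', ← exp_sub]
    congr 1; push_cast; ring
  have r2 : (X 0 + r * exp (β * I) - X 0) / (X 0 + r * exp (α * I) - X 0) =
      exp (-(((α - β : ℝ) : ℂ) * I)) := by
    rw [add_sub_cancel_left, add_sub_cancel_left, mul_div_mul_left _ _ hr', ← exp_sub]
    congr 1; push_cast; ring
  rw [r1, r2, log_diff (by linarith) (by linarith)]
  push_cast; ring

/-- three arcs which leave a point in clockwise order -/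
theorem S_clockwise {x a b c : ℂ} {γ₁ : Path x a} {γ₂ : Path x b} {γ₃ : Path x c}
    (h12 : Cor γ₁.extend γ₂.extend) (h23 : Cor γ₂.extend γ₃.extend)
    (h31 : Cor γ₃.extend γ₁.extend) {r : ℝ} (hr : 0 < r) (ha : r < ‖a - x‖) (hb : r < ‖b - x‖)
    (hc : r < ‖c - x‖) {θ₁ θ₂ θ₃ : ℝ} (e1 : exitPoint γ₁ r = x + r * exp (θ₁ * I))
    (e2 : exitPoint γ₂ r = x + r * exp (θ₂ * I)) (e3 : exitPoint γ₃ r = x + r * exp (θ₃ * I))
    (t12 : θ₂ < θ₁) (t23 : θ₃ < θ₂) (t31 : θ₁ < θ₃ + 2 * Real.pi) :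
    S γ₁.extend γ₂.extend γ₃.extend = - (Real.pi * I) := by
  obtain ⟨s₁, p1, p1', q1, n1, d1⟩ := exit_sInf γ₁ hr ha
  obtain ⟨s₂, p2, p2', q2, n2, d2⟩ := exit_sInf γ₂ hr hb
  obtain ⟨s₃, p3, p3', q3, n3, d3⟩ := exit_sInf γ₃ hr hc
  rw [q1] at e1
  rw [q2] at e2
  rw [q3] at e3
  have z1 := γ₁.extend_zero
  have z2 := γ₂.extend_zero
  have z3 := γ₃.extend_zero
  have c1 := γ₁.continuous_extend
  have c2 := γ₂.continuous_extend
  have c3 := γ₃.continuous_extend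
  set X := γ₁.extend
  set Y := γ₂.extend
  set Z := γ₃.extend
  rw [← S_tr c1 c2 c3 (z1.trans z2.symm) (z1.trans z3.symm) h12 h23 h31 p1 p2 p3 p1' p2' p3']
  unfold S
  rw [beta_tr c1 c2 h12 p1 p2, beta_tr c2 c3 h23 p2 p3, beta_tr c3 c1 h31 p3 p1]
  rw [beta_anti X Z]
  have k1 := beta_angle c1 c2 (z1.trans z2.symm) h12 p1 p2 hr (by rw [z1]; exact d1)
    (by rw [z1]; exact d2) (by rw [z1]; exact e1) (by rw [z1]; exact e2) t12 (by linarith)
  have k2 := beta_angle c2 c3 (z2.trans z3.symm) h23 p2 p3 hr (by rw [z2]; exact d2)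
    (by rw [z2]; exact d3) (by rw [z2]; exact e2) (by rw [z2]; exact e3) t23 (by linarith)
  have k3 := beta_angle c1 c3 (z1.trans z3.symm) h31.symm p1 p3 hr (by rw [z1]; exact d1)
    (by rw [z1]; exact d3) (by rw [z1]; exact e1) (by rw [z1]; exact e3) (by linarith)
    (by linarith)
  rw [k1, k2, k3]
  push_cast
  ring

end Pool.Agent.helper506_rot
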