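import Pool.Agent.helper506_rot.Topo3

/-!
# Facts on good drawings
-/

set_option autoImplicit false

namespace Pool.Agent.helper506_rot

open Complex Set Filter Topology
open Pool.Agent.H858R3.Lift Pool.Agent.H858R3.Cross

namespace GoodDrawing

variable {V : Type} {G : SimpleGraph V} (D : GoodDrawing G)

/-- the arc of an edge, as a function on the real line -/
noncomputable def X (u v : V) : ℝ → ℂ := (D.arc u v).extend

/-- the arcs of two edges have a common point -/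
def Meet (u v u' v' : V) : Prop := ∃ z, z ∈ range (D.arc u v) ∧ z ∈ range (D.arc u' v')

/-- the orientation of the arcs from `v` to `x`, `y`, `z` -/
noncomputable def T (v x y z : V) : ℂ := S (D.X v x) (D.X v y) (D.X v z)

theorem cX (u v : V) : Continuous (D.X u v) := (D.arc u v).continuous_extend

theorem X_zero (u v : V) : D.X u v 0 = D.pt u := (D.arc u v).extend_zero

theorem X_one (u v : V) : D.X u v 1 = D.pt v := (D.arc u v).extend_one

theorem X_mem (u v : V) (t : ℝ) : D.X u v t ∈ range (D.arc u v) := extend_mem _ _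

theorem source_mem (u v : V) : D.pt u ∈ range (D.arc u v) := ⟨0, by simp⟩

theorem target_mem (u v : V) : D.pt v ∈ range (D.arc u v) := ⟨1, by simp⟩

variable {D}

theorem range_symm {u v : V} (h : G.Adj u v) : range (D.arc v u) = range (D.arc u v) := by
  rw [D.arc_symm u v h, Path.symm_range]

theorem X_rev {u v : V} (h : G.Adj u v) (t : ℝ) : D.X v u t = D.X u v (1 - t) := by
  unfold X
  rw [D.arc_symm u v h, Path.extend_symm_apply]

theorem meet_swap_left {u v u' v' : V} (h : G.Adj u v) : D.Meet v u u' v' ↔ D.Meet u v u' v' := by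
  unfold Meet; rw [range_symm h]

theorem meet_swap_right {u v u' v' : V} (h : G.Adj u' v') :
    D.Meet u v v' u' ↔ D.Meet u v u' v' := by
  unfold Meet; rw [range_symm h]

theorem meet_comm {u v u' v' : V} : D.Meet u v u' v' ↔ D.Meet u' v' u v := by
  unfold Meet; exact exists_congr fun _ => and_comm

theorem ne_of_not_meet {u v u' v' : V} (h : ¬ D.Meet u v u' v') (s t : ℝ) :
    D.X u v s ≠ D.X u' v' t := fun hst =>
  h ⟨_, D.X_mem u v s, by rw [hst]; exact D.X_mem u' v' t⟩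

theorem dd_of_not_meet {u v u' v' : V} (h : ¬ D.Meet u v u' v') :
    dd (D.X u v) (D.X u' v') = 0 := dd_zero (D.cX _ _) (D.cX _ _) (ne_of_not_meet h)

/-- adjacent edges only share their common endpoint -/
theorem adj_common {u v w : V} (hv : G.Adj u v) (hw : G.Adj u w) (hne : v ≠ w) {z : ℂ}
    (h1 : z ∈ range (D.arc u v)) (h2 : z ∈ range (D.arc u w)) : z = D.pt u := by
  refine D.common u v u w hv hw ?_ ⟨h1, h2⟩ ⟨D.source_mem u v, D.source_mem u w⟩
  intro h
  rw [Sym2.eq_iff] at h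
  rcases h with ⟨-, h⟩ | ⟨h, h'⟩
  · exact hne h
  · exact hw.ne h

theorem X_eq_source {u v : V} (hv : G.Adj u v) {s : ℝ} (h : D.X u v s = D.pt u) : s ≤ 0 :=
  extend_eq_source (D.arc_inj u v hv) h

theorem cor {u v w : V} (hv : G.Adj u v) (hw : G.Adj u w) (hne : v ≠ w) :
    Cor (D.X u v) (D.X u w) := by
  intro s t h
  have h1 : D.X u v s = D.pt u :=
    adj_common hv hw hne (D.X_mem u v s) (by rw [h]; exact D.X_mem u w t)
  exact ⟨X_eq_source hv h1, X_eq_source hw (by rw [← h]; exact h1)⟩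

theorem T_exp {v x y z : V} (hx : G.Adj v x) (hy : G.Adj v y) (hz : G.Adj v z) (hxy : x ≠ y)
    (hyz : y ≠ z) (hzx : z ≠ x) : exp (D.T v x y z) = -1 :=
  S_exp (D.cX _ _) (D.cX _ _) (D.cX _ _) (by rw [X_zero, X_zero]) (by rw [X_zero, X_zero])
    (cor hx hy hxy) (cor hy hz hyz) (cor hz hx hzx)

variable (D) in
theorem T_swap (v x y z : V) : D.T v x z y = - D.T v x y z := S_swap _ _ _

variable (D) in
theorem T_rot (v x y z : V) : D.T v y z x = D.T v x y z := S_rot _ _ _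

theorem dd_of_meet {u v u' v' : V} (h : G.Adj u v) (h' : G.Adj u' v') (n1 : u ≠ u') (n2 : u ≠ v')
    (n3 : v ≠ u') (n4 : v ≠ v') (hm : D.Meet u v u' v') :
    ∃ σ : ℂ, exp σ = -1 ∧ dd (D.X u v) (D.X u' v') = 2 * σ := by
  obtain ⟨x, hx1, hx2⟩ := hm
  have hne : s(u, v) ≠ s(u', v') := by
    intro h
    rw [Sym2.eq_iff] at h
    rcases h with ⟨h, -⟩ | ⟨h, -⟩
    · exact n1 h
    · exact n2 h
  have hn : ∀ w, x ≠ D.pt w := by
    intro w hw
    have a1 := D.avoid u v h w (by rw [← hw]; exact hx1)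
    have a2 := D.avoid u' v' h' w (by rw [← hw]; exact hx2)
    rcases a1 with rfl | rfl <;> rcases a2 with rfl | rfl
    · exact n1 rfl
    · exact n2 rfl
    · exact n3 rfl
    · exact n4 rfl
  obtain ⟨φ, hφ⟩ := D.proper u v u' v' h h' hne x ⟨hx1, hx2⟩ (by rintro ⟨w, hw⟩; exact hn w hw.symm)
  exact dd_cross (D.arc_inj u v h) (D.arc_inj u' v' h') hx1 hx2
    (fun z h1 h2 => D.common u v u' v' h h' hne ⟨h1, h2⟩ ⟨hx1, hx2⟩)
    (hn _) (hn _) (hn _) (hn _) ⟨φ, hφ⟩

theorem ne_zero_of_exp {σ : ℂ} (h : exp σ = -1) : σ ≠ 0 := by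
  rintro rfl
  rw [exp_zero] at h
  norm_num at h

/-- opposite edges of a closed walk of length four do not both cross -/
theorem quad' {a b c d : V} (hab : G.Adj a b) (hbc : G.Adj b c) (hcd : G.Adj c d)
    (hda : G.Adj d a) (hac : a ≠ c) (hbd : b ≠ d) (h1 : D.Meet a b c d) (h2 : D.Meet b c d a) :
    False := by
  obtain ⟨x, hx1, hx2⟩ := h1
  obtain ⟨y, hy1, hy2⟩ := h2
  have av : ∀ {u v u' v' : V} {x : ℂ}, G.Adj u v → G.Adj u' v' → u ≠ u' → u ≠ v' → v ≠ u' →
      v ≠ v' → x ∈ range (D.arc u v) → x ∈ range (D.arc u' v') → ∀ w, x ≠ D.pt w := by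
    intro u v u' v' x h h' n1 n2 n3 n4 hx1 hx2 w hw
    have a1 := D.avoid u v h w (by rw [← hw]; exact hx1)
    have a2 := D.avoid u' v' h' w (by rw [← hw]; exact hx2)
    rcases a1 with rfl | rfl <;> rcases a2 with rfl | rfl
    · exact n1 rfl
    · exact n2 rfl
    · exact n3 rfl
    · exact n4 rfl
  have nx := av hab hcd hac hda.ne.symm hbc.ne hbd hx1 hx2
  have ny := av hbc hda hbd hab.ne.symm hcd.ne hac.symm hy1 hy2
  have ne1 : s(a, b) ≠ s(c, d) := by
    intro h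
    rw [Sym2.eq_iff] at h
    rcases h with ⟨h, -⟩ | ⟨h, -⟩
    · exact hac h
    · exact hda.ne h.symm
  have ne2 : s(b, c) ≠ s(d, a) := by
    intro h
    rw [Sym2.eq_iff] at h
    rcases h with ⟨h, -⟩ | ⟨h, -⟩
    · exact hbd h
    · exact hab.ne h.symm
  have adj : ∀ {u v w : V}, G.Adj u v → G.Adj v w → u ≠ w → ∀ z, z ∈ range (D.arc u v) →
      z ∈ range (D.arc v w) → z = D.pt v := by
    intro u v w huv hvw huw z h1 h2
    rw [← range_symm huv] at h1
    exact adj_common huv.symm hvw huw h1 h2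
  obtain ⟨φ, hφ⟩ := D.proper a b c d hab hcd ne1 x ⟨hx1, hx2⟩
    (by rintro ⟨w, hw⟩; exact nx w hw.symm)
  obtain ⟨ψ, hψ⟩ := D.proper b c d a hbc hda ne2 y ⟨hy1, hy2⟩
    (by rintro ⟨w, hw⟩; exact ny w hw.symm)
  exact Pool.Agent.H858R3.TopoGraph.quad (a := D.pt a) (b := D.pt b) (c := D.pt c) (d := D.pt d)
    (x := x) (y := y) ⟨_, D.arc_inj a b hab, rfl⟩ ⟨_, D.arc_inj b c hbc, rfl⟩
    ⟨_, D.arc_inj c d hcd, rfl⟩ ⟨_, D.arc_inj d a hda, rfl⟩ (adj hab hbc hac) (adj hbc hcd hbd)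
    (adj hcd hda hac.symm) (adj hda hab hbd.symm)
    (fun z h h' => D.common a b c d hab hcd ne1 ⟨h, h'⟩ ⟨hx1, hx2⟩)
    (fun z h h' => D.common b c d a hbc hda ne2 ⟨h, h'⟩ ⟨hy1, hy2⟩)
    hx1 hx2 hy1 hy2 (nx a) (nx b) (nx c) (nx d) (ny a) (ny b) (ny c) (ny d) ⟨φ, hφ⟩ ⟨ψ, hψ⟩

theorem pt_ne {u v w : V} (h : G.Adj u v) (hu : w ≠ u) (hv : w ≠ v) (t : ℝ) :
    D.X u v t ≠ D.pt w := by
  intro hw
  rcases D.avoid u v h w (by rw [← hw]; exact D.X_mem u v t) with h1 | h1
  · exact hu h1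
  · exact hv h1

/-- two vertices `P`, `i` joined by an edge, with common neighbours `j`, `k`, and compatible
rotations: the opposite edges do not cross -/
theorem compat {P i j k : V} (hPi : G.Adj P i) (hPj : G.Adj P j) (hPk : G.Adj P k)
    (hij : G.Adj i j) (hik : G.Adj i k) (hjk : j ≠ k) (hT : D.T P i j k + D.T i P j k = 0) :
    ¬ D.Meet i j P k ∧ ¬ D.Meet i k P j := by
  have key := thetaD (Pi := D.X P i) (Pj := D.X P j) (Pk := D.X P k) (iP := D.X i P)
    (ij := D.X i j) (ik := D.X i k) (D.cX _ _) (by simp [X_zero]) (by simp [X_zero])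
    (by simp [X_zero]) (by simp [X_zero]) (by simp [X_zero, X_one]) (by simp [X_zero, X_one])
    (by simp [X_one]) (by simp [X_one]) (fun t => X_rev hPi t)
    (fun t => by rw [X_one]; exact pt_ne hPi hPj.ne.symm hij.ne.symm t)
    (fun t => by rw [X_one]; exact pt_ne hPi hPk.ne.symm hik.ne.symm t)
  have key' : dd (D.X P k) (D.X i j) = dd (D.X P j) (D.X i k) := by
    have : D.T P i j k + D.T i P j k = dd (D.X P k) (D.X i j) - dd (D.X P j) (D.X i k) := key
    rw [hT] at this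
    linear_combination -this
  have two : ∀ {σ : ℂ}, exp σ = -1 → 2 * σ ≠ 0 := fun h => mul_ne_zero two_ne_zero (ne_zero_of_exp h)
  constructor
  · intro hm
    have hm' : D.Meet P k i j := meet_comm.1 hm
    obtain ⟨σ, hσ, hd⟩ := dd_of_meet hPk hij hPi.ne hPj.ne hik.ne.symm hjk.symm hm'
    have hm2 : D.Meet P j i k := by
      by_contra hcon
      rw [key', dd_of_not_meet hcon] at hd
      exact two hσ hd.symm
    refine quad' (a := P) (b := k) (c := i) (d := j) hPk hik.symm hij hPj.symm hPi.ne hjk.symm hm' ?_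
    rw [meet_swap_left hik, meet_swap_right hPj]
    exact meet_comm.1 hm2
  · intro hm
    have hm' : D.Meet P j i k := meet_comm.1 hm
    obtain ⟨σ, hσ, hd⟩ := dd_of_meet hPj hik hPi.ne hPk.ne hij.ne.symm hjk hm'
    have hm2 : D.Meet P k i j := by
      by_contra hcon
      rw [← key', dd_of_not_meet hcon] at hd
      exact two hσ hd.symm
    refine quad' (a := P) (b := j) (c := i) (d := k) hPj hij.symm hik hPk.symm hPi.ne hjk hm' ?_
    rw [meet_swap_left hij, meet_swap_right hPk]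
    exact meet_comm.1 hm2

/-- the edge `a b` crosses exactly one of the two edges of the path `O m P` -/
theorem one_side {O P a b m : V} (hOa : G.Adj O a) (hOb : G.Adj O b) (hOm : G.Adj O m)
    (hOP : G.Adj O P) (hab : G.Adj a b) (hmP : G.Adj m P) (hma : m ≠ a) (hmb : m ≠ b)
    (hPa : P ≠ a) (hPb : P ≠ b)
    (n1 : ¬ D.Meet m P O a) (n2 : ¬ D.Meet m P O b) (n3 : ¬ D.Meet a b O P)
    (hT : exp ((D.T O a b m - D.T O a b P) / 2) = -1) :
    (D.Meet a b O m ∧ ¬ D.Meet a b m P) ∨ (¬ D.Meet a b O m ∧ D.Meet a b m P) := by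
  classical
  have key := wheelD (s₁ := D.X O a) (s₂ := D.X O b) (s₃ := D.X O m) (s₄ := D.X O P)
    (r₁₂ := D.X a b) (r₃₄ := D.X m P) (by simp [X_zero]) (by simp [X_zero]) (by simp [X_zero])
    (by simp [X_zero, X_one]) (by simp [X_one]) (by simp [X_zero, X_one]) (by simp [X_one])
  have key' : D.T O a b m - D.T O a b P = dd (D.X m P) (D.X O a) - dd (D.X m P) (D.X O b) -
      dd (D.X a b) (D.X O m) + dd (D.X a b) (D.X O P) - dd (D.X a b) (D.X m P) := key
  rw [dd_of_not_meet n1, dd_of_not_meet n2, dd_of_not_meet n3] at key'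
  rw [key'] at hT
  have hd1 : exp (dd (D.X a b) (D.X O m) / 2) = if D.Meet a b O m then -1 else 1 := by
    split_ifs with h
    · obtain ⟨σ, hσ, hd⟩ := dd_of_meet hab hOm hOa.ne.symm hma.symm hOb.ne.symm hmb.symm h
      rw [hd, mul_div_cancel_left₀ _ two_ne_zero, hσ]
    · rw [dd_of_not_meet h]; simp
  have hd2 : exp (dd (D.X a b) (D.X m P) / 2) = if D.Meet a b m P then -1 else 1 := by
    split_ifs with h
    · obtain ⟨σ, hσ, hd⟩ := dd_of_meet hab hmP hma.symm hPa.symm hmb.symm hPb.symm h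
      rw [hd, mul_div_cancel_left₀ _ two_ne_zero, hσ]
    · rw [dd_of_not_meet h]; simp
  have e : (0 - 0 - dd (D.X a b) (D.X O m) + 0 - dd (D.X a b) (D.X m P)) / 2 =
      - (dd (D.X a b) (D.X O m) / 2 + dd (D.X a b) (D.X m P) / 2) := by ring
  rw [e, exp_neg, exp_add, hd1, hd2] at hT
  by_cases h1 : D.Meet a b O m <;> by_cases h2 : D.Meet a b m P
  · rw [if_pos h1, if_pos h2] at hT; norm_num at hT
  · exact Or.inl ⟨h1, h2⟩
  · exact Or.inr ⟨h1, h2⟩
  · rw [if_neg h1, if_neg h2] at hT; norm_num at hT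

/-- the restriction of an edge to an initial part -/
theorem tr_edge {u v : V} (h : G.Adj u v) {x : ℂ} (hx : x ∈ range (D.arc u v))
    (hu : x ≠ D.pt u) : ∃ c : ℝ, 0 < c ∧ c ≤ 1 ∧ D.X u v c = x := by
  obtain ⟨c, hc, hcx⟩ := mem_extend hx
  refine ⟨c, ?_, hc.2, hcx⟩
  rcases hc.1.eq_or_lt with h | h
  · exfalso; apply hu
    rw [← hcx, ← h]; exact X_zero D u v
  · exact h

theorem tr_range {u v : V} {c : ℝ} (t : ℝ) : tr (D.X u v) c t ∈ range (D.arc u v) := D.X_mem _ _ _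

theorem tr_ne_target {u v : V} (h : G.Adj u v) {c : ℝ} (hc : 0 < c) (hc1 : c ≤ 1)
    (hne : D.X u v c ≠ D.pt v) (t : ℝ) : tr (D.X u v) c t ≠ D.pt v := by
  intro ht
  obtain ⟨s, hs0, hsc, hs, -, -⟩ := tr_mem (X := D.X u v) hc t
  rw [hs] at ht
  have h1 : s = 1 := by
    apply extend_inj (D.arc_inj u v h) ⟨hs0, hsc.trans hc1⟩ ⟨zero_le_one, le_rfl⟩
    exact ht.trans (X_one D u v).symm
  have h2 : c = 1 := le_antisymm hc1 (h1 ▸ hsc)
  exact hne (by rw [h2, X_one])

theorem tr_one_X (u v : V) : tr (D.X u v) 1 = D.X u v := tr_one_extend _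

/-- the edge `p r` does not cross `P a` -/
theorem confined {P Q a p r : V} (hPa : G.Adj P a) (hPp : G.Adj P p) (hPr : G.Adj P r)
    (hQp : G.Adj Q p) (hQr : G.Adj Q r) (hpr : G.Adj p r) (hPQ : P ≠ Q) (hap : a ≠ p) (har : a ≠ r)
    (n1 : ¬ D.Meet P p Q r) (n2 : ¬ D.Meet P a Q p) (n3 : ¬ D.Meet P a Q r)
    (hT : D.T p P Q r + D.T P p r a ≠ 0) : ¬ D.Meet p r P a := by
  rintro ⟨w, hw1, hw2⟩
  have nw : ∀ v, w ≠ D.pt v := by
    intro v hv
    have a1 := D.avoid p r hpr v (by rw [← hv]; exact hw1)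
    have a2 := D.avoid P a hPa v (by rw [← hv]; exact hw2)
    rcases a1 with rfl | rfl <;> rcases a2 with rfl | rfl
    · exact hPp.ne rfl
    · exact hap rfl
    · exact hPr.ne rfl
    · exact har rfl
  obtain ⟨c, hc0, hc1, hc⟩ := tr_edge hpr hw1 (nw p)
  obtain ⟨d, hd0, hd1, hd⟩ := tr_edge hPa hw2 (nw P)
  apply hT
  have e1 : D.T p P Q r = S (D.X p P) (D.X p Q) (tr (D.X p r) c) := by
    have := S_tr (D.cX p P) (D.cX p Q) (D.cX p r) (by simp [X_zero]) (by simp [X_zero])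
      (cor hPp.symm hQp.symm hPQ) (cor hQp.symm hpr hQr.ne) (cor hpr hPp.symm hPr.ne.symm)
      one_pos one_pos hc0 le_rfl le_rfl hc1
    rw [tr_one_X, tr_one_X] at this
    exact this.symm
  have e2 : D.T P p r a = S (D.X P p) (D.X P r) (tr (D.X P a) d) := by
    have := S_tr (D.cX P p) (D.cX P r) (D.cX P a) (by simp [X_zero]) (by simp [X_zero])
      (cor hPp hPr hpr.ne) (cor hPr hPa har.symm) (cor hPa hPp hap)
      one_pos one_pos hd0 le_rfl le_rfl hd1
    rw [tr_one_X, tr_one_X] at this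
    exact this.symm
  rw [e1, e2]
  apply theta5 (Qr := D.X Q r) (D.cX _ _) (D.cX _ _) (D.cX _ _) (D.cX _ _)
    (tr_cont (D.cX _ _) _) (tr_cont (D.cX _ _) _)
  · simp [X_zero]
  · simp [X_zero, tr_zero]
  · simp [X_zero]
  · simp [X_zero, tr_zero]
  · simp [X_zero, X_one]
  · simp [X_zero, X_one]
  · simp [X_zero, X_one]
  · simp [X_one]
  · rw [tr_one, tr_one, hc, hd]
  · intro t; exact X_rev hPp.symm t
  · intro t h
    rw [tr_one, hc] at h
    have h1 : w = D.pt p := adj_common hpr hPp.symm hPr.ne.symm hw1 (by rw [← h]; exact D.X_mem _ _ _)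
    exact nw p h1
  · intro s t h
    rw [X_rev hPp] at h
    exact n1 ⟨_, D.X_mem _ _ _, by rw [h]; exact D.X_mem _ _ _⟩
  · intro s t h
    rw [X_rev hQp] at h
    exact n2 ⟨_, tr_range s, by rw [h]; exact D.X_mem _ _ _⟩
  · intro s t h
    have h1 : tr (D.X p r) c s = D.pt r := by
      apply adj_common hpr.symm hPr.symm hPp.ne.symm
      · rw [range_symm hpr]; exact tr_range s
      · rw [h, range_symm hPr]; exact D.X_mem _ _ _
    exact tr_ne_target hpr hc0 hc1 (by rw [hc]; exact nw r) s h1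
  · intro s t h
    have h1 : tr (D.X p r) c s = D.pt r := by
      apply adj_common hpr.symm hQr.symm hQp.ne.symm
      · rw [range_symm hpr]; exact tr_range s
      · rw [h, range_symm hQr]; exact D.X_mem _ _ _
    exact tr_ne_target hpr hc0 hc1 (by rw [hc]; exact nw r) s h1
  · intro s t h
    exact n3 ⟨_, tr_range s, by rw [h]; exact D.X_mem _ _ _⟩

/-- the main step: the edge `a b` cannot cross `P q` if it crosses neither `P p` nor `P r` and if
the edge `p r` passes between -/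
theorem blocked {P a b p q r : V} (hPa : G.Adj P a) (hPb : G.Adj P b) (hPp : G.Adj P p)
    (hPq : G.Adj P q) (hPr : G.Adj P r) (hab : G.Adj a b) (hpr : G.Adj p r)
    (hap : a ≠ p) (har : a ≠ r) (haq : a ≠ q) (hbp : b ≠ p) (hbr : b ≠ r) (hbq : b ≠ q)
    (hqp : q ≠ p) (hqr : q ≠ r)
    (m : D.Meet a b P q) (n1 : ¬ D.Meet a b P p) (n2 : ¬ D.Meet a b P r)
    (n3 : ¬ D.Meet p r P q) (n4 : ¬ D.Meet p r P a) (n5 : ¬ D.Meet p r P b)
    (hTa : D.T P p r q ≠ D.T P p r a) (hTb : D.T P p r q ≠ D.T P p r b) : False := by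
  obtain ⟨y, hy1, hy2⟩ := m
  have ny : ∀ v, y ≠ D.pt v := by
    intro v hv
    have a1 := D.avoid a b hab v (by rw [← hv]; exact hy1)
    have a2 := D.avoid P q hPq v (by rw [← hv]; exact hy2)
    rcases a1 with rfl | rfl <;> rcases a2 with rfl | rfl
    · exact hPa.ne rfl
    · exact haq rfl
    · exact hPb.ne rfl
    · exact hbq rfl
  obtain ⟨E, F, cE, cF, E0, F0, E1, F1, mE, mF, -, -, -, -, hEF, -, hE, -⟩ :=
    split' (D.arc_inj a b hab) hy1 (ny a) (ny b)
  obtain ⟨c, hc0, hc1, hc⟩ := tr_edge hPq hy2 (ny P)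
  have e3 : S (D.X P p) (D.X P r) (tr (D.X P q) c) = D.T P p r q := by
    have := S_tr (D.cX P p) (D.cX P r) (D.cX P q) (by simp [X_zero]) (by simp [X_zero])
      (cor hPp hPr hpr.ne) (cor hPr hPq hqr.symm) (cor hPq hPp hqp)
      one_pos one_pos hc0 le_rfl le_rfl hc1
    rw [tr_one_X, tr_one_X] at this
    exact this
  have main : ∀ {a' : V} {W : ℝ → ℂ}, G.Adj P a' → Continuous W → W 0 = y → W 1 = D.pt a' →
      (∀ s, W s ∈ range (D.arc a b)) → ¬ D.Meet p r P a' → D.T P p r q ≠ D.T P p r a' →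
      ∃ s, W s ∈ range (D.arc p r) := by
    intro a' W hPa' cW W0 W1 mW nm hT
    by_contra hcon
    push Not at hcon
    apply hT
    rw [← e3]
    apply wheel (r₁₂ := D.X p r) (r₃₄ := W) (D.cX _ _) (D.cX _ _) (tr_cont (D.cX _ _) _) (D.cX _ _)
      (D.cX _ _) cW
    · simp [X_zero]
    · simp [X_zero, tr_zero]
    · simp [X_zero]
    · simp [X_zero, X_one]
    · simp [X_one]
    · rw [W0, tr_one, hc]
    · rw [W1, X_one]
    · intro s t h
      exact n3 ⟨_, D.X_mem _ _ _, by rw [h]; exact tr_range t⟩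
    · exact ne_of_not_meet nm
    · intro s t h
      exact n1 ⟨_, mW s, by rw [h]; exact D.X_mem _ _ _⟩
    · intro s t h
      exact n2 ⟨_, mW s, by rw [h]; exact D.X_mem _ _ _⟩
    · intro s t h
      exact hcon t (by rw [← h]; exact D.X_mem _ _ _)
  obtain ⟨s, hs⟩ := main hPa cE E0 E1 mE n4 hTa
  obtain ⟨t, ht⟩ := main hPb cF F0 F1 mF n5 hTb
  have hne : s(a, b) ≠ s(p, r) := by
    intro h
    rw [Sym2.eq_iff] at h
    rcases h with ⟨h, -⟩ | ⟨h, -⟩
    · exact hap h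
    · exact har h
  have h1 := D.common a b p r hab hpr hne ⟨mE s, hs⟩ ⟨mF t, ht⟩
  have h2 := hE s (hEF s t h1).1
  exact n3 ⟨y, by rw [← h2]; exact hs, hy2⟩

end GoodDrawing

end Pool.Agent.helper506_rot
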