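import Pool.Agent.helper506_rot.Frame

/-!
# Triples of edges at a vertex
-/

set_option autoImplicit false

namespace Pool.Agent.helper506_rot

open Complex Set Filter Topology
open Pool.Agent.H858R3.Lift Pool.Agent.H858R3.Cross

open GoodDrawing

variable {V : Type} {G : SimpleGraph V} {D : GoodDrawing G}

/-- three edges in the clockwise order -/
theorem T_of_leave {v x y z : V} {l : List V} (hL : D.LeaveClockwise v l)
    (hsub : List.Sublist [x, y, z] l) (hx : G.Adj v x) (hy : G.Adj v y) (hz : G.Adj v z)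
    (hxy : x ≠ y) (hyz : y ≠ z) (hzx : z ≠ x) : D.T v x y z = cw := by
  rw [List.sublist_iff_exists_fin_orderEmbedding_get_eq] at hsub
  obtain ⟨f, hf⟩ := hsub
  have key : ∃ (i j k : ℕ) (h1 : i < j) (h2 : j < k) (h3 : k < l.length),
      x = l[i]'(by omega) ∧ y = l[j]'(by omega) ∧ z = l[k]'h3 :=
    ⟨f ⟨0, by simp⟩, f ⟨1, by simp⟩, f ⟨2, by simp⟩,
      f.strictMono (show (⟨0, by simp⟩ : Fin [x, y, z].length) < ⟨1, by simp⟩ by simp),
      f.strictMono (show (⟨1, by simp⟩ : Fin [x, y, z].length) < ⟨2, by simp⟩ by simp),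
      (f ⟨2, by simp⟩).2, hf ⟨0, by simp⟩, hf ⟨1, by simp⟩, hf ⟨2, by simp⟩⟩
  obtain ⟨i, j, k, i01, i12, i2, h0, h1, h2⟩ := key
  have nx : 0 < ‖D.pt x - D.pt v‖ := norm_pos_iff.2 (sub_ne_zero.2 fun h => hx.ne (D.pt_inj h).symm)
  have ny : 0 < ‖D.pt y - D.pt v‖ := norm_pos_iff.2 (sub_ne_zero.2 fun h => hy.ne (D.pt_inj h).symm)
  have nz : 0 < ‖D.pt z - D.pt v‖ := norm_pos_iff.2 (sub_ne_zero.2 fun h => hz.ne (D.pt_inj h).symm)
  have ev : ∀ᶠ r : ℝ in 𝓝[>] 0, 0 < r ∧ r < ‖D.pt x - D.pt v‖ ∧ r < ‖D.pt y - D.pt v‖ ∧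
      r < ‖D.pt z - D.pt v‖ := by
    filter_upwards [Ioo_mem_nhdsGT nx, Ioo_mem_nhdsGT ny, Ioo_mem_nhdsGT nz] with r a b c
    exact ⟨a.1, a.2, b.2, c.2⟩
  obtain ⟨r, ⟨θ, hθ, he⟩, hr0, hrx, hry, hrz⟩ := (hL.and ev).exists
  have e0 := he i (by omega)
  have e1 := he j (by omega)
  have e2 := he k i2
  rw [← h0] at e0
  rw [← h1] at e1
  rw [← h2] at e2
  exact S_clockwise (cor hx hy hxy) (cor hy hz hyz) (cor hz hx hzx) hr0 hrx hry hrz e0 e1 e2
    (hθ i j i01 (by omega)).1 (hθ j k i12 i2).1 (hθ i k (by omega) i2).2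

/-- two elements of a sorted list -/
theorem pair_sublist {R : ℕ → ℕ → Prop} {x y : ℕ} : ∀ {l : List ℕ}, l.Pairwise R → x ∈ l → y ∈ l →
    x ≠ y → ¬ R y x → List.Sublist [x, y] l := by
  intro l
  induction l with
  | nil => intro _ h; simp at h
  | cons a l ih =>
    intro hp hx hy hne hR
    rw [List.pairwise_cons] at hp
    rw [List.mem_cons] at hx hy
    rcases hx with rfl | hx
    · have hy' : y ∈ l := hy.resolve_left fun h => hne h.symm
      exact (List.singleton_sublist.2 hy').cons_cons _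
    · rcases hy with rfl | hy
      · exact absurd (hp.1 x hx) hR
      · exact (ih hp.2 hx hy hne hR).cons _

/-- three elements of a sorted list -/
theorem triple_sublist {R : ℕ → ℕ → Prop} {x y z : ℕ} : ∀ {l : List ℕ}, l.Pairwise R → x ∈ l →
    y ∈ l → z ∈ l → x ≠ y → y ≠ z → z ≠ x → ¬ R y x → ¬ R z x → ¬ R z y →
    List.Sublist [x, y, z] l := by
  intro l
  induction l with
  | nil => intro _ h; simp at h
  | cons a l ih =>
    intro hp hx hy hz n1 n2 n3 h1 h2 h3
    have hp' := hp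
    rw [List.pairwise_cons] at hp
    rw [List.mem_cons] at hx hy hz
    rcases hx with rfl | hx
    · have hy' : y ∈ l := hy.resolve_left fun h => n1 h.symm
      have hz' : z ∈ l := hz.resolve_left n3
      exact (pair_sublist hp.2 hy' hz' n2 h3).cons_cons _
    · rcases hy with rfl | hy
      · exact absurd (hp.1 x hx) h1
      · rcases hz with rfl | hz
        · exact absurd (hp.1 x hx) h2
        · exact (ih hp.2 hx hy hz n1 n2 n3 h1 h2 h3).cons _

end Pool.Agent.helper506_rot
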